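import Pool.Agent.MP_b5e119_nt.G42X.Defs

/-! Row MERX: Mertens' upper bound and the reduction to split primes, any modulus. -/

namespace Pool.Agent.G42

open Finset Filter Topology Pool.Agent.G60
open Pool.Agent.G27 (cu nu re EX WW UN)

theorem merx_a (z : ℕ) : ∑ e ∈ Ioc 0 z, ArithmeticFunction.vonMangoldt e * ((z / e : ℕ) : ℝ) =
    ∑ n ∈ Ioc 0 z, Real.log n := by
  have h1 : ∀ n ∈ Ioc 0 z, Real.log n =
      ∑ e ∈ Ioc 0 z, if e ∣ n then ArithmeticFunction.vonMangoldt e else 0 := by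
    intro n hn
    rw [mem_Ioc] at hn
    rw [← ArithmeticFunction.vonMangoldt_sum, ← sum_filter]
    refine sum_congr ?_ fun _ _ => rfl
    ext d
    simp only [Nat.mem_divisors, mem_filter, mem_Ioc]
    constructor
    · rintro ⟨hd, h0⟩
      exact ⟨⟨Nat.pos_of_dvd_of_pos hd hn.1, (Nat.le_of_dvd hn.1 hd).trans hn.2⟩, hd⟩
    · rintro ⟨_, hd⟩
      exact ⟨hd, hn.1.ne'⟩
  rw [sum_congr rfl h1, sum_comm]
  refine sum_congr rfl fun e _ => ?_
  rw [← sum_filter, sum_const, Nat.Ioc_filter_dvd_card_eq_div, nsmul_eq_mul, mul_comm]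

theorem merx_b (z : ℕ) (hz : 0 < z) :
    ∑ e ∈ Ioc 0 z, ArithmeticFunction.vonMangoldt e / (e : ℝ) ≤ Real.log z + (Real.log 4 + 4) := by
  have hz' : (0 : ℝ) < z := by exact_mod_cast hz
  have h1 : ∑ n ∈ Ioc 0 z, Real.log n ≤ z * Real.log z := by
    calc ∑ n ∈ Ioc 0 z, Real.log n ≤ ∑ _n ∈ Ioc 0 z, Real.log z := by
          refine sum_le_sum fun n hn => ?_
          rw [mem_Ioc] at hn
          exact Real.log_le_log (by exact_mod_cast hn.1) (by exact_mod_cast hn.2)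
      _ = z * Real.log z := by simp
  have h2 : ∑ e ∈ Ioc 0 z, ArithmeticFunction.vonMangoldt e ≤ (Real.log 4 + 4) * z := by
    have h := Chebyshev.psi_le_const_mul_self hz'.le
    unfold Chebyshev.psi at h
    rwa [Nat.floor_natCast] at h
  have h3 : (z : ℝ) * ∑ e ∈ Ioc 0 z, ArithmeticFunction.vonMangoldt e / (e : ℝ) ≤
      ∑ e ∈ Ioc 0 z, ArithmeticFunction.vonMangoldt e * ((z / e : ℕ) : ℝ) +
        ∑ e ∈ Ioc 0 z, ArithmeticFunction.vonMangoldt e := by
    rw [mul_sum, ← sum_add_distrib]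
    refine sum_le_sum fun e he => ?_
    rw [mem_Ioc] at he
    have he' : (0 : ℝ) < e := by exact_mod_cast he.1
    have h4 : (z : ℝ) ≤ e * (((z / e : ℕ) : ℝ) + 1) := by
      have h5 : z ≤ e * (z / e + 1) := (Nat.lt_mul_div_succ z he.1).le
      exact_mod_cast h5
    have h6 : (z : ℝ) / e ≤ ((z / e : ℕ) : ℝ) + 1 := by
      rw [div_le_iff₀ he']; linarith
    have h7 : 0 ≤ ArithmeticFunction.vonMangoldt e := ArithmeticFunction.vonMangoldt_nonneg
    calc (z : ℝ) * (ArithmeticFunction.vonMangoldt e / (e : ℝ))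
        = ArithmeticFunction.vonMangoldt e * ((z : ℝ) / e) := by ring
      _ ≤ ArithmeticFunction.vonMangoldt e * (((z / e : ℕ) : ℝ) + 1) :=
          mul_le_mul_of_nonneg_left h6 h7
      _ = _ := by ring
  rw [merx_a] at h3
  have h8 : (z : ℝ) * ∑ e ∈ Ioc 0 z, ArithmeticFunction.vonMangoldt e / (e : ℝ) ≤
      z * (Real.log z + (Real.log 4 + 4)) := by linarith
  exact le_of_mul_le_mul_left h8 hz'

theorem merx_c : ∃ D : ℝ, 0 ≤ D ∧ ∀ s : Finset ℕ,
    ∑ n ∈ s, (if n.Prime then 0 else ArithmeticFunction.vonMangoldt n) / (n : ℝ) ≤ D := by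
  have h := ArithmeticFunction.vonMangoldt.summable_residueClass_non_primes_div (0 : ZMod 1)
  have h1 : ∀ n : ℕ, ArithmeticFunction.vonMangoldt.residueClass (0 : ZMod 1) n =
      ArithmeticFunction.vonMangoldt n := by
    intro n
    exact Set.indicator_of_mem (s := {n : ℕ | (n : ZMod 1) = 0})
      (show ((n : ℕ) : ZMod 1) = 0 from Subsingleton.elim _ _) _
  simp only [h1] at h
  have h0 : ∀ n : ℕ, 0 ≤ (if n.Prime then 0 else ArithmeticFunction.vonMangoldt n) / (n : ℝ) := by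
    intro n
    refine div_nonneg ?_ (Nat.cast_nonneg n)
    split_ifs
    · exact le_rfl
    · exact ArithmeticFunction.vonMangoldt_nonneg
  exact ⟨_, tsum_nonneg h0, fun s => h.sum_le_tsum s fun n _ => h0 n⟩

theorem merx_d {N : ℕ} (χ : Ch N) (e : ℕ) :
    Lx χ e / e ≤ 2 * (ArithmeticFunction.vonMangoldt e / (e : ℝ)) := by
  have h1 : (re χ e : ℝ) ≤ 1 := by
    have h2 : re χ e ≤ 1 := by
      unfold re
      split_ifs <;> norm_num
    exact_mod_cast h2
  have h7 : 0 ≤ ArithmeticFunction.vonMangoldt e := ArithmeticFunction.vonMangoldt_nonneg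
  unfold Lx
  rw [← mul_div_assoc]
  refine div_le_div_of_nonneg_right ?_ (Nat.cast_nonneg e)
  nlinarith

theorem merx_f {N : ℕ} (χ : Ch N) (h : χ ^ 2 = 1) (q : ℕ) (hq : q.Prime) :
    re χ q = 1 ∨ re χ q = -1 ∨ (re χ q = 0 ∧ q ∣ N) := by
  unfold re
  by_cases h1 : χ (q : ZMod N) = 1
  · exact Or.inl (if_pos h1)
  by_cases h2 : χ (q : ZMod N) = -1
  · exact Or.inr (Or.inl (by rw [if_neg h1, if_pos h2]))
  refine Or.inr (Or.inr ⟨by rw [if_neg h1, if_neg h2], ?_⟩)
  by_contra hd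
  have hu : IsUnit (q : ZMod N) :=
    (ZMod.isUnit_iff_coprime q N).2 ((Nat.Prime.coprime_iff_not_dvd hq).2 hd)
  have h3 : χ (q : ZMod N) ^ 2 = 1 := by
    rw [← MulChar.pow_apply' χ two_ne_zero, h, MulChar.one_apply hu]
  rcases sq_eq_one_iff.1 h3 with h4 | h4
  · exact h1 h4
  · exact h2 h4

theorem merx_e {N : ℕ} (χ : Ch N) (h : χ ^ 2 = 1) (e : ℕ) : Lx χ e / e ≤
    2 * ((if e.Prime then 0 else ArithmeticFunction.vonMangoldt e) / (e : ℝ)) +
      2 * (if e.Prime ∧ re χ e = 1 then Real.log e / e else 0) +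
        (if e.Prime ∧ e ∣ N then 1 else 0) := by
  have h9 : (0 : ℝ) ≤ if e.Prime ∧ e ∣ N then 1 else 0 := by split_ifs <;> norm_num
  by_cases hp : e.Prime
  · rcases merx_f χ h e hp with h' | h' | ⟨h', hd⟩
    · have h3 := merx_d χ e
      rw [ArithmeticFunction.vonMangoldt_apply_prime hp] at h3
      rw [if_pos hp, if_pos ⟨hp, h'⟩, zero_div]
      linarith
    · have h4 : ¬(e.Prime ∧ re χ e = 1) := by
        rintro ⟨_, h5⟩
        rw [h'] at h5
        exact absurd h5 (by norm_num)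
      have h6 : Lx χ e = 0 := by
        unfold Lx
        rw [h']
        simp
      rw [if_pos hp, if_neg h4, h6, zero_div]
      linarith
    · have h4 : ¬(e.Prime ∧ re χ e = 1) := by
        rintro ⟨_, h5⟩
        rw [h'] at h5
        exact absurd h5 (by norm_num)
      have he : (0 : ℝ) < e := by exact_mod_cast hp.pos
      have h6 : Lx χ e / e ≤ 1 := by
        unfold Lx
        rw [h', ArithmeticFunction.vonMangoldt_apply_prime hp, div_le_one he]
        have h7 := Real.log_le_sub_one_of_pos he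
        simp only [Int.cast_zero, add_zero, mul_one]
        linarith
      rw [if_pos hp, if_neg h4, if_pos ⟨hp, hd⟩, zero_div]
      linarith
  · have h4 : ¬(e.Prime ∧ re χ e = 1) := fun h => hp h.1
    rw [if_neg hp, if_neg h4]
    have h3 := merx_d χ e
    linarith

theorem merx_g (N z x : ℕ) (hN : 0 < N) (hz : 2 ≤ z) (h : N < z ^ 400) :
    #{q ∈ Icc z x | q.Prime ∧ q ∣ N} ≤ 400 := by
  have h1 : ∏ q ∈ {q ∈ Icc z x | q.Prime ∧ q ∣ N}, q ∣ N :=
    Finset.prod_primes_dvd N (fun a ha => (mem_filter.1 ha).2.1.prime)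
      fun a ha => (mem_filter.1 ha).2.2
  have h2 : z ^ #{q ∈ Icc z x | q.Prime ∧ q ∣ N} ≤ ∏ q ∈ {q ∈ Icc z x | q.Prime ∧ q ∣ N}, q :=
    Finset.pow_card_le_prod _ _ _ fun a ha => (mem_Icc.1 (mem_filter.1 ha).1).1
  have h3 := lt_of_le_of_lt (h2.trans (Nat.le_of_dvd hN h1)) h
  exact ((Nat.pow_lt_pow_iff_right (by omega)).1 h3).le

theorem merx_row : MERX_s := by
  obtain ⟨D, hD, hs⟩ := merx_c
  have h4 : 0 ≤ Real.log 4 := Real.log_nonneg (by norm_num)
  refine ⟨2 * (Real.log 4 + 4) + 2 * D + 400, by positivity,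
    fun N _ χ z hχ hz hN => ⟨?_, fun x => ?_⟩⟩
  · have h1 : ∑ e ∈ Ico 1 z, Lx χ e / e ≤
        ∑ e ∈ Ico 1 z, 2 * (ArithmeticFunction.vonMangoldt e / (e : ℝ)) :=
      sum_le_sum fun e _ => merx_d χ e
    have h2 : ∑ e ∈ Ico 1 z, ArithmeticFunction.vonMangoldt e / (e : ℝ) ≤
        ∑ e ∈ Ioc 0 z, ArithmeticFunction.vonMangoldt e / (e : ℝ) := by
      refine sum_le_sum_of_subset_of_nonneg (fun e he => ?_) fun e _ _ =>
        div_nonneg ArithmeticFunction.vonMangoldt_nonneg (Nat.cast_nonneg e)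
      rw [mem_Ico] at he
      rw [mem_Ioc]
      exact ⟨he.1, he.2.le⟩
    rw [← mul_sum] at h1
    have h3 := merx_b z (by omega)
    linarith
  · have h1 := sum_le_sum (s := Icc z x) fun e _ => merx_e χ hχ e
    rw [sum_add_distrib, sum_add_distrib, ← mul_sum, ← mul_sum, ← sum_filter, ← sum_filter,
      sum_const, nsmul_eq_mul, mul_one] at h1
    have h2 := hs (Icc z x)
    have h3 : (#{q ∈ Icc z x | q.Prime ∧ q ∣ N} : ℝ) ≤ 400 := by
      exact_mod_cast merx_g N z x (Nat.pos_of_ne_zero (NeZero.ne N)) hz hN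
    linarith

end Pool.Agent.G42
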