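import Pool.Agent.MP_b5e119_nt.G42X.Defs

namespace Pool.Agent.G42

open Finset Filter Topology Pool.Agent.G60
open Pool.Agent.G94 (Rough)

theorem chc_swap (s : Finset ℕ) (t : ℕ → Finset ℕ) (T : ℕ → ℕ → ℕ → ℕ → ℝ) :
    ∑ j ∈ s, ∑ q ∈ t j, ∑ j' ∈ s, ∑ q' ∈ t j', T j' q' j q =
      ∑ j ∈ s, ∑ q ∈ t j, ∑ j' ∈ s, ∑ q' ∈ t j', T j q j' q' := by
  have h : ∀ G : ℕ → ℕ → ℝ, ∑ j ∈ s, ∑ q ∈ t j, G j q = ∑ x ∈ s.sigma t, G x.1 x.2 :=
    fun G => sum_sigma' s t G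
  simp only [h]
  exact sum_comm

theorem chc_pn {N j q : ℕ} (h : q ∈ PN N j) :
    2 ^ j ≤ q ∧ q < 2 ^ (j + 1) ∧ q.Prime ∧ q.Coprime N := by
  obtain ⟨h1, h2⟩ := mem_filter.1 h
  obtain ⟨h3, h4⟩ := mem_filter.1 h1
  exact ⟨(mem_Ico.1 h3).1, (mem_Ico.1 h3).2, h4, (Nat.Prime.coprime_iff_not_dvd h4).2 h2⟩

theorem chc_cnt (N j₁ j₂ D d M : ℕ) (_h1 : 0 < j₁) (hd : 0 < d) (hM : d ≤ 2 ^ M)
    (hD : M < D * j₁) : ∑ j ∈ Ico j₁ j₂, #{q ∈ PN N j | q ∣ d} ≤ D := by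
  rw [← card_biUnion]
  · have hs : (Ico j₁ j₂).biUnion (fun j => {q ∈ PN N j | q ∣ d}) ⊆
        {q ∈ d.primeFactors | 2 ^ j₁ ≤ q} := fun q hq => by
      obtain ⟨j, hj, hq⟩ := mem_biUnion.1 hq
      obtain ⟨a, b⟩ := mem_filter.1 hq
      obtain ⟨a1, _, a3, _⟩ := chc_pn a
      exact mem_filter.2 ⟨Nat.mem_primeFactors.2 ⟨a3, b, hd.ne'⟩,
        (Nat.pow_le_pow_right two_pos (mem_Ico.1 hj).1).trans a1⟩
    refine (card_le_card hs).trans ?_
    have a : (2 ^ j₁) ^ #{q ∈ d.primeFactors | 2 ^ j₁ ≤ q} ≤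
        ∏ q ∈ {q ∈ d.primeFactors | 2 ^ j₁ ≤ q}, q :=
      pow_card_le_prod _ _ _ fun q hq => (mem_filter.1 hq).2
    have b : ∏ q ∈ {q ∈ d.primeFactors | 2 ^ j₁ ≤ q}, q ≤ d :=
      Nat.le_of_dvd hd ((prod_dvd_prod_of_subset _ _ _ (filter_subset _ _)).trans
        (Nat.prod_primeFactors_dvd d))
    have c := (a.trans b).trans hM
    rw [← pow_mul, Nat.pow_le_pow_iff_right one_lt_two] at c
    have e : j₁ * #{q ∈ d.primeFactors | 2 ^ j₁ ≤ q} < j₁ * D := by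
      rw [mul_comm j₁ D]; exact c.trans_lt hD
    exact (Nat.lt_of_mul_lt_mul_left e).le
  · intro a _ b _ hab
    refine disjoint_left.2 fun q hq hq' => hab ?_
    obtain ⟨a1, a2, _, _⟩ := chc_pn (mem_filter.1 hq).1
    obtain ⟨b1, b2, _, _⟩ := chc_pn (mem_filter.1 hq').1
    have c1 := (Nat.pow_lt_pow_iff_right one_lt_two).1 (a1.trans_lt b2)
    have c2 := (Nat.pow_lt_pow_iff_right one_lt_two).1 (b1.trans_lt a2)
    omega

open Classical in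
theorem chc_mem {N w i j q r t : ℕ} (hw : w ≤ j) (hq : q ∈ PN N j) (hr : r ∈ SN N w i)
    (ht : t + 1 = i + j) : q * r ∈ WN N w t := by
  obtain ⟨a1, a2, a3, a4⟩ := chc_pn hq
  obtain ⟨b0, b3, b4⟩ := mem_filter.1 hr
  obtain ⟨b1, b2⟩ := mem_Ioc.1 b0
  refine mem_filter.2 ⟨mem_Ioc.2 ⟨?_, ?_⟩, fun s hs hd => ?_, Nat.Coprime.mul_left a4 b4⟩
  · have c : 2 ^ j * 2 ^ i < q * r := Nat.mul_lt_mul_of_le_of_lt a1 b1 a3.pos
    rw [← pow_add] at c
    exact (Nat.pow_le_pow_right two_pos (by omega)).trans_lt c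
  · have c : q * r ≤ 2 ^ (j + 1) * 2 ^ (i + 1) := Nat.mul_le_mul a2.le b2
    rw [← pow_add] at c
    exact c.trans (Nat.pow_le_pow_right two_pos (by omega))
  · rcases (Nat.Prime.dvd_mul hs).1 hd with h | h
    · rw [(Nat.prime_dvd_prime_iff_eq hs a3).1 h]
      exact (Nat.pow_le_pow_right two_pos hw).trans a1
    · exact b3 s hs h

open Classical in
theorem chc_mult (N w m j₁ j₂ D j : ℕ) (g : ℕ → ℝ) (hg : ∀ d, 0 ≤ g d) (hw : w ≤ j₁)
    (h1 : 0 < j₁) (h2 : 2 * j₂ + 2 ≤ m) (hD : m + 2 ≤ D * j₁) (hj : j < j₂) :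
    ∑ j' ∈ Ico j₁ j₂, ∑ q ∈ PN N j', ∑ r ∈ SN N w (m - j - j' - 1), g (q * r) ≤
      D * ∑ d ∈ WN N w (m - j - 2), g d := by
  have a : ∀ j' ∈ Ico j₁ j₂, ∀ q ∈ PN N j', ∑ r ∈ SN N w (m - j - j' - 1), g (q * r) ≤
      ∑ d ∈ WN N w (m - j - 2), if q ∣ d then g d else 0 := fun j' hj' q hq => by
    obtain ⟨b1, b2⟩ := mem_Ico.1 hj'
    rw [← sum_filter, ← sum_image (s := SN N w (m - j - j' - 1)) (g := fun r => q * r) (f := g)
      fun x _ y _ e => Nat.eq_of_mul_eq_mul_left (chc_pn hq).2.2.1.pos e]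
    refine sum_le_sum_of_subset_of_nonneg (fun u hu => ?_) fun u _ _ => hg _
    obtain ⟨r, hr, rfl⟩ := mem_image.1 hu
    exact mem_filter.2 ⟨chc_mem (hw.trans b1) hq hr (by omega), dvd_mul_right _ _⟩
  refine (sum_le_sum fun j' hj' => sum_le_sum fun q hq => a j' hj' q hq).trans ?_
  have b : ∀ j', ∑ q ∈ PN N j', ∑ d ∈ WN N w (m - j - 2), (if q ∣ d then g d else 0) =
      ∑ d ∈ WN N w (m - j - 2), (#{q ∈ PN N j' | q ∣ d} : ℝ) * g d := fun j' => by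
    rw [sum_comm]
    refine sum_congr rfl fun d _ => ?_
    rw [← sum_filter, sum_const, nsmul_eq_mul]
  simp only [b]
  rw [sum_comm, mul_sum]
  refine sum_le_sum fun d hd => ?_
  rw [← sum_mul]
  refine mul_le_mul_of_nonneg_right ?_ (hg d)
  obtain ⟨c1, c2⟩ := mem_Ioc.1 (mem_filter.1 hd).1
  have := chc_cnt N j₁ j₂ D d (m - j - 2 + 3) h1 ((Nat.zero_le _).trans_lt c1) c2 (by omega)
  exact_mod_cast this

theorem chc_num (X F F' A n q q' P P' I : ℝ) (hX : 0 ≤ X) (hF : 0 ≤ F) (hF' : 0 ≤ F') (hA : 0 ≤ A)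
    (hq : 0 < q) (hq' : 0 < q') (hP : 0 < P) (hP' : 0 < P') (hI : 0 < I) (h1 : I ≤ A * n)
    (h2 : n * X ≤ 2 * F + 2 * F') (h3 : 2 * P ≤ I * q') (h4 : 2 * P' ≤ I * q) :
    X / (q * q') ≤ 1 / q * (A / P) * F + 1 / q' * (A / P') * F' := by
  have a : I * X ≤ A * (2 * F + 2 * F') := by
    have := mul_le_mul_of_nonneg_right h1 hX
    have := mul_le_mul_of_nonneg_left h2 hA
    nlinarith
  have b : X / (q * q') ≤ A * (2 * F + 2 * F') / (I * (q * q')) := by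
    rw [div_le_div_iff₀ (by positivity) (by positivity)]
    have := mul_le_mul_of_nonneg_right a (by positivity : 0 ≤ q * q')
    linarith
  have c1 : A * (2 * F) / (I * (q * q')) ≤ 1 / q * (A / P) * F := by
    have e : 1 / q * (A / P) * F = A * (2 * F) / (2 * P * q) := by field_simp
    rw [e]
    refine div_le_div_of_nonneg_left (by positivity) (by positivity) ?_
    have := mul_le_mul_of_nonneg_right h3 hq.le
    linarith
  have c2 : A * (2 * F') / (I * (q * q')) ≤ 1 / q' * (A / P') * F' := by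
    have e : 1 / q' * (A / P') * F' = A * (2 * F') / (2 * P' * q') := by field_simp
    rw [e]
    refine div_le_div_of_nonneg_left (by positivity) (by positivity) ?_
    have := mul_le_mul_of_nonneg_right h4 hq'.le
    linarith
  rw [mul_add, add_div] at b
  linarith

theorem chc_tri (a b x y r : ℂ) (ha : ‖a‖ = 1) (hb : ‖b‖ = 1) :
    ‖a * x - b * y‖ ^ 2 ≤ 2 * ‖b * r - x‖ ^ 2 + 2 * ‖a * r - y‖ ^ 2 := by
  have e : a * x - b * y = b * (a * r - y) - a * (b * r - x) := by ring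
  have h := norm_sub_le (b * (a * r - y)) (a * (b * r - x))
  rw [← e, norm_mul, norm_mul, ha, hb, one_mul, one_mul] at h
  have := pow_le_pow_left₀ (norm_nonneg _) h 2
  nlinarith [sq_nonneg (‖a * r - y‖ - ‖b * r - x‖)]

theorem chc_row : CHC_s := by
  intro N w m j₁ j₂ D A ψ c hm hn hw h1 h2 hD hA hS
  obtain ⟨T, hT⟩ : ∃ T : ℕ → ℕ → ℕ → ℕ → ℝ, ∀ j q j' q', T j q j' q' =
      1 / (q : ℝ) * (A / 2 ^ (m - j - 2)) *
        ∑ r ∈ SN N w (m - j - j' - 1), ‖ψ (q' * r) - c (m - j - 2)‖ ^ 2 := ⟨_, fun _ _ _ _ => rfl⟩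
  have pt : ∀ j ∈ Ico j₁ j₂, ∀ q ∈ PN N j, ∀ j' ∈ Ico j₁ j₂, ∀ q' ∈ PN N j',
      ‖ψ q * c (m - j - 2) - ψ q' * c (m - j' - 2)‖ ^ 2 / ((q : ℝ) * q') ≤
        T j q j' q' + T j' q' j q := fun j hj q hq j' hj' q' hq' => by
    obtain ⟨a1, a2⟩ := mem_Ico.1 hj
    obtain ⟨b1, b2⟩ := mem_Ico.1 hj'
    obtain ⟨c1, _, c3, c4⟩ := chc_pn hq
    obtain ⟨d1, _, d3, d4⟩ := chc_pn hq'
    rw [hT, hT, show m - j' - j - 1 = m - j - j' - 1 by omega]
    refine chc_num _ _ _ A (#(SN N w (m - j - j' - 1))) _ _ _ _ (2 ^ (m - j - j' - 1))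
      (by positivity) (by positivity) (by positivity) hA (by exact_mod_cast c3.pos)
      (by exact_mod_cast d3.pos) (by positivity) (by positivity) (by positivity)
      (hS _ (by omega) (by omega)) ?_ ?_ ?_
    · rw [mul_sum, mul_sum, ← sum_add_distrib, ← nsmul_eq_mul, ← sum_const]
      refine sum_le_sum fun r _ => ?_
      rw [hm, hm]
      exact chc_tri _ _ _ _ _ (hn q c4) (hn q' d4)
    · have e : (2 : ℝ) * 2 ^ (m - j - 2) = 2 ^ (m - j - j' - 1) * 2 ^ j' := by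
        rw [← pow_succ', ← pow_add]; congr 1; omega
      rw [e]
      exact mul_le_mul_of_nonneg_left (by exact_mod_cast d1) (by positivity)
    · have e : (2 : ℝ) * 2 ^ (m - j' - 2) = 2 ^ (m - j - j' - 1) * 2 ^ j := by
        rw [← pow_succ', ← pow_add]; congr 1; omega
      rw [e]
      exact mul_le_mul_of_nonneg_left (by exact_mod_cast c1) (by positivity)
  refine (sum_le_sum fun j hj => sum_le_sum fun q hq => sum_le_sum fun j' hj' =>
    sum_le_sum fun q' hq' => pt j hj q hq j' hj' q' hq').trans ?_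
  simp only [sum_add_distrib]
  rw [chc_swap (Ico j₁ j₂) (PN N) T, ← two_mul, mul_assoc, mul_assoc]
  refine mul_le_mul_of_nonneg_left ?_ (by norm_num)
  rw [← mul_assoc, mul_sum]
  refine sum_le_sum fun j hj => ?_
  rw [sum_mul, mul_sum]
  refine sum_le_sum fun q _ => ?_
  simp only [hT, ← mul_sum]
  have k := chc_mult N w m j₁ j₂ D j (fun d => ‖ψ d - c (m - j - 2)‖ ^ 2) (fun d => by positivity)
    hw h1 h2 hD (mem_Ico.1 hj).2
  refine (mul_le_mul_of_nonneg_left k (by positivity)).trans_eq ?_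
  rw [EN]
  ring

end Pool.Agent.G42
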