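import Pool.Agent.MP_b5e119_nt.G42X.Defs

namespace Pool.Agent.G42

open Finset Filter Topology Pool.Agent.G60
open Pool.Agent.G94 (Rough)

theorem chd_pt (a b c t : ℂ) (ha : ‖a‖ = 1) :
    ‖a * b - t‖ ^ 2 ≤ 2 * (‖b - c‖ ^ 2 + ‖a * c - t‖ ^ 2) := by
  have h1 : a * b - t = a * (b - c) + (a * c - t) := by ring
  have h2 := norm_add_le (a * (b - c)) (a * c - t)
  rw [norm_mul, ha, one_mul, ← h1] at h2
  have h3 := pow_le_pow_left₀ (norm_nonneg _) h2 2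
  nlinarith [sq_nonneg (‖b - c‖ - ‖a * c - t‖)]

theorem chd_mem (N w m j q n : ℕ) (hj : j + 2 ≤ m) (h1 : 2 ^ j ≤ q) (h2 : q ≤ 2 ^ (j + 1))
    (h : q * n ∈ SN N w m) : n ∈ WN N w (m - j - 2) := by
  classical
  obtain ⟨i, rfl⟩ : ∃ i, m = j + 2 + i := ⟨m - j - 2, by omega⟩
  have hi : j + 2 + i - j - 2 = i := by omega
  rw [hi]
  unfold SN at h
  unfold WN
  simp only [mem_filter, mem_Ioc] at h ⊢
  obtain ⟨⟨a1, a2⟩, a3, a4⟩ := h
  refine ⟨⟨?_, ?_⟩, fun r hr hd => a3 r hr (hd.mul_left q), Nat.Coprime.coprime_mul_left a4⟩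
  · by_contra hc
    have b1 : q * n ≤ 2 ^ (j + 1) * 2 ^ i := Nat.mul_le_mul h2 (not_lt.1 hc)
    have b2 : 2 ^ (j + 2 + i) = 2 * (2 ^ (j + 1) * 2 ^ i) := by ring
    omega
  · have b1 : 2 ^ j * n ≤ q * n := Nat.mul_le_mul_right n h1
    have b2 : 2 ^ (j + 2 + i + 1) = 2 ^ j * 2 ^ (i + 3) := by ring
    exact Nat.le_of_mul_le_mul_left (b1.trans (b2 ▸ a2)) (by positivity)

theorem chd_q (N w m j q : ℕ) (ψ c : ℕ → ℂ) (Θ : ℂ) (hm : ∀ a b, ψ (a * b) = ψ a * ψ b)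
    (hq : ‖ψ q‖ = 1) (hj : j + 2 ≤ m) (h1 : 2 ^ j ≤ q) (h2 : q ≤ 2 ^ (j + 1)) :
    ∑ d ∈ SN N w m with q ∣ d, ‖ψ d - Θ‖ ^ 2 ≤
      2 * (2 ^ (m - j - 2) * EN N w ψ c (m - j - 2) +
        #(WN N w (m - j - 2)) * ‖ψ q * c (m - j - 2) - Θ‖ ^ 2) := by
  have hq0 : 0 < q := lt_of_lt_of_le (by positivity) h1
  have hsub : (SN N w m).filter (q ∣ ·) ⊆ (WN N w (m - j - 2)).image (q * ·) := by
    intro d hd
    obtain ⟨hd, n, rfl⟩ := mem_filter.1 hd
    exact mem_image.2 ⟨n, chd_mem N w m j q n hj h1 h2 hd, rfl⟩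
  have hE : 2 ^ (m - j - 2) * EN N w ψ c (m - j - 2) =
      ∑ d ∈ WN N w (m - j - 2), ‖ψ d - c (m - j - 2)‖ ^ 2 := by
    unfold EN
    field_simp
  calc _ ≤ ∑ d ∈ (WN N w (m - j - 2)).image (q * ·), ‖ψ d - Θ‖ ^ 2 :=
        sum_le_sum_of_subset_of_nonneg hsub fun _ _ _ => by positivity
    _ = ∑ n ∈ WN N w (m - j - 2), ‖ψ (q * n) - Θ‖ ^ 2 :=
        sum_image fun a _ b _ h => Nat.eq_of_mul_eq_mul_left hq0 h
    _ ≤ ∑ n ∈ WN N w (m - j - 2),
          2 * (‖ψ n - c (m - j - 2)‖ ^ 2 + ‖ψ q * c (m - j - 2) - Θ‖ ^ 2) :=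
        sum_le_sum fun n _ => by rw [hm]; exact chd_pt _ _ _ _ hq
    _ = _ := by rw [hE, ← mul_sum, sum_add_distrib, sum_const, nsmul_eq_mul]

theorem chd_row : CHD_s := by
  classical
  intro N w m j₁ j₂ ψ c Θ hm hu hj
  have hn : ∀ q d : ℕ, 0 ≤ (if q ∣ d then ‖ψ d - Θ‖ ^ 2 else 0) := fun q d => by
    split_ifs
    · positivity
    · exact le_rfl
  calc _ ≤ ∑ d ∈ SN N w m, ∑ j ∈ Ico j₁ j₂, ∑ q ∈ PN N j,
          (if q ∣ d then ‖ψ d - Θ‖ ^ 2 else 0) := by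
        rw [sum_filter]
        refine sum_le_sum fun d hd => ?_
        split_ifs with h
        · obtain ⟨q, hq, a1, a2, a3⟩ := h
          have hc : d.Coprime N := by
            unfold SN at hd
            exact (mem_filter.1 hd).2.2
          have b1 : Nat.log 2 q ∈ Ico j₁ j₂ := mem_Ico.2
            ⟨Nat.le_log_of_pow_le (by norm_num) a1, Nat.log_lt_of_lt_pow hq.ne_zero a2⟩
          have b2 : q ∈ PN N (Nat.log 2 q) := by
            unfold PN PB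
            simp only [mem_filter, mem_Ico]
            refine ⟨⟨⟨Nat.pow_log_le_self 2 hq.ne_zero, Nat.lt_pow_succ_log_self (by norm_num) q⟩,
              hq⟩, fun hN => hq.one_lt.ne' (Nat.eq_one_of_dvd_coprimes hc a3 hN)⟩
          have c1 := single_le_sum (f := fun q => if q ∣ d then ‖ψ d - Θ‖ ^ 2 else 0)
            (fun q _ => hn q d) b2
          have c2 := single_le_sum
            (f := fun j => ∑ q ∈ PN N j, if q ∣ d then ‖ψ d - Θ‖ ^ 2 else 0)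
            (fun j _ => sum_nonneg fun q _ => hn q d) b1
          simp only [if_pos a3] at c1
          exact c1.trans c2
        · exact sum_nonneg fun j _ => sum_nonneg fun q _ => hn q d
    _ ≤ _ := by
        rw [sum_comm, mul_sum]
        refine sum_le_sum fun j hj' => ?_
        rw [sum_comm, mul_sum]
        refine sum_le_sum fun q hq => ?_
        unfold PN PB at hq
        simp only [mem_filter, mem_Ico] at hq
        obtain ⟨⟨⟨a1, a2⟩, a3⟩, a4⟩ := hq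
        rw [← sum_filter]
        have := (mem_Ico.1 hj').2
        exact chd_q N w m j q ψ c Θ hm (hu q ((Nat.Prime.coprime_iff_not_dvd a3).2 a4))
          (by omega) a1 a2.le

end Pool.Agent.G42
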