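import Pool.Agent.MP_b5e119_nt.G42X.Defs

namespace Pool.Agent.G42

open Finset Filter Topology Pool.Agent.G60
open Pool.Agent.G94 (Rough)

theorem cnu_cnt (N i : ℕ) (hN : 0 < N) (S : Finset ℕ) (hS : ∀ q ∈ S, q.Prime ∧ q ∣ N ∧ 2 ^ i ≤ q) :
    i * #S ≤ Nat.log 2 N := by
  have h1 : (2 ^ i) ^ #S ≤ ∏ q ∈ S, q := pow_card_le_prod S _ _ fun q hq => (hS q hq).2.2
  have h2 : ∏ q ∈ S, q ∣ N := (prod_dvd_prod_of_subset S N.primeFactors _ fun q hq =>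
    Nat.mem_primeFactors.2 ⟨(hS q hq).1, (hS q hq).2.1, hN.ne'⟩).trans (Nat.prod_primeFactors_dvd N)
  rw [← pow_mul] at h1
  exact Nat.le_log_of_pow_le (by norm_num) (h1.trans (Nat.le_of_dvd hN h2))

theorem cnu_split (a n : ℕ) (f : ℕ → ℝ) :
    ∑ q ∈ Ico (2 ^ a) (2 ^ (a + n)), f q =
      ∑ j ∈ Ico a (a + n), ∑ q ∈ Ico (2 ^ j) (2 ^ (j + 1)), f q := by
  induction n with
  | zero => simp
  | succ n ih =>
    rw [← add_assoc, sum_Ico_succ_top (by omega), ← ih,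
      sum_Ico_consecutive _ (Nat.pow_le_pow_right (by norm_num) (by omega))
      (Nat.pow_le_pow_right (by norm_num) (by omega))]

theorem cnu_log (a n : ℕ) (ha : 0 < a) :
    Real.log ((a + n : ℕ) : ℝ) - Real.log a ≤ ∑ j ∈ Ico a (a + n), 1 / ((j : ℕ) : ℝ) := by
  induction n with
  | zero => simp
  | succ n ih =>
    rw [← add_assoc, sum_Ico_succ_top (by omega)]
    have h0 : (0 : ℝ) < ((a + n : ℕ) : ℝ) := by exact_mod_cast (by omega : 0 < a + n)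
    have h1 : ((a + n + 1 : ℕ) : ℝ) = ((a + n : ℕ) : ℝ) * (1 + 1 / ((a + n : ℕ) : ℝ)) := by
      field_simp
      push_cast
      ring
    have h2 : (0 : ℝ) < 1 + 1 / ((a + n : ℕ) : ℝ) := by positivity
    have h3 := Real.log_le_sub_one_of_pos h2
    rw [h1, Real.log_mul h0.ne' h2.ne']
    linarith

theorem cnu_pow (u : ℕ) (hu : 5 ≤ u) : u * (u + 1) ≤ 2 ^ u := by
  induction u, hu using Nat.le_induction with
  | base => norm_num
  | succ u hu ih => rw [pow_succ]; nlinarith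

theorem cnu_lev (j : ℕ) (hj : 0 < j) (h : 2 ^ j ≤ j * #(PB j)) :
    1 / 2 * (1 / (j : ℝ)) ≤ ∑ q ∈ PB j, 1 / ((q : ℕ) : ℝ) := by
  have h4 : (#(PB j) : ℝ) * (1 / 2 ^ (j + 1)) ≤ ∑ q ∈ PB j, 1 / ((q : ℕ) : ℝ) := by
    rw [← nsmul_eq_mul]
    refine card_nsmul_le_sum _ _ _ fun q hq => ?_
    obtain ⟨hq1, hq2⟩ := mem_filter.1 hq
    have h5 : ((q : ℕ) : ℝ) ≤ 2 ^ (j + 1) := by exact_mod_cast (mem_Ico.1 hq1).2.le
    exact one_div_le_one_div_of_le (by exact_mod_cast hq2.pos) h5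
  refine le_trans ?_ h4
  have h6 : (2 : ℝ) ^ j ≤ (j : ℝ) * #(PB j) := by exact_mod_cast h
  have h7 : (0 : ℝ) < j := by exact_mod_cast hj
  rw [pow_succ (2 : ℝ), one_div_mul_one_div, mul_one_div,
    div_le_div_iff₀ (by positivity) (by positivity)]
  nlinarith

theorem cnu_sub (N w i : ℕ) (hi : 2 ≤ i) (hw : w ≤ i) : #(PN N i) ≤ #(SN N w i) := by
  classical
  refine card_le_card fun q hq => ?_
  obtain ⟨hq, hd⟩ := mem_filter.1 hq
  obtain ⟨a, b⟩ := mem_filter.1 hq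
  obtain ⟨a1, a2⟩ := mem_Ico.1 a
  unfold SN
  simp only [mem_filter, mem_Ioc]
  refine ⟨⟨lt_of_le_of_ne a1 fun h => ?_, a2.le⟩, fun r hr hd => ?_,
    (Nat.Prime.coprime_iff_not_dvd b).2 hd⟩
  · exact Nat.Prime.not_prime_pow hi (h ▸ b)
  · rw [(Nat.prime_dvd_prime_iff_eq hr b).1 hd]
    exact (Nat.pow_le_pow_right (by norm_num) hw).trans a1

theorem cnu_row (hD : DYA_s) : CNU_s := by
  obtain ⟨i₀, hD⟩ := hD
  intro k hk
  refine ⟨2 ^ ((k + 8) * (i₀ + k + 128)), fun N hN => ?_⟩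
  have hN0 : 0 < N := lt_of_lt_of_le (by positivity) hN
  have hl : (k + 8) * (i₀ + k + 128) ≤ Nat.log 2 N := Nat.le_log_of_pow_le (by norm_num) hN
  generalize hL : Nat.log 2 N = l at *
  have hu : i₀ + k + 128 ≤ l / k := (Nat.le_div_iff_mul_le hk).2 (by nlinarith)
  have hlu : l ≤ 2 ^ (l / k) := by
    have h1 : l < k * (l / k + 1) := Nat.lt_mul_div_succ l hk
    have h2 := cnu_pow (l / k) (by omega)
    have h3 : k * (l / k + 1) ≤ l / k * (l / k + 1) := Nat.mul_le_mul_right _ (by omega)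
    omega
  refine ⟨fun i h1 h2 => ?_, fun j₁ j₂ h1 h2 => ?_, fun j hj => ?_⟩
  · have hi : i₀ + 128 ≤ i := by nlinarith
    have h3 : 2 ^ i ≤ i * #(PB i) := (hD i (by omega)).1
    have h4 := cnu_cnt N i hN0 {q ∈ PB i | q ∣ N} fun q hq => by
      obtain ⟨a, b⟩ := mem_filter.1 hq
      exact ⟨(mem_filter.1 a).2, b, (mem_Ico.1 (mem_filter.1 a).1).1⟩
    rw [hL] at h4
    have h5 : #{q ∈ PB i | q ∣ N} ≤ 8 := by
      by_contra h
      have : i * 9 ≤ i * #{q ∈ PB i | q ∣ N} := Nat.mul_le_mul_left _ (by omega)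
      omega
    have h6 : #{q ∈ PB i | q ∣ N} + #(PN N i) = #(PB i) := card_filter_add_card_filter_not _
    have h7 := cnu_pow i (by omega)
    have h8 : 128 * i ≤ i * (i + 1) := by nlinarith
    have h9 : i * #(PB i) ≤ l * (8 + #(PN N i)) := Nat.mul_le_mul h2 (by omega)
    have h10 : 2 ^ i ≤ 2 * l * #(PN N i) := by nlinarith
    refine ⟨h10.trans (Nat.mul_le_mul_left _ (cnu_sub N _ i (by omega) ?_)), fun h8k =>
      h10.trans (Nat.mul_le_mul_left _ (cnu_sub N _ i (by omega) ?_))⟩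
    · have := Nat.div_le_self l k
      omega
    · have := Nat.div_le_div_left (a := l) h8k (by norm_num)
      omega
  · obtain ⟨n, rfl⟩ := Nat.exists_eq_add_of_le h2
    have hj0 : 0 < j₁ := by omega
    have k1 := cnu_log j₁ n hj0
    have k2 : ∑ j ∈ Ico j₁ (j₁ + n), 1 / 2 * (1 / ((j : ℕ) : ℝ)) ≤
        ∑ j ∈ Ico j₁ (j₁ + n), ∑ q ∈ PB j, 1 / ((q : ℕ) : ℝ) := sum_le_sum fun j hj => by
      have := (mem_Ico.1 hj).1
      exact cnu_lev j (by omega) (hD j (by omega)).1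
    rw [← mul_sum] at k2
    have k3 : Real.log (((j₁ + n : ℕ) : ℝ) / j₁) / 2 ≤
        ∑ j ∈ Ico j₁ (j₁ + n), ∑ q ∈ PB j, 1 / ((q : ℕ) : ℝ) := by
      rw [Real.log_div (by positivity) (by positivity)]
      linarith
    have k4 : ∀ P : ℕ → Prop, ∀ [DecidablePred P],
        ∑ j ∈ Ico j₁ (j₁ + n), ∑ q ∈ Ico (2 ^ j) (2 ^ (j + 1)) with P q, 1 / ((q : ℕ) : ℝ) =
        ∑ q ∈ Ico (2 ^ j₁ : ℕ) (2 ^ (j₁ + n)) with P q, 1 / ((q : ℕ) : ℝ) := fun P _ => by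
      simp only [sum_filter]
      rw [cnu_split]
    refine ⟨k3.trans (le_of_eq (k4 Nat.Prime)), ?_⟩
    have k5 : ∑ j ∈ Ico j₁ (j₁ + n), ∑ q ∈ PB j, 1 / ((q : ℕ) : ℝ) =
        ∑ q ∈ Ico (2 ^ j₁ : ℕ) (2 ^ (j₁ + n)) with (q.Prime ∧ q ∣ N), 1 / ((q : ℕ) : ℝ) +
          ∑ j ∈ Ico j₁ (j₁ + n), ∑ q ∈ PN N j, 1 / ((q : ℕ) : ℝ) := by
      rw [← k4 fun q => q.Prime ∧ q ∣ N, ← sum_add_distrib]
      refine sum_congr rfl fun j _ => ?_
      rw [← filter_filter]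
      exact (sum_filter_add_sum_filter_not _ _ _).symm
    set S := ({q ∈ Ico (2 ^ j₁ : ℕ) (2 ^ (j₁ + n)) | q.Prime ∧ q ∣ N} : Finset ℕ) with hS
    have k6 := cnu_cnt N 1 hN0 S fun q hq => by
      obtain ⟨-, b⟩ := mem_filter.1 hq
      exact ⟨b.1, b.2, b.1.two_le⟩
    rw [hL, one_mul] at k6
    have k7 : ∑ q ∈ S, 1 / ((q : ℕ) : ℝ) ≤ #S * (1 / 2 ^ j₁) := by
      rw [← nsmul_eq_mul]
      refine sum_le_card_nsmul _ _ _ fun q hq => ?_
      have h5 : (2 : ℝ) ^ j₁ ≤ ((q : ℕ) : ℝ) := by exact_mod_cast (mem_Ico.1 (mem_filter.1 hq).1).1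
      exact one_div_le_one_div_of_le (by positivity) h5
    have k8 : (#S : ℝ) * (1 / 2 ^ j₁) ≤ 1 := by
      rw [mul_one_div, div_le_one (by positivity)]
      exact_mod_cast k6.trans (hlu.trans (Nat.pow_le_pow_right (by norm_num) h1))
    linarith
  · have h3 : j * #(PB j) ≤ 2 * 2 ^ j := (hD j (by omega)).2
    have h4 : j * #(PN N j) ≤ 2 * 2 ^ j :=
      (Nat.mul_le_mul_left _ (card_le_card (filter_subset _ _))).trans h3
    refine ⟨?_, h4⟩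
    have k7 : ∑ q ∈ PN N j, 1 / ((q : ℕ) : ℝ) ≤ #(PN N j) * (1 / 2 ^ j) := by
      rw [← nsmul_eq_mul]
      refine sum_le_card_nsmul _ _ _ fun q hq => ?_
      have h5 : (2 : ℝ) ^ j ≤ ((q : ℕ) : ℝ) := by
        exact_mod_cast (mem_Ico.1 (mem_filter.1 (mem_filter.1 hq).1).1).1
      exact one_div_le_one_div_of_le (by positivity) h5
    refine k7.trans ?_
    have hj0 : (0 : ℝ) < j := by exact_mod_cast (by omega : 0 < j)
    have h5 : (j : ℝ) * #(PN N j) ≤ 2 * 2 ^ j := by exact_mod_cast h4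
    rw [mul_one_div, div_le_div_iff₀ (by positivity) hj0]
    linarith

end Pool.Agent.G42
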