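import Pool.Agent.MP_b5e119_nt.G42X.Defs

namespace Pool.Agent.G42

open Finset Filter Topology Pool.Agent.G60

theorem conx_row [Sg] (hF : FEWX_s) (hE : ENDX_s) (hM : G27.MUG_s) (hL : LRX_s) (hB : BLK_s) :
    CONX_s := by
  classical
  intro ε η hε hη
  obtain ⟨K, γ, hK, hγ, N₁, hE⟩ := hE ε hε
  obtain ⟨y, β, hβ, N₂, hF⟩ := hF ε γ (min η (1 / 4) / K) hε hγ (by positivity)
  obtain ⟨b₀, hL⟩ := hL ε hε
  obtain ⟨b, hb0, hb4⟩ : ∃ b, b₀ ≤ b ∧ 4 ≤ b := ⟨b₀ + 4, by omega, by omega⟩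
  obtain ⟨Y, hY⟩ : ∃ Y, Y = 2 ^ b ^ 4 := ⟨_, rfl⟩
  refine ⟨y + Y, min β (ε / 2), by positivity, N₁ + N₂ + 2, fun N _ hN hφ hG => ?_⟩
  have hN0 : (0 : ℝ) < N := by exact_mod_cast NeZero.pos N
  have b1 : min β (ε / 2) * N ≤ β * N := mul_le_mul_of_nonneg_right (min_le_left _ _) hN0.le
  have b2 : min β (ε / 2) * N ≤ ε / 2 * N := mul_le_mul_of_nonneg_right (min_le_right _ _) hN0.le
  obtain ⟨U, u1, u2⟩ := hF N (by omega) hφ
    ⟨hG.1.trans b1, fun m h0 hm => (hG.2 m h0 (le_trans hm (Nat.le_add_right _ _))).trans b1⟩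
  have u3 : K * ∑ χ ∈ Uᶜ, G27.nu N χ ≤ min η (1 / 4) :=
    (mul_le_mul_of_nonneg_left u2 hK.le).trans (le_of_eq (by field_simp))
  have u4 := min_le_right η (1 / 4)
  obtain ⟨χ, a1, a2⟩ := hE N (by omega) hφ U u1 (by linarith)
  refine ⟨χ, a1, ?_, a2.trans (u3.trans (min_le_left _ _))⟩
  rintro rfl
  obtain ⟨v, hv, hc⟩ := hL b N hb0 (NeZero.pos N) hφ
  obtain ⟨q', hq', rfl⟩ := mem_image.1 hv
  have v1 := ((hB b hb4).2 q' hq').2.2.2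
  obtain ⟨q, hq⟩ : ({q ∈ BF b (bk b q') | ¬q ∣ N} : Finset ℕ).Nonempty := by
    rw [← card_pos]
    refine Nat.pos_of_ne_zero fun h0 => ?_
    rw [h0] at hc
    omega
  obtain ⟨q1, q2⟩ := mem_filter.1 hq
  obtain ⟨q3, q4⟩ := mem_filter.1 (mem_filter.1 q1).1
  have q5 : q.Coprime N := (Nat.Prime.coprime_iff_not_dvd q4).2 q2
  have h3 := (hM N (by omega)).2 q q5
  have h4 := hG.2 q q4.pos (le_trans (hY ▸ (mem_Ico.1 q3).2.le) (Nat.le_add_left _ _))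
  have h6 : G27.nu N 1 * 4 ≤ ∑ χ : Ch N, G27.nu N χ * ‖χ (q : ZMod N) - (lam q : ℂ)‖ ^ 2 := by
    refine le_trans (le_of_eq ?_) (single_le_sum (f := fun χ : Ch N =>
      G27.nu N χ * ‖χ (q : ZMod N) - (lam q : ℂ)‖ ^ 2)
      (fun χ _ => mul_nonneg (sq_nonneg _) (sq_nonneg _)) (mem_univ 1))
    simp only [MulChar.one_apply ((ZMod.isUnit_iff_coprime q N).2 q5), lam_prime q4]
    norm_num
  have hp : (0 : ℝ) < N.totient := lt_of_lt_of_le (by positivity) hφ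
  have h7 := mul_le_mul_of_nonneg_left h6 hp.le
  have h8 : (N.totient : ℝ) * (3 / 4) ≤ N.totient * G27.nu N 1 :=
    mul_le_mul_of_nonneg_left (by linarith) hp.le
  linarith

end Pool.Agent.G42
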