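import Pool.Agent.MP_b5e119_nt.G42X.Defs
import Pool.Agent.MP_b5e119_nt.G42.Climb
import Pool.Agent.MP_b5e119_nt.G27.PARG
import Pool.Agent.MP_b5e119_nt.G27.MUG
import Pool.Agent.MP_b5e119_nt.G1N.DECN
import Pool.Agent.MP_b5e119_nt.G1N.MOMKN
import Pool.Agent.MP_b5e119_nt.G1N.STEPN
import Pool.Agent.MP_b5e119_nt.G1N.CNTN
import Pool.Agent.MP_b5e119_nt.G1N.RICH
import Pool.Agent.MP_b5e119_nt.G1N.BASEN
import Pool.Agent.MP_b5e119_nt.G1N.INDN

/-! The climb for a general modulus, assembled. -/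

namespace Pool.Agent.G42

open Finset Filter Topology Pool.Agent.G60

theorem fewx_rich : G1N.RICH_s := G1N.rich_row blk_row lrb

theorem fewx_mom : G1N.MOMKN_s := G1N.momkn_row gcd_row

theorem fewx_ind : G1N.INDN_s :=
  G1N.indn_row (G1N.basen_row fewx_rich blk_row (G27.mug_row G27.parg_row))
    (G1N.stepn_row blk_row lrb (G1N.decn_row G27.parg_row blk_row (deca_row tk_row blk_row))
      fewx_mom sta_row stb_row)

theorem lrx : LRX_s := fun ε hε => by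
  obtain ⟨b₀, h⟩ := fewx_rich ε hε
  exact ⟨b₀, fun b N hb hN hφ => h N b hN hφ hb⟩

theorem fewx [Sg] : FEWX_s := by
  classical
  intro η γ e hη hγ he
  set α : ℝ := min (γ / 5) (1 / 2) with hα
  have hα0 : 0 < α := lt_min (by linarith) (by norm_num)
  have hα1 : α ≤ γ / 5 := min_le_left _ _
  have hα2 : α ≤ 1 / 2 := min_le_right _ _
  obtain ⟨B, hB⟩ := twr_row α hα0
  obtain ⟨b, hb, β, hβ, h⟩ := fewx_ind η α e hη hα0 he B
  obtain ⟨l₀, hl₀⟩ := hB b hb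
  refine ⟨2 ^ b ^ 4, β, hβ, 2 ^ l₀, fun p _ hp hφ hod => ?_⟩
  obtain ⟨j, h4, h5, h6⟩ := hl₀ (Nat.log 2 p) (Nat.le_log_of_pow_le Nat.one_lt_two hp)
  have h7 : tw b j ^ 4 < Nat.log 2 p := by
    have a1 : (4 : ℝ) ≤ tw b j := by exact_mod_cast h4
    have a2 : (0 : ℝ) < (tw b j : ℝ) ^ 4 := by positivity
    have a3 : (0 : ℝ) ≤ Nat.log 2 p := Nat.cast_nonneg _
    have a4 : α * Nat.log 2 p ≤ 1 / 2 * Nat.log 2 p := mul_le_mul_of_nonneg_right hα2 a3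
    have a5 : (tw b j : ℝ) ^ 4 < Nat.log 2 p := by linarith
    exact_mod_cast a5
  have h8 : 2 ^ tw b j ^ 4 < p :=
    (Nat.pow_lt_pow_right Nat.one_lt_two h7).trans_le (Nat.pow_log_le_self 2 (NeZero.ne p))
  refine ⟨(Sm p (tw b j) α)ᶜ,
    (G1N.cntn_row blk_row fewx_mom p _ α h4 hα0 hα2 h5 h6).trans ?_, ?_⟩
  · refine Real.rpow_le_rpow_of_exponent_le ?_ (by linarith)
    exact_mod_cast Nat.pos_of_ne_zero (NeZero.ne p)
  · rw [compl_compl]
    exact h p hφ hod.2 j h8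

end Pool.Agent.G42
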