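import Pool.Agent.MP_b5e119_nt.G42X.Defs

namespace Pool.Agent.G42

open Finset Filter Topology Pool.Agent.G60
open Pool.Agent.G27 (cu nu re EX WW UN)
open Pool.Agent.G94 (Rough)

theorem keyx_big (K : ℝ) : ∃ w₀ : ℕ, ∀ w : ℕ, w₀ ≤ w → K * w ≤ 2 ^ w := by
  have h := (tendsto_pow_const_div_const_pow_of_one_lt 1 (one_lt_two (α := ℝ))).const_mul K
  rw [mul_zero] at h
  obtain ⟨w₀, hw⟩ := eventually_atTop.1 (h.eventually (gt_mem_nhds one_pos))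
  refine ⟨w₀, fun w h' => ?_⟩
  have := hw w h'
  rw [pow_one, ← mul_div_assoc, div_lt_one (by positivity)] at this
  exact this.le

theorem keyx_split (R A B C : Finset ℕ) (f g : ℕ → ℝ) (hg : ∀ d, 0 ≤ g d)
    (h : ∀ d ∈ R, (d ∈ A ∧ f d ≤ 1) ∨ (d ∈ B ∧ f d ≤ 2) ∨ (d ∈ C ∧ f d ≤ g d / 2)) :
    ∑ d ∈ R, f d ≤ #A + 2 * #B + (∑ d ∈ C, g d) / 2 := by
  have k : ∀ (S : Finset ℕ) (u : ℕ → ℝ), (∀ d, 0 ≤ u d) →
      ∑ d ∈ R, (if d ∈ S then u d else 0) ≤ ∑ d ∈ S, u d := fun S u hu => by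
    rw [sum_ite_mem]
    exact sum_le_sum_of_subset_of_nonneg inter_subset_right fun d _ _ => hu d
  have k0 : ∑ d ∈ R, f d ≤ ∑ d ∈ R, ((if d ∈ A then (1 : ℝ) else 0) +
      (if d ∈ B then (2 : ℝ) else 0) + (if d ∈ C then g d / 2 else 0)) := sum_le_sum fun d hd => by
    have := hg d
    rcases h d hd with ⟨a, b⟩ | ⟨a, b⟩ | ⟨a, b⟩ <;> rw [if_pos a] <;> split_ifs <;> linarith
  have k1 := k A (fun _ => 1) fun _ => zero_le_one
  have k2 := k B (fun _ => 2) fun _ => zero_le_two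
  have k3 := k C (fun d => g d / 2) fun d => by have := hg d; positivity
  rw [sum_add_distrib, sum_add_distrib] at k0
  rw [sum_const, nsmul_eq_mul] at k1 k2
  rw [← sum_div] at k3
  linarith

theorem keyx_nu (N w k M : ℕ) (hN : N ≠ 0) (hw : 0 < w) (hl : Nat.log 2 N ≤ w * (2 * k))
    (A : Finset ℕ) (hA : ∀ d ∈ A, d ∈ Ioc 0 M ∧ Rough (2 ^ w) d ∧ ¬d.Coprime N) :
    #A * 2 ^ w ≤ 2 * k * M := by
  set Q := {q ∈ N.primeFactors | 2 ^ w ≤ q}
  have hQ : #Q ≤ 2 * k := by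
    have h1 : (2 ^ w) ^ #Q ≤ ∏ q ∈ Q, q := pow_card_le_prod _ _ _ fun q hq => (mem_filter.1 hq).2
    have h2 : ∏ q ∈ Q, q ≤ N := Nat.le_of_dvd (Nat.pos_of_ne_zero hN)
      ((prod_dvd_prod_of_subset _ _ _ (filter_subset _ _)).trans (Nat.prod_primeFactors_dvd N))
    have h3 : w * #Q ≤ Nat.log 2 N :=
      Nat.le_log_of_pow_le one_lt_two (by rw [pow_mul]; exact h1.trans h2)
    exact Nat.le_of_mul_le_mul_left (h3.trans hl) hw
  have h4 : A ⊆ Q.biUnion fun q => {d ∈ Ioc 0 M | q ∣ d} := fun d hd => by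
    obtain ⟨a, b, c⟩ := hA d hd
    obtain ⟨q, q1, q2, q3⟩ := Nat.Prime.not_coprime_iff_dvd.1 c
    exact mem_biUnion.2 ⟨q, mem_filter.2 ⟨Nat.mem_primeFactors.2 ⟨q1, q3, hN⟩, b q q1 q2⟩,
      mem_filter.2 ⟨a, q2⟩⟩
  calc #A * 2 ^ w ≤ (∑ q ∈ Q, #{d ∈ Ioc 0 M | q ∣ d}) * 2 ^ w :=
        Nat.mul_le_mul_right _ ((card_le_card h4).trans card_biUnion_le)
    _ ≤ #Q • M := by
      rw [sum_mul]
      refine sum_le_card_nsmul _ _ _ fun q hq => ?_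
      rw [Nat.Ioc_filter_dvd_card_eq_div]
      exact (Nat.mul_le_mul_left _ (mem_filter.1 hq).2).trans (Nat.div_mul_le_self _ _)
    _ ≤ _ := Nat.mul_le_mul_right _ hQ

theorem keyx_pv (N w : ℕ) (hN : N ≠ 0) (h : 17 * ((Nat.log 2 N : ℝ) + 2) ≤ 2 ^ w) :
    1 + 2 * WW N ≤ 2 ^ (Nat.log 2 N / 2) * 2 ^ w := by
  have h1 : (N : ℝ) < 2 ^ (Nat.log 2 N + 1) := by
    exact_mod_cast Nat.lt_pow_succ_log_self one_lt_two N
  generalize Nat.log 2 N = l at h h1 ⊢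
  have h2 : √(N : ℝ) ≤ 2 * 2 ^ (l / 2) := by
    rw [Real.sqrt_le_left (by positivity)]
    calc (N : ℝ) ≤ 2 ^ (l + 1) := h1.le
      _ ≤ 2 ^ (2 * (l / 2 + 1)) := pow_le_pow_right₀ one_le_two (by omega)
      _ = _ := by ring
  have h3 : Real.log N ≤ l + 1 := by
    have := Real.log_le_log (by exact_mod_cast Nat.pos_of_ne_zero hN) h1.le
    rw [Real.log_pow] at this
    have h := Real.log_two_lt_d9
    have : (0 : ℝ) ≤ l := Nat.cast_nonneg l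
    push_cast at *
    nlinarith
  have h0 : 0 ≤ Real.log N := Real.log_natCast_nonneg N
  have h4 : (1 : ℝ) ≤ 2 ^ (l / 2) := one_le_pow₀ one_le_two
  have h5 : √(N : ℝ) * (1 + Real.log N) ≤ 2 * 2 ^ (l / 2) * (l + 2) :=
    mul_le_mul h2 (by linarith) (by positivity) (by positivity)
  have h6 : (1 : ℝ) ≤ 2 ^ (l / 2) * (l + 2) :=
    one_le_mul_of_one_le_of_one_le h4 (by have : (0 : ℝ) ≤ l := Nat.cast_nonneg l; linarith)
  have h7 := mul_le_mul_of_nonneg_left h (zero_le_one.trans h4)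
  unfold WW
  linarith

theorem keyx_win (E : ℕ → ℝ) (hE : ∀ i, 0 ≤ E i) (I : Finset ℕ) (m j₁ j₂ : ℕ) (hm : j₂ + 2 ≤ m)
    (h : ∀ j ∈ Ico j₁ j₂, m - j - 2 ∈ I) : ∑ j ∈ Ico j₁ j₂, E (m - j - 2) ≤ ∑ i ∈ I, E i := by
  rw [← sum_image (g := fun j => m - j - 2) (f := E) fun x hx y hy e => by
    have := (mem_Ico.1 hx).2
    have := (mem_Ico.1 hy).2
    simp only at e
    omega]
  exact sum_le_sum_of_subset_of_nonneg (image_subset_iff.2 h) fun i _ _ => hE i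

theorem keyx_avg (J : Finset ℕ) (P : ℕ → Finset ℕ) (F : ℕ → ℕ → ℝ) (M : ℝ) (hM : 0 < M)
    (h1 : 1 ≤ ∑ j ∈ J, ∑ q ∈ P j, 1 / (q : ℝ)) (h2 : ∑ j ∈ J, ∑ q ∈ P j, F j q / q ≤ M) :
    ∃ j ∈ J, ∃ q ∈ P j, F j q ≤ 2 * M := by
  by_contra h
  push Not at h
  have : 2 * M * ∑ j ∈ J, ∑ q ∈ P j, 1 / (q : ℝ) ≤ ∑ j ∈ J, ∑ q ∈ P j, F j q / q := by
    rw [mul_sum]
    refine sum_le_sum fun j hj => ?_
    rw [mul_sum]
    refine sum_le_sum fun q hq => ?_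
    rw [mul_one_div]
    exact div_le_div_of_nonneg_right (h j hj q hq).le (Nat.cast_nonneg q)
  nlinarith

theorem keyx_re {z Θ : ℂ} (hz : ‖z‖ = 1) (hΘ : ‖Θ‖ = 1) :
    1 - (z * (starRingEnd ℂ) Θ).re = ‖z - Θ‖ ^ 2 / 2 := by
  rw [← Complex.normSq_eq_norm_sq, Complex.normSq_sub, Complex.normSq_eq_norm_sq,
    Complex.normSq_eq_norm_sq, hz, hΘ]
  ring

theorem keyx_row (h1 : SVR_s) (h2 : SVV_s) (h3 : SVL_s) (h4 : CHC_s) (h5 : CHD_s) (h6 : CNU_s)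
    (h7 : G27.PV_s) : KEYX_s := by
  classical
  obtain ⟨s₁, C₁, hC₁, svr⟩ := h1
  obtain ⟨s₂, c₂, C₂, hc₂, hC₂, svv⟩ := h2
  obtain ⟨s₃, svl⟩ := h3
  obtain ⟨t, ht⟩ := exists_nat_ge (16 * C₁ + 8)
  have t8 : (8 : ℝ) ≤ t := by linarith
  have t1 : 1 ≤ t := by exact_mod_cast (by linarith : (1 : ℝ) ≤ t)
  obtain ⟨s, hs⟩ : ∃ s, s = s₁ + s₂ + s₃ := ⟨_, rfl⟩
  obtain ⟨K, hK⟩ : ∃ K, K = (s + 4) * t ^ 2 := ⟨_, rfl⟩
  obtain ⟨k, hk⟩ : ∃ k, k = 16 * ((s + 1) * K) := ⟨_, rfl⟩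
  have K1 : s + 4 ≤ K := by rw [hK]; exact Nat.le_mul_of_pos_right _ (by positivity)
  have k16 : 16 ≤ k := by
    have : 0 < (s + 1) * K := Nat.mul_pos (by omega) (by omega)
    omega
  have kr : (16 : ℝ) ≤ k := by exact_mod_cast k16
  obtain ⟨N₁, cnu⟩ := h6 k (by omega)
  obtain ⟨w₀, big⟩ := keyx_big (68 * k + 32 * k / c₂)
  obtain ⟨ρ, hρ, hρ'⟩ : ∃ ρ : ℝ, 0 < ρ ∧ ρ * (1 + 16 * C₂ * k ^ 2) = c₂ / 4 :=
    ⟨c₂ / (4 * (1 + 16 * C₂ * k ^ 2)), by positivity, by field_simp⟩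
  refine ⟨k, ρ, k16, hρ, max N₁ (2 ^ (k * (w₀ + 2))), fun N _ hN ψ c hc hE => ?_⟩
  by_contra hψ
  obtain ⟨cn1, cn2, cn3⟩ := cnu N (le_of_max_le_left hN)
  have hl : k * (w₀ + 2) ≤ Nat.log 2 N := Nat.le_log_of_pow_le one_lt_two (le_of_max_le_right hN)
  have pv := keyx_pv N (Nat.log 2 N / k) (NeZero.ne N)
  have nu := fun M a b => keyx_nu N (Nat.log 2 N / k) k M (NeZero.ne N) a b
  have w1 : w₀ + 2 ≤ Nat.log 2 N / k := (Nat.le_div_iff_mul_le (by omega)).2 (by rwa [mul_comm])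
  have w2 : k * (Nat.log 2 N / k) ≤ Nat.log 2 N := Nat.mul_div_le _ _
  have w3 : Nat.log 2 N < k * (Nat.log 2 N / k + 1) := Nat.lt_mul_div_succ _ (by omega)
  rw [II] at hc hE
  generalize Nat.log 2 N = l at *
  generalize l / k = w at *
  have wp : 0 < w := by omega
  have wr : (1 : ℝ) ≤ w := by exact_mod_cast wp
  have f0 : 2 * k ≤ k * w := by rw [mul_comm]; exact Nat.mul_le_mul_left _ (by omega)
  have f1 : k * w = 16 * ((s + 1) * (K * w)) := by rw [hk]; ring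
  have f2 : K * w ≤ (s + 1) * (K * w) := Nat.le_mul_of_pos_left _ (by omega)
  have f3 : (s + 4) * w ≤ K * w := Nat.mul_le_mul_right _ K1
  have f4 : s₁ * (K * w) ≤ (s + 1) * (K * w) := Nat.mul_le_mul_right _ (by omega)
  have f5 : s₂ * w ≤ (s + 1) * w := Nat.mul_le_mul_right _ (by omega)
  have f6 : w + s₃ * w ≤ (s + 1) * w := by
    rw [← Nat.one_mul w, ← mul_assoc, ← add_mul, one_mul w]
    exact Nat.mul_le_mul_right _ (by omega)
  have f7 : (s + 4) * w = (s + 1) * w + 3 * w := by ring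
  have f8 : 4 * (k * w) ≤ k * ((s + 4) * w) := by nlinarith only [Nat.zero_le (k * s * w)]
  have f9 : w * (2 * k) = 2 * (k * w) := by ring
  have fa : Real.log (((K * w : ℕ) : ℝ) / ((s + 4) * w : ℕ)) / 2 = Real.log t := by
    rw [show ((K * w : ℕ) : ℝ) / ((s + 4) * w : ℕ) = t ^ 2 by rw [hK]; push_cast; field_simp,
      Real.log_pow]
    push_cast
    ring
  rw [mul_add, mul_one] at w3
  have lr : (l : ℝ) ≤ 2 * (k * w) := by exact_mod_cast (by omega : l ≤ 2 * (k * w))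
  generalize (s + 4) * w = j₁ at *
  generalize K * w = j₂ at *
  generalize (s + 1) * w = a at *
  obtain ⟨m, hm⟩ : ∃ m, m = l / 2 + a := ⟨_, rfl⟩
  have win : ∀ j ∈ Ico j₁ j₂, m - j - 2 ∈ Ico (l / 4) (l / 2 - 2 * w) := fun j hj => by
    rw [mem_Ico] at hj ⊢
    omega
  obtain ⟨c2a, c2b⟩ := cn2 j₁ j₂ (by omega) (by omega)
  rw [fa] at c2a c2b
  have lt2 : 2 ≤ Real.log t := by
    have := Real.log_le_log (by norm_num) t8
    rw [show (8 : ℝ) = 2 ^ 3 by norm_num, Real.log_pow] at this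
    have := Real.log_two_gt_d9
    push_cast at *
    linarith
  have mu : ∀ a b : ℕ, ψ ((a * b : ℕ) : ZMod N) = ψ (a : ZMod N) * ψ (b : ZMod N) := fun a b => by
    rw [Nat.cast_mul, map_mul]
  have un : ∀ d : ℕ, d.Coprime N → ‖ψ (d : ZMod N)‖ = 1 := fun d hd =>
    ψ.unit_norm_eq_one (ZMod.unitOfCoprime d hd)
  have e0 : ∀ i, 0 ≤ EN N w (fun d => ψ (d : ZMod N)) c i := fun i => by
    unfold EN
    positivity
  have eS := (keyx_win _ e0 _ m j₁ j₂ (by omega) win).trans hE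
  have chc := h4 N w m j₁ j₂ k (2 * l) (fun d => ψ (d : ZMod N)) c mu un (by omega) (by omega)
    (by omega) (by omega) (by positivity) fun i i1 i2 => by
      exact_mod_cast (cn1 i (by omega) (by omega)).2 (by omega)
  have jw : ∀ j ∈ Ico j₁ j₂, w ≤ j := fun j hj => by have := (mem_Ico.1 hj).1; omega
  have s1 : ∑ j ∈ Ico j₁ j₂, (∑ q ∈ PN N j, 1 / (q : ℝ)) *
      EN N w (fun d => ψ (d : ZMod N)) c (m - j - 2) ≤ 2 / w * ρ := by
    refine le_trans ?_ (mul_le_mul_of_nonneg_left eS (by positivity))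
    rw [mul_sum]
    refine sum_le_sum fun j hj => mul_le_mul_of_nonneg_right ((cn3 j (jw j hj)).1.trans ?_) (e0 _)
    exact div_le_div_of_nonneg_left zero_le_two (by positivity) (by exact_mod_cast jw j hj)
  obtain ⟨j₀, hj₀, q₀, hq₀, hF⟩ := keyx_avg (Ico j₁ j₂) (PN N) (fun j q => ∑ j' ∈ Ico j₁ j₂,
      ∑ q' ∈ PN N j', ‖ψ (q' : ZMod N) * c (m - j' - 2) - ψ (q : ZMod N) * c (m - j - 2)‖ ^ 2 / q')
      (16 * k ^ 2 * ρ) (by positivity) (by linarith) (by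
    refine le_trans (le_of_eq ?_) (chc.trans ((mul_le_mul_of_nonneg_left s1 (by positivity)).trans ?_))
    · refine sum_congr rfl fun j _ => sum_congr rfl fun q _ => ?_
      rw [sum_div]
      refine sum_congr rfl fun j' _ => ?_
      rw [sum_div]
      refine sum_congr rfl fun q' _ => ?_
      rw [norm_sub_rev, div_div, mul_comm (q' : ℝ)]
    · calc 2 * (2 * (l : ℝ)) * k * (2 / w * ρ) = l * (8 * k * ρ / w) := by ring
        _ ≤ 2 * (k * w) * (8 * k * ρ / w) := mul_le_mul_of_nonneg_right lr (by positivity)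
        _ = _ := by field_simp; ring)
  have hΘ : ‖ψ (q₀ : ZMod N) * c (m - j₀ - 2)‖ = 1 := by
    obtain ⟨x, y⟩ := mem_filter.1 hq₀
    rw [norm_mul, un _ ((Nat.Prime.coprime_iff_not_dvd (mem_filter.1 x).2).2 y), hc _ (win _ hj₀),
      one_mul]
  generalize ψ (q₀ : ZMod N) * c (m - j₀ - 2) = Θ at hF hΘ
  have bg := big w (by omega)
  have b0 : 0 ≤ 32 * (k : ℝ) / c₂ * w := by positivity
  have b1 : (0 : ℝ) ≤ 68 * k * w := by positivity
  have kw : (1 : ℝ) ≤ k * w := one_le_mul_of_one_le_of_one_le (by linarith) wr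
  have low := svl N ψ Θ w m (WW N) hΘ wp (fun Y => h7 N ψ Y hψ) (by
    calc (1 + 2 * WW N) * 2 ^ (s₃ * w) ≤ 2 ^ (l / 2) * 2 ^ w * 2 ^ (s₃ * w) :=
          mul_le_mul_of_nonneg_right (pv (by linarith only [bg, b0, lr, kw])) (by positivity)
      _ ≤ _ := by
        rw [← pow_add, ← pow_add]
        exact pow_le_pow_right₀ one_le_two (by omega))
  have up := svr w j₁ j₂ m wp (by omega) (by omega) (by omega)
  have chd := h5 N w m j₁ j₂ (fun d => ψ (d : ZMod N)) c Θ mu un (by omega)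
  have nun := nu (2 ^ (m + 1)) wp (by omega)
    {d ∈ Ioc (2 ^ m) (2 ^ (m + 1)) | Rough (2 ^ w) d ∧ ¬d.Coprime N} fun d hd => by
      obtain ⟨x, y⟩ := mem_filter.1 hd
      exact ⟨Ioc_subset_Ioc_left (Nat.zero_le _) x, y⟩
  have sp := low.trans (keyx_split _
    {d ∈ Ioc (2 ^ m) (2 ^ (m + 1)) | Rough (2 ^ w) d ∧ ¬d.Coprime N}
    {d ∈ Ioc (2 ^ m) (2 ^ (m + 1)) | Rough (2 ^ w) d ∧
      ∀ q : ℕ, q.Prime → 2 ^ j₁ ≤ q → q < 2 ^ j₂ → ¬q ∣ d}
    {d ∈ SN N w m | ∃ q : ℕ, q.Prime ∧ 2 ^ j₁ ≤ q ∧ q < 2 ^ j₂ ∧ q ∣ d} _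
    (fun d => ‖ψ (d : ZMod N) - Θ‖ ^ 2) (fun d => by positivity) fun d hd => by
      obtain ⟨x, y⟩ := mem_filter.1 hd
      by_cases z : d.Coprime N
      · have e := keyx_re (un d z) hΘ
        by_cases p : ∃ q : ℕ, q.Prime ∧ 2 ^ j₁ ≤ q ∧ q < 2 ^ j₂ ∧ q ∣ d
        · exact Or.inr (Or.inr ⟨mem_filter.2 ⟨mem_filter.2 ⟨x, y, z⟩, p⟩, e.le⟩)
        · refine Or.inr (Or.inl ⟨mem_filter.2 ⟨x, y, fun q a b c d => p ⟨q, a, b, c, d⟩⟩, ?_⟩)
          have := norm_sub_le (ψ (d : ZMod N)) Θ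
          rw [un d z, hΘ] at this
          rw [e]
          nlinarith only [this, norm_nonneg (ψ (d : ZMod N) - Θ)]
      · refine Or.inl ⟨mem_filter.2 ⟨x, y, z⟩, ?_⟩
        rw [ψ.map_nonunit fun h => z ((ZMod.isUnit_iff_coprime d N).1 h)]
        simp)
  have V := (svv w wp).1
  have V0 : 0 < VZ w := lt_of_lt_of_le (by positivity) V
  have P : (0 : ℝ) < 2 ^ m := by positivity
  have uA : (#{d ∈ Ioc (2 ^ m) (2 ^ (m + 1)) | Rough (2 ^ w) d ∧ ¬d.Coprime N} : ℝ) ≤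
      2 ^ m * VZ w / 8 := by
    have n1 : (#{d ∈ Ioc (2 ^ m) (2 ^ (m + 1)) | Rough (2 ^ w) d ∧ ¬d.Coprime N} : ℝ) * 2 ^ w ≤
        2 * k * 2 ^ (m + 1) := by exact_mod_cast nun
    refine le_of_mul_le_mul_right (n1.trans ?_) (by positivity : (0 : ℝ) < 2 ^ w)
    calc 2 * (k : ℝ) * 2 ^ (m + 1) = 2 ^ m * (c₂ / w) / 8 * (32 * k / c₂ * w) := by
          field_simp; ring
      _ ≤ _ := mul_le_mul (div_le_div_of_nonneg_right (mul_le_mul_of_nonneg_left V P.le)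
          (by norm_num)) (by linarith only [bg, b1]) b0 (by positivity)
  have uB : C₁ * 2 ^ m * VZ w * Real.exp (-∑ q ∈ Ico (2 ^ j₁ : ℕ) (2 ^ j₂) with q.Prime,
      1 / ((q : ℕ) : ℝ)) ≤ 2 ^ m * VZ w / 16 := by
    have := Real.exp_le_exp.2 (neg_le_neg c2a)
    rw [Real.exp_neg (Real.log t), Real.exp_log (by linarith)] at this
    refine (mul_le_mul_of_nonneg_left this (by positivity)).trans ?_
    rw [← div_eq_mul_inv, div_le_div_iff₀ (by linarith) (by norm_num)]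
    linarith only [mul_le_mul_of_nonneg_left (show 16 * C₁ ≤ t by linarith only [ht])
      (mul_pos P V0).le]
  have uC : ∑ j ∈ Ico j₁ j₂, ∑ q ∈ PN N j, (2 ^ (m - j - 2) *
      EN N w (fun d => ψ (d : ZMod N)) c (m - j - 2) +
        #(WN N w (m - j - 2)) * ‖ψ (q : ZMod N) * c (m - j - 2) - Θ‖ ^ 2) ≤
      2 ^ m / (2 * w) * ρ + C₂ * 2 ^ m / (2 * w) * (2 * (16 * k ^ 2 * ρ)) := by
    refine le_trans ?_ (add_le_add (mul_le_mul_of_nonneg_left eS (by positivity))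
      (mul_le_mul_of_nonneg_left hF (by positivity)))
    rw [mul_sum, mul_sum, ← sum_add_distrib]
    refine sum_le_sum fun j hj => ?_
    have hw := mem_Ico.1 (win j hj)
    have hj2 := (mem_Ico.1 hj).2
    have pm : (2 : ℝ) ^ m = 2 ^ (m - j - 2) * 2 ^ j * 4 := by
      rw [show (4 : ℝ) = 2 ^ 2 by norm_num, ← pow_add, ← pow_add]
      congr 1
      omega
    have Q : (0 : ℝ) < 2 ^ (m - j - 2) := by positivity
    rw [sum_add_distrib, sum_const, nsmul_eq_mul, ← mul_assoc, mul_sum]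
    refine add_le_add (mul_le_mul_of_nonneg_right ?_ (e0 _)) (sum_le_sum fun q hq => ?_)
    · have a1 : (j : ℝ) * #(PN N j) ≤ 2 * 2 ^ j := by exact_mod_cast (cn3 j (jw j hj)).2
      have a2 : (w : ℝ) * #(PN N j) ≤ j * #(PN N j) :=
        mul_le_mul_of_nonneg_right (by exact_mod_cast jw j hj) (by positivity)
      rw [le_div_iff₀ (by positivity), pm]
      linarith only [mul_le_mul_of_nonneg_left (a2.trans a1) Q.le]
    · obtain ⟨x, y⟩ := mem_filter.1 (mem_filter.1 hq).1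
      have q1 : (q : ℝ) ≤ 2 * 2 ^ j := by
        have := (mem_Ico.1 x).2
        rw [pow_succ'] at this
        exact_mod_cast this.le
      have q0 : (0 : ℝ) < q := by exact_mod_cast y.pos
      rw [← mul_div_assoc, mul_div_right_comm]
      refine mul_le_mul_of_nonneg_right (((svv w wp).2 N _ (by omega)).trans ?_) (by positivity)
      rw [le_div_iff₀ q0, pm]
      calc C₂ * 2 ^ (m - j - 2) / w * q ≤ C₂ * 2 ^ (m - j - 2) / w * (2 * 2 ^ j) := by gcongr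
        _ = _ := by field_simp; ring
  have fin : 2 ^ m / (2 * w) * ρ + C₂ * 2 ^ m / (2 * w) * (2 * (16 * k ^ 2 * ρ)) =
      2 ^ m * (c₂ / w) / 4 - 2 ^ m / (2 * w) * ρ := by
    rw [show c₂ = 4 * (ρ * (1 + 16 * C₂ * k ^ 2)) by linarith]
    field_simp
    ring
  have p1 : 0 < (2 : ℝ) ^ m / (2 * w) * ρ := by positivity
  have p2 := mul_le_mul_of_nonneg_left V P.le
  have up' := up.trans uB
  have chd' := chd.trans (mul_le_mul_of_nonneg_left uC zero_le_two)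
  linarith only [sp, uA, up', chd', fin, p1, p2]

end Pool.Agent.G42
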