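import Pool.Agent.MP_b5e119_nt.G42X.Defs

namespace Pool.Agent.G42

open Finset Filter Topology Pool.Agent.G60

theorem odx_row [Sg] (hLIO : LIO_s) (hMON : MON_s) (hODG : G27.ODG_s) (hD : G27.DIRG_s) :
    ODX_s := by
  intro M β hβ
  obtain ⟨C, hC, hD⟩ := hD M
  obtain ⟨K, hK, hL⟩ := hLIO 1
  have hC1 : (1 : ℝ) ≤ C := by exact_mod_cast hC
  obtain ⟨δ, hδ⟩ : ∃ δ : ℝ, δ = β / C := ⟨_, rfl⟩
  have hδ0 : 0 < δ := by rw [hδ]; positivity
  have hδC : (C : ℝ) * δ = β := by rw [hδ]; field_simp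
  obtain ⟨x₀, hx₀⟩ : ∃ x₀ : ℕ, x₀ = ⌈Real.exp (4 * K / δ)⌉₊ + ⌈4 / δ⌉₊ + 3 := ⟨_, rfl⟩
  refine ⟨δ / (8 * C), by positivity, x₀ * C, fun N _ hN e he hc => ?_⟩
  have hO : G27.OD N (1 * C) δ := by
    intro M' g _ hM hg
    have hg0 : 0 < g := Nat.pos_of_ne_zero (by rintro rfl; exact NeZero.ne N (by omega))
    have hM' : x₀ ≤ M' := by
      refine Nat.le_of_mul_le_mul_right (hN.trans ?_) hC
      rw [← hM]
      exact Nat.mul_le_mul_left _ (by omega)
    have hs : ∀ y : ℤ, lam g * (lam g * y) = y := fun y => by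
      rcases lam_cases g with a | a <;> rw [a] <;> ring
    have h1 := hMON M' g (lam g * e) (lam g * (-Sg.s * e)) hg0
    rw [hs, hs, hM] at h1
    have h2 := hODG M' (lam g * e) (by
      rcases lam_cases g with a | a <;> rcases he with b | b <;> rw [a, b] <;> norm_num)
    rw [show -Sg.s * (lam g * e) = lam g * (-Sg.s * e) by ring] at h2
    obtain ⟨x, rfl⟩ : ∃ x, M' = x + 1 := ⟨M' - 1, by omega⟩
    have hx2 : 2 ≤ x := by omega
    have hxR : (2 : ℝ) ≤ x := by exact_mod_cast hx2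
    rw [Nat.add_sub_cancel] at h2
    have h3 : (od (x + 1) : ℝ) ≤ |∑ n ∈ Icc 1 x, (lam n : ℝ)| +
        2 * cnt (x + 1) (lam g * e) (lam g * (-Sg.s * e)) := by exact_mod_cast h2
    have h4 : (cnt (x + 1) (lam g * e) (lam g * (-Sg.s * e)) : ℝ) ≤ cnt N e (-Sg.s * e) := by
      exact_mod_cast h1
    have l1 : 4 * K / δ ≤ Real.log x := by
      rw [Real.le_log_iff_exp_le (by linarith)]
      refine (Nat.le_ceil _).trans ?_
      exact_mod_cast (by omega : ⌈Real.exp (4 * K / δ)⌉₊ ≤ x)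
    have l0 : 0 < Real.log x := Real.log_pos (by linarith)
    have h5 : K * x / Real.log x ^ 1 ≤ δ / 4 * x := by
      rw [pow_one, div_le_iff₀ l0]
      rw [div_le_iff₀ hδ0] at l1
      nlinarith
    have h6 : 4 / δ ≤ x := (Nat.le_ceil _).trans (by exact_mod_cast (by omega : ⌈4 / δ⌉₊ ≤ x))
    rw [div_le_iff₀ hδ0] at h6
    have h7 : (N : ℝ) ≤ (x + 1) * C := by
      rw [← hM]
      exact_mod_cast Nat.mul_le_mul_left _ (by omega : g ≤ C)
    have h8 : δ / (8 * C) * N ≤ δ / 8 * (x + 1) :=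
      (mul_le_mul_of_nonneg_left h7 (by positivity)).trans (le_of_eq (by field_simp))
    have h9 := hL x hx2
    push_cast
    nlinarith
  have hN0 : (0 : ℝ) ≤ N := Nat.cast_nonneg N
  refine ⟨?_, fun m h0 hm => ?_⟩
  · have := hO N 1 (mul_one N) (by omega)
    have h2 : δ * N ≤ β * N := mul_le_mul_of_nonneg_right (by nlinarith) hN0
    linarith
  · have := hD N 1 δ (NeZero.pos N) hO m h0 hm N 1 (mul_one N) le_rfl
    rwa [hδC] at this

end Pool.Agent.G42
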