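import Pool.Agent.MP_b5e119_nt.G42X.Defs
import Pool.Agent.MP_48b1c3_nt.H54.Sieve

namespace Pool.Agent.G42

open Finset Filter Topology Pool.Agent.G60
open Pool.Agent.G94 (Rough)

theorem svr_mert (j : ℕ) :
    ∑ q ∈ range (2 ^ j) with q.Prime, Real.log q / q ≤ 4 * j * Real.log 2 := by
  induction j with
  | zero => simp [filter_singleton, Nat.not_prime_zero]
  | succ j ih =>
    have hle : 2 ^ j ≤ 2 ^ (j + 1) := Nat.pow_le_pow_right two_pos (Nat.le_succ j)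
    rw [sum_filter] at ih ⊢
    rw [← sum_range_add_sum_Ico _ hle, ← sum_filter (s := Ico _ _)]
    have h1 : ∑ q ∈ Ico (2 ^ j : ℕ) (2 ^ (j + 1)) with q.Prime, Real.log (q : ℕ) / ((q : ℕ) : ℝ) ≤
        ∑ q ∈ Ico (2 ^ j : ℕ) (2 ^ (j + 1)) with q.Prime, Real.log (q : ℕ) / (2 : ℝ) ^ j := by
      refine sum_le_sum fun q hq => ?_
      have a : 2 ^ j ≤ q := (mem_Ico.1 (mem_filter.1 hq).1).1
      exact div_le_div_of_nonneg_left (Real.log_natCast_nonneg q) (by positivity)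
        (by exact_mod_cast a)
    have h2 : ∑ q ∈ Ico (2 ^ j : ℕ) (2 ^ (j + 1)) with q.Prime, Real.log (q : ℕ) ≤
        Chebyshev.theta ((2 ^ (j + 1) : ℕ) : ℝ) := by
      unfold Chebyshev.theta
      rw [Nat.floor_natCast]
      refine sum_le_sum_of_subset_of_nonneg (fun q hq => ?_) fun q _ _ => Real.log_natCast_nonneg q
      obtain ⟨a, b⟩ := mem_filter.1 hq
      exact mem_filter.2 ⟨mem_Ioc.2 ⟨b.pos, (mem_Ico.1 a).2.le⟩, b⟩
    have h3 := Chebyshev.theta_le_log4_mul_x (x := ((2 ^ (j + 1) : ℕ) : ℝ)) (Nat.cast_nonneg _)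
    have h4 : Real.log 4 = 2 * Real.log 2 := by
      rw [show (4 : ℝ) = 2 ^ 2 by norm_num, Real.log_pow]; norm_num
    rw [← sum_div] at h1
    have h5 : (∑ q ∈ Ico (2 ^ j : ℕ) (2 ^ (j + 1)) with q.Prime, Real.log (q : ℕ)) / (2 : ℝ) ^ j ≤
        4 * Real.log 2 := by
      rw [div_le_iff₀ (by positivity)]
      refine (h2.trans h3).trans (le_of_eq ?_)
      rw [h4]; push_cast; ring
    push_cast
    linarith

theorem svr_tel (n : ℕ) : 1 / ((n : ℝ) + 1) ≤ ∏ q ∈ range (n + 2) with q.Prime, (1 - 1 / (q : ℝ)) := by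
  induction n with
  | zero => simp [prod_filter, prod_range_succ, Nat.not_prime_zero, Nat.not_prime_one]
  | succ n ih =>
    rw [prod_filter] at ih ⊢
    rw [show n + 1 + 2 = n + 2 + 1 from rfl, prod_range_succ]
    have h0 : (0 : ℝ) ≤ n := n.cast_nonneg
    have h1 : (0 : ℝ) ≤ 1 / ((n : ℝ) + 1) := by positivity
    have h2 : ((n : ℝ) + 1) / (n + 2) ≤ if (n + 2).Prime then 1 - 1 / ((n + 2 : ℕ) : ℝ) else 1 := by
      split_ifs
      · push_cast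
        apply le_of_eq; field_simp; ring
      · rw [div_le_one (by positivity)]; linarith
    calc 1 / (((n + 1 : ℕ) : ℝ) + 1) = 1 / ((n : ℝ) + 1) * (((n : ℝ) + 1) / (n + 2)) := by
          push_cast; field_simp; ring
      _ ≤ _ := mul_le_mul ih h2 (by positivity) (h1.trans ih)

theorem svr_rem (m : ℕ) (S : Finset ℕ) (hS : ∀ q ∈ S, q.Prime) :
    |(#{d ∈ Ioc (2 ^ m) (2 ^ (m + 1)) | ∀ q ∈ S, q ∣ d} : ℝ) - 2 ^ m * ∏ q ∈ S, 1 / (q : ℝ)| ≤ 1 := by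
  obtain ⟨D, hD⟩ : ∃ D : ℕ, D = ∏ q ∈ S, q := ⟨_, rfl⟩
  have hD0 : 0 < D := hD ▸ prod_pos fun q hq => (hS q hq).pos
  have e1 : {d ∈ Ioc (2 ^ m) (2 ^ (m + 1)) | ∀ q ∈ S, q ∣ d} =
      {d ∈ Ioc 0 (2 ^ (m + 1)) | D ∣ d} \ {d ∈ Ioc 0 (2 ^ m) | D ∣ d} := by
    ext d
    have : (∀ q ∈ S, q ∣ d) ↔ D ∣ d := by
      rw [hD]
      exact ⟨fun h => Finset.prod_primes_dvd d (fun q hq => (hS q hq).prime) h,
        fun h q hq => (dvd_prod_of_mem _ hq).trans h⟩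
    have p0 : 0 < 2 ^ m := by positivity
    simp only [Finset.mem_sdiff, mem_filter, mem_Ioc, this]
    constructor
    · rintro ⟨⟨a, b⟩, c⟩; exact ⟨⟨⟨by omega, b⟩, c⟩, fun h => by omega⟩
    · rintro ⟨⟨⟨a, b⟩, c⟩, h⟩
      exact ⟨⟨by by_contra hh; exact h ⟨⟨a, by omega⟩, c⟩, b⟩, c⟩
  have hsub : {d ∈ Ioc 0 (2 ^ m) | D ∣ d} ⊆ {d ∈ Ioc 0 (2 ^ (m + 1)) | D ∣ d} :=
    filter_subset_filter _ (Ioc_subset_Ioc_right (Nat.pow_le_pow_right two_pos (Nat.le_succ m)))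
  rw [e1, cast_card_sdiff hsub, Nat.Ioc_filter_dvd_card_eq_div, Nat.Ioc_filter_dvd_card_eq_div]
  have e2 : ∏ q ∈ S, 1 / (q : ℝ) = 1 / (D : ℝ) := by
    rw [hD, prod_div_distrib, prod_const_one, Nat.cast_prod]
  have hD1 : (0 : ℝ) < D := by exact_mod_cast hD0
  have k : ∀ n : ℕ, ((n / D : ℕ) : ℝ) ≤ n / D ∧ (n : ℝ) / D < (n / D : ℕ) + 1 := fun n =>
    ⟨Nat.cast_div_le, by
      rw [div_lt_iff₀ hD1]
      have := Nat.lt_mul_div_succ n hD0
      have : (n : ℝ) < D * ((n / D : ℕ) + 1) := by exact_mod_cast this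
      linarith⟩
  have k1 := k (2 ^ m)
  have k2 := k (2 ^ (m + 1))
  have e3 : (((2 ^ (m + 1) : ℕ) : ℝ)) / D = 2 * (((2 ^ m : ℕ) : ℝ) / D) := by
    push_cast; ring
  have e4 : (2 : ℝ) ^ m * (1 / D) = ((2 ^ m : ℕ) : ℝ) / D := by push_cast; ring
  rw [e2, e4, abs_le]
  constructor <;> linarith [k1.1, k1.2, k2.1, k2.2]

theorem svr_cnt (P : Finset ℕ) (hP : ∀ q ∈ P, q.Prime) (T : Finset (Finset ℕ)) (K : ℕ)
    (hT : ∀ S ∈ T, S ⊆ P ∧ ∏ q ∈ S, q ≤ K) : ∑ S ∈ T, (64 : ℝ) ^ #S ≤ (K : ℝ) ^ 7 := by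
  have h1 : #T ≤ K := by
    have : #T ≤ #(Ioc 0 K) := by
      refine card_le_card_of_injOn (fun S => ∏ q ∈ S, q) (fun S hS => ?_) fun S hS S' hS' h => ?_
      · exact mem_coe.2 (mem_Ioc.2 ⟨prod_pos fun q hq => (hP q ((hT S hS).1 hq)).pos, (hT S hS).2⟩)
      · have a := Nat.primeFactors_prod (s := S) fun q hq => hP q ((hT S hS).1 hq)
        have b := Nat.primeFactors_prod (s := S') fun q hq => hP q ((hT S' hS').1 hq)
        simp only at h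
        rw [← a, ← b, h]
    simpa using this
  have h2 : ∀ S ∈ T, (64 : ℝ) ^ #S ≤ (K : ℝ) ^ 6 := by
    intro S hS
    have a : 2 ^ #S ≤ ∏ q ∈ S, q := pow_card_le_prod _ _ _ fun q hq => (hP q ((hT S hS).1 hq)).two_le
    have b : (2 : ℝ) ^ #S ≤ K := by exact_mod_cast a.trans (hT S hS).2
    calc (64 : ℝ) ^ #S = (2 ^ #S) ^ 6 := by
          rw [← pow_mul, mul_comm, pow_mul]; norm_num
      _ ≤ _ := pow_le_pow_left₀ (by positivity) b 6
  refine (sum_le_sum h2).trans ?_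
  rw [sum_const, nsmul_eq_mul, pow_succ' (K : ℝ) 6]
  exact mul_le_mul_of_nonneg_right (by exact_mod_cast h1) (by positivity)

theorem svr_row : SVR_s := by
  classical
  refine ⟨673, 16, by norm_num, fun w j₁ j₂ m hw h1 h2 hm => ?_⟩
  obtain ⟨P₁, hP₁⟩ : ∃ P₁ : Finset ℕ, P₁ = {q ∈ range (2 ^ w) | q.Prime} := ⟨_, rfl⟩
  obtain ⟨P₂, hP₂⟩ : ∃ P₂ : Finset ℕ, P₂ = {q ∈ Ico (2 ^ j₁) (2 ^ j₂) | q.Prime} := ⟨_, rfl⟩
  have l1 : 2 ^ w ≤ 2 ^ j₁ := Nat.pow_le_pow_right two_pos h1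
  have l2 : 2 ^ j₁ ≤ 2 ^ j₂ := Nat.pow_le_pow_right two_pos h2
  have hdis : Disjoint P₁ P₂ := by
    rw [disjoint_left, hP₁, hP₂]
    intro q a b
    have := mem_range.1 (mem_filter.1 a).1
    have := (mem_Ico.1 (mem_filter.1 b).1).1
    omega
  have hsub : P₁ ∪ P₂ ⊆ {q ∈ range (2 ^ j₂) | q.Prime} := by
    intro q hq
    rw [hP₁, hP₂] at hq
    simp only [mem_union, mem_filter, mem_range, mem_Ico] at hq ⊢
    rcases hq with h | h
    · exact ⟨by omega, h.2⟩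
    · exact ⟨h.1.2, h.2⟩
  have hpr : ∀ q ∈ P₁ ∪ P₂, q.Prime := fun q hq => (mem_filter.1 (hsub hq)).2
  have hj : (0 : ℝ) < j₂ := by exact_mod_cast (by omega : 0 < j₂)
  have hl2 : 0 < Real.log 2 := Real.log_pos one_lt_two
  have hL : 0 < 32 * j₂ * Real.log 2 := by positivity
  have hg : ∀ q ∈ P₁ ∪ P₂, 0 ≤ 1 / (q : ℝ) ∧ 1 / (q : ℝ) ≤ 1 / 2 := fun q hq =>
    ⟨by positivity, one_div_le_one_div_of_le two_pos (by exact_mod_cast (hpr q hq).two_le)⟩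
  have key := (Pool.Agent.MP_48b1c3_nt.H54.sieve (P₁ ∪ P₂) (fun q : ℕ => 1 / (q : ℝ))
    (fun q : ℕ => Real.log q / (32 * j₂ * Real.log 2)) (Ioc (2 ^ m) (2 ^ (m + 1))) (fun _ => (1 : ℝ))
    (fun q d => q ∣ d) (2 ^ m) (fun _ _ => zero_le_one) (by positivity) hg ?_ ?_
    (((2 ^ (96 * j₂) : ℕ) : ℝ) ^ 7) ?_).2
  · have V1 : ∏ q ∈ P₁ ∪ P₂, (1 - 1 / (q : ℝ)) = VZ w * ∏ q ∈ P₂, (1 - 1 / (q : ℝ)) := by
      rw [prod_union hdis, hP₁]; rfl
    have V0 : 0 ≤ VZ w := prod_nonneg fun q hq => by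
      have := hg q (mem_union_left _ (hP₁ ▸ hq)); linarith [this.2]
    have V2 : ∏ q ∈ P₂, (1 - 1 / (q : ℝ)) ≤ Real.exp (-∑ q ∈ P₂, 1 / (q : ℝ)) := by
      rw [← sum_neg_distrib, Real.exp_sum]
      refine prod_le_prod (fun q hq => ?_) fun q _ => ?_
      · have := hg q (mem_union_right _ hq); linarith [this.2]
      · linarith [Real.add_one_le_exp (-(1 / (q : ℝ)))]
    have V3 : 1 / (2 : ℝ) ^ j₂ ≤ ∏ q ∈ P₁ ∪ P₂, (1 - 1 / (q : ℝ)) := by
      have p2 : 2 ≤ 2 ^ j₂ := by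
        calc 2 = 2 ^ 1 := rfl
          _ ≤ 2 ^ j₂ := Nat.pow_le_pow_right two_pos (by omega)
      have t := svr_tel (2 ^ j₂ - 2)
      rw [Nat.sub_add_cancel p2] at t
      refine le_trans (le_trans ?_ t) (prod_le_prod_of_subset_of_le_one hsub (fun q hq => ?_)
        fun q _ _ => ?_)
      · refine one_div_le_one_div_of_le (by positivity) ?_
        rw [Nat.cast_sub p2]; push_cast; linarith
      · have a : (1 : ℝ) ≤ q := by exact_mod_cast (mem_filter.1 hq).2.pos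
        have := (div_le_one (by linarith : (0 : ℝ) < q)).2 a
        linarith
      · have : (0 : ℝ) ≤ 1 / q := by positivity
        linarith
    have V4 : ((2 ^ (96 * j₂) : ℕ) : ℝ) ^ 7 ≤ 2 ^ m * ∏ q ∈ P₁ ∪ P₂, (1 - 1 / (q : ℝ)) := by
      refine le_trans ?_ (mul_le_mul_of_nonneg_left V3 (by positivity))
      rw [mul_one_div, le_div_iff₀ (by positivity)]
      push_cast
      rw [← pow_mul, ← pow_add]
      exact pow_le_pow_right₀ one_le_two (by omega)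
    rw [← hP₂]
    have c1 : (#{d ∈ Ioc (2 ^ m) (2 ^ (m + 1)) | Rough (2 ^ w) d ∧
        ∀ q : ℕ, q.Prime → 2 ^ j₁ ≤ q → q < 2 ^ j₂ → ¬q ∣ d} : ℝ) ≤
        8 * (2 ^ m * ∏ q ∈ P₁ ∪ P₂, (1 - 1 / (q : ℝ)) + ((2 ^ (96 * j₂) : ℕ) : ℝ) ^ 7) := by
      refine le_trans ?_ key
      rw [sum_const, nsmul_eq_mul, mul_one]
      refine Nat.cast_le.2 (card_le_card fun d hd => ?_)
      obtain ⟨a, b, c⟩ := mem_filter.1 hd
      refine (@mem_filter _ _ (_) _ _).2 ⟨a, fun q hq hqd => ?_⟩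
      rw [hP₁, hP₂] at hq
      simp only [mem_union, mem_filter, mem_range, mem_Ico] at hq
      rcases hq with h | h
      · have := b q h.2 hqd
        omega
      · exact c q h.2 h.1.1 h.1.2 hqd
    have c2 : (2 : ℝ) ^ m * ∏ q ∈ P₁ ∪ P₂, (1 - 1 / (q : ℝ)) ≤
        2 ^ m * (VZ w * Real.exp (-∑ q ∈ P₂, 1 / (q : ℝ))) := by
      rw [V1]
      exact mul_le_mul_of_nonneg_left (mul_le_mul_of_nonneg_left V2 V0) (by positivity)
    linarith
  · intro q hq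
    refine ⟨div_nonneg (Real.log_natCast_nonneg q) hL.le, ?_⟩
    have a : q < 2 ^ j₂ := mem_range.1 (mem_filter.1 (hsub hq)).1
    have b : Real.log q ≤ j₂ * Real.log 2 := by
      rw [← Real.log_pow]
      exact Real.log_le_log (by exact_mod_cast (hpr q hq).pos) (by exact_mod_cast a.le)
    rw [div_le_iff₀ hL]
    have : 0 ≤ j₂ * Real.log 2 := by positivity
    linarith
  · have a : ∑ q ∈ P₁ ∪ P₂, Real.log q / (q : ℝ) ≤ 4 * j₂ * Real.log 2 :=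
      (sum_le_sum_of_subset_of_nonneg hsub fun q _ _ =>
        div_nonneg (Real.log_natCast_nonneg q) q.cast_nonneg).trans (svr_mert j₂)
    have b : ∑ q ∈ P₁ ∪ P₂, 1 / (q : ℝ) * (Real.log q / (32 * j₂ * Real.log 2)) =
        (∑ q ∈ P₁ ∪ P₂, Real.log q / (q : ℝ)) / (32 * j₂ * Real.log 2) := by
      rw [sum_div]
      exact sum_congr rfl fun q _ => by ring
    rw [b, div_le_iff₀ hL]
    linarith
  · refine le_trans (sum_le_sum fun S hS => ?_) (svr_cnt (P₁ ∪ P₂) hpr _ (2 ^ (96 * j₂)) ?_)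
    · have hs := mem_powerset.1 (mem_filter.1 hS).1
      refine mul_le_of_le_one_right (by positivity) ?_
      rw [sum_const, nsmul_eq_mul, mul_one]
      have := svr_rem m S fun q hq => hpr q (hs hq)
      refine le_trans (le_of_eq ?_) this
      congr
    · intro S hS
      obtain ⟨a, b⟩ := mem_filter.1 hS
      have hs := mem_powerset.1 a
      refine ⟨hs, ?_⟩
      rw [← sum_div, div_le_iff₀ hL] at b
      have c : Real.log ((∏ q ∈ S, q : ℕ) : ℝ) ≤ Real.log ((2 ^ (96 * j₂) : ℕ) : ℝ) := by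
        push_cast
        rw [Real.log_prod fun q hq => by exact_mod_cast (hpr q (hs hq)).ne_zero, Real.log_pow]
        push_cast
        linarith
      have d : (0 : ℝ) < ((∏ q ∈ S, q : ℕ) : ℝ) := by
        exact_mod_cast prod_pos fun q hq => (hpr q (hs hq)).pos
      exact_mod_cast (Real.log_le_log_iff d (by positivity)).1 c

end Pool.Agent.G42
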