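import Pool.Agent.MP_b5e119_nt.G42X.Defs

namespace Pool.Agent.G42

open Finset Filter Topology Pool.Agent.G60
open Pool.Agent.G94 (Rough)

/-- The reciprocal as a multiplicative map. -/
noncomputable def svv_f : ℕ →* ℝ := ⟨⟨fun n => (n : ℝ)⁻¹, by simp⟩, fun a b => by simp [mul_comm]⟩

theorem svv_fa (n : ℕ) : svv_f n = (n : ℝ)⁻¹ := rfl

theorem svv_sum (z : ℕ) (hz : 1 ≤ z) :
    ∑ n ∈ Icc 1 (z - 1), ((n : ℕ) : ℝ)⁻¹ ≤ ∏ p ∈ z.primesBelow, (1 - svv_f p)⁻¹ := by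
  classical
  have hf : ∀ {p : ℕ}, p.Prime → ‖svv_f p‖ < 1 := fun {p} hp => by
    have h1 : (1 : ℝ) < p := by exact_mod_cast hp.one_lt
    rw [svv_fa, norm_inv, Real.norm_natCast]
    exact inv_lt_one_of_one_lt₀ h1
  have h1 := (EulerProduct.summable_and_hasSum_smoothNumbers_prod_primesBelow_geometric hf z).2
  have h3 := sum_le_hasSum ((Icc 1 (z - 1)).subtype (· ∈ z.smoothNumbers))
    (fun n _ => by rw [svv_fa]; positivity) h1
  refine le_trans (le_of_eq ?_) h3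
  simp only [svv_fa]
  exact (sum_subtype_of_mem (fun n : ℕ => (n : ℝ)⁻¹) fun n hn => by
    obtain ⟨a, b⟩ := mem_Icc.1 hn
    exact Nat.mem_smoothNumbers_of_lt (by omega) (by omega)).symm

theorem svv_euler (z : ℕ) (hz : 1 ≤ z) :
    (∏ q ∈ range z with q.Prime, (1 - 1 / (q : ℝ))) * Real.log z ≤ 1 := by
  have h3 := svv_sum z hz
  have h5 := log_add_one_le_harmonic (z - 1)
  rw [Nat.sub_add_cancel hz, harmonic_eq_sum_Icc] at h5
  push_cast at h5
  have h6 : ∏ p ∈ z.primesBelow, (1 - svv_f p)⁻¹ =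
      (∏ q ∈ range z with q.Prime, (1 - 1 / (q : ℝ)))⁻¹ := by
    rw [← prod_inv_distrib, Nat.primesBelow]
    exact prod_congr rfl fun q _ => by rw [one_div, svv_fa]
  have h7 : 0 < ∏ q ∈ range z with q.Prime, (1 - 1 / (q : ℝ)) := prod_pos fun q hq => by
    have h1 : (1 : ℝ) < q := by exact_mod_cast (mem_filter.1 hq).2.one_lt
    rw [sub_pos, div_lt_one (by linarith)]
    exact h1
  rw [h6] at h3
  rw [← le_div_iff₀' h7, one_div]
  exact h5.trans h3

open Classical in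
theorem svv_row (hS : SVR_s) (hD : DYA_s) : SVV_s := by
  obtain ⟨s, C, hC, hS⟩ := hS
  obtain ⟨i₀, hD⟩ := hD
  have key : ∀ w m : ℕ, 1 ≤ w → s * w ≤ m →
      (#{d ∈ Ioc (2 ^ m) (2 ^ (m + 1)) | Rough (2 ^ w) d} : ℝ) ≤ C * 2 ^ m * VZ w := by
    intro w m hw hm
    have h := hS w w w m hw le_rfl le_rfl hm
    rw [Ico_self, filter_empty, sum_empty, neg_zero, Real.exp_zero, mul_one] at h
    refine le_trans ?_ h
    refine Nat.cast_le.2 (card_le_card fun d hd => ?_)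
    simp only [mem_filter] at hd ⊢
    exact ⟨hd.1, hd.2, fun q _ a b => absurd a (not_le.2 b)⟩
  refine ⟨s, 1 / (C * (s + i₀ + 2 : ℕ)), 14 * C, by positivity, by positivity, fun w hw => ⟨?_, ?_⟩⟩
  · set i := (s + i₀ + 2) * w with hi
    have h0 : s + i₀ + 2 ≤ i := Nat.le_mul_of_pos_right _ hw
    have hwi : w ≤ i := Nat.le_mul_of_pos_left _ (by omega)
    have h1 := key w i hw (Nat.mul_le_mul_right _ (by omega))
    have h2 := (hD i (by omega)).1
    have h3 : #{q ∈ Ico (2 ^ i) (2 ^ (i + 1)) | q.Prime} ≤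
        #{d ∈ Ioc (2 ^ i) (2 ^ (i + 1)) | Rough (2 ^ w) d} := card_le_card fun q hq => by
      obtain ⟨a, b⟩ := mem_filter.1 hq
      obtain ⟨a1, a2⟩ := mem_Ico.1 a
      refine mem_filter.2 ⟨mem_Ioc.2 ⟨lt_of_le_of_ne a1 fun h => ?_, a2.le⟩, fun r hr hd => ?_⟩
      · exact Nat.Prime.not_prime_pow (by omega : 2 ≤ i) (h ▸ b)
      · rw [(Nat.prime_dvd_prime_iff_eq hr b).1 hd]
        exact (Nat.pow_le_pow_right (by norm_num) hwi).trans a1
    have h4 : (2 : ℝ) ^ i ≤ i * #{d ∈ Ioc (2 ^ i) (2 ^ (i + 1)) | Rough (2 ^ w) d} := by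
      exact_mod_cast h2.trans (Nat.mul_le_mul_left _ h3)
    have h5 : (2 : ℝ) ^ i * 1 ≤ 2 ^ i * (i * C * VZ w) := by
      calc (2 : ℝ) ^ i * 1 ≤ i * (C * 2 ^ i * VZ w) := by
            rw [mul_one]; exact h4.trans (by gcongr)
        _ = _ := by ring
    have h6 := le_of_mul_le_mul_left h5 (by positivity)
    have hw0 : (0 : ℝ) < w := by exact_mod_cast hw
    rw [div_div, div_le_iff₀ (by positivity)]
    refine h6.trans (le_of_eq ?_)
    rw [hi]
    push_cast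
    ring
  · intro N i hi
    have hsub : WN N w i ⊆ {d ∈ Ioc (2 ^ i) (2 ^ (i + 1)) | Rough (2 ^ w) d} ∪
        ({d ∈ Ioc (2 ^ (i + 1)) (2 ^ (i + 1 + 1)) | Rough (2 ^ w) d} ∪
          {d ∈ Ioc (2 ^ (i + 2)) (2 ^ (i + 2 + 1)) | Rough (2 ^ w) d}) := fun d hd => by
      obtain ⟨a, b, -⟩ := mem_filter.1 hd
      obtain ⟨a1, a2⟩ := mem_Ioc.1 a
      simp only [mem_union, mem_filter, mem_Ioc, b, and_true]
      simp only [pow_succ] at a2 ⊢
      omega
    have h1 : (#(WN N w i) : ℝ) ≤ #{d ∈ Ioc (2 ^ i) (2 ^ (i + 1)) | Rough (2 ^ w) d} +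
        (#{d ∈ Ioc (2 ^ (i + 1)) (2 ^ (i + 1 + 1)) | Rough (2 ^ w) d} +
          #{d ∈ Ioc (2 ^ (i + 2)) (2 ^ (i + 2 + 1)) | Rough (2 ^ w) d}) := by
      exact_mod_cast (card_le_card hsub).trans ((card_union_le _ _).trans
        (Nat.add_le_add_left (card_union_le _ _) _))
    have k0 := key w i hw hi
    have k1 := key w (i + 1) hw (by omega)
    have k2 := key w (i + 2) hw (by omega)
    have h2 := svv_euler (2 ^ w) Nat.one_le_two_pow
    have hw0 : (0 : ℝ) < w := by exact_mod_cast hw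
    have h3 : VZ w * (w * Real.log 2) ≤ 1 := by
      rw [← Real.log_pow]
      exact_mod_cast h2
    have hV : 0 ≤ VZ w := prod_nonneg fun q hq => by
      have h1 : (1 : ℝ) < q := by exact_mod_cast (mem_filter.1 hq).2.one_lt
      rw [sub_nonneg, div_le_one (by linarith)]
      exact h1.le
    have hL := Real.log_two_gt_d9
    have h4 : VZ w * w ≤ 2 := by nlinarith [mul_nonneg hV hw0.le]
    have h5 : (#(WN N w i) : ℝ) ≤ 7 * (C * 2 ^ i) * VZ w := by
      rw [pow_succ (2 : ℝ)] at k1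
      rw [pow_succ (2 : ℝ), pow_succ (2 : ℝ)] at k2
      linarith
    rw [le_div_iff₀ hw0]
    calc (#(WN N w i) : ℝ) * w ≤ 7 * (C * 2 ^ i) * VZ w * w := by gcongr
      _ = 7 * (C * 2 ^ i) * (VZ w * w) := by ring
      _ ≤ 7 * (C * 2 ^ i) * 2 := by gcongr
      _ = 14 * C * 2 ^ i := by ring

end Pool.Agent.G42
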