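import Pool.Agent.MP_b5e119_nt.G42X.YDefs
import Pool.Agent.MP_b5e119_nt.G6X.REP

/-! The top of campaign h42x: one exceptional primitive character, of large conductor. -/

namespace Pool.Agent.G42

open Finset Pool.Agent.G60 DirichletCharacter
open Pool.Agent.G27 (re EX re_coe)

theorem inv_row (hO : ∀ i : Sg, @ODX_s i) (hS : ∀ i : Sg, @STRX_s i) :
    G6X.INV_s fun _ => True := by
  intro η ε hη hε
  have key : ∀ i : Sg, ∃ (c : ℝ) (N₀ : ℕ), 0 < c ∧ ∀ (N : ℕ) [NeZero N], N₀ ≤ N →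
      η * N ≤ N.totient → ∀ e : ℤ, (e = 1 ∨ e = -1) → (cnt N e (-i.s * e) : ℝ) ≤ c * N →
        ∃ (χ : Ch N) (σ : ℤ), χ ^ 2 = 1 ∧ χ ≠ 1 ∧ χ (-1) = (i.s : ℤ) ∧ (σ = 1 ∨ σ = -1) ∧
          (EX χ σ : ℝ) ≤ ε * N := fun i => by
    obtain ⟨y, β, hβ, N₀, hS⟩ := hS i η ε hη hε
    obtain ⟨c, hc, N₁, hO⟩ := hO i y β hβ
    refine ⟨c, N₀ + N₁, hc, fun N _ h0 hφ e he h => ?_⟩
    obtain ⟨χ, σ, a1, a2, a3, a4, a5⟩ := hS N (by omega) hφ (hO N (by omega) e he h)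
    refine ⟨χ, σ, a1, a2, ?_, a3, a4⟩
    rw [← a5, re_coe a1, Nat.cast_sub (NeZero.one_le (n := N)), ZMod.natCast_self, zero_sub,
      Nat.cast_one]
  obtain ⟨c, N₀, hc, h⟩ := key ⟨1, Or.inl rfl⟩
  obtain ⟨c', N₁, hc', h'⟩ := key ⟨-1, Or.inr rfl⟩
  refine ⟨min c c', N₀ + N₁, lt_min hc hc', fun N _ h0 _ hφ e e' he he' hq => ?_⟩
  have p1 := hq.le.trans (mul_le_mul_of_nonneg_right (min_le_left c c') (Nat.cast_nonneg N))
  have p2 := hq.le.trans (mul_le_mul_of_nonneg_right (min_le_right c c') (Nat.cast_nonneg N))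
  rcases he with rfl | rfl <;> rcases he' with rfl | rfl
  · simpa using h' N (by omega) hφ 1 (Or.inl rfl) (by simpa using p2)
  · simpa using h N (by omega) hφ 1 (Or.inl rfl) (by simpa using p1)
  · simpa using h N (by omega) hφ (-1) (Or.inr rfl) (by simpa using p1)
  · simpa using h' N (by omega) hφ (-1) (Or.inr rfl) (by simpa using p2)

theorem topl_row (hR : G6X.REPN_s) (hM : MON_s) (hI : G6X.INV_s fun _ => True) (hS : SMC_s) :
    TOPL_s := by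
  intro η hη
  obtain ⟨ε, hε, N₁, hR⟩ := hR η hη
  obtain ⟨δ, hδ, hS⟩ := hS η hη
  obtain ⟨c, N₂, hc, hI⟩ := hI η (min ε δ) hη (lt_min hε hδ)
  refine ⟨c, hc, fun A => ?_⟩
  obtain ⟨N₃, hS⟩ := hS A
  refine ⟨N₁ + N₂ + N₃ + 1, fun X hX => ?_⟩
  have key : ∀ M N : ℕ, X ≤ M → η * M ≤ M.totient → 0 < N → M ∣ N →
      ∀ e e' : ℤ, (e = 1 ∨ e = -1) → (e' = 1 ∨ e' = -1) → (cnt N e e' : ℝ) < c * M →
        ∃ (χ : Ch M) (σ : ℤ), χ ^ 2 = 1 ∧ χ ≠ 1 ∧ χ (-1) = -(e * e' : ℤ) ∧ (σ = 1 ∨ σ = -1) ∧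
          (EX χ σ : ℝ) ≤ min ε δ * M := by
    rintro M N h1 h3 h4 ⟨d, rfl⟩ e e' he he' h
    have : NeZero M := ⟨by omega⟩
    have hl := lam_cases d
    have hm := hM M d (lam d * e) (lam d * e') (Nat.pos_of_mul_pos_left h4)
    have hs : ∀ x : ℤ, lam d * (lam d * x) = x := fun x => by
      rcases hl with a | a <;> rw [a] <;> ring
    rw [hs, hs] at hm
    have := hI M (by omega) trivial h3 (lam d * e) (lam d * e')
      (by rcases hl with a | a <;> rcases he with b | b <;> rw [a, b] <;> norm_num)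
      (by rcases hl with a | a <;> rcases he' with b | b <;> rw [a, b] <;> norm_num)
      (lt_of_le_of_lt (by exact_mod_cast hm) h)
    rwa [mul_mul_mul_comm, mul_assoc, hs] at this
  have m1 : ∀ M : ℕ, min ε δ * M ≤ ε * M := fun M =>
    mul_le_mul_of_nonneg_right (min_le_left ε δ) (Nat.cast_nonneg M)
  have m2 : ∀ M : ℕ, min ε δ * M ≤ δ * M := fun M =>
    mul_le_mul_of_nonneg_right (min_le_right ε δ) (Nat.cast_nonneg M)
  by_cases hex : ∃ (M : ℕ) (χ : Ch M) (σ : ℤ), X ≤ M ∧ M ≤ X ^ 2 ∧ η * M ≤ M.totient ∧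
      χ ^ 2 = 1 ∧ χ ≠ 1 ∧ (σ = 1 ∨ σ = -1) ∧ (EX χ σ : ℝ) ≤ min ε δ * M
  · obtain ⟨M₀, χ₀, σ₀, a1, a2, a3, a4, a5, a6, a7⟩ := hex
    have : NeZero M₀ := ⟨by omega⟩
    obtain ⟨p1, p2, p3⟩ := G6X.page_prim a4 a5
    have : NeZero χ₀.conductor := ⟨by omega⟩
    have p4 : χ₀.primitiveCharacter ≠ 1 := fun e => a5 (by
      rw [← changeLevel_primitiveCharacter χ₀, e, map_one])
    have p5 := hS M₀ (by omega) a3 χ₀ _ χ₀.primitiveCharacter σ₀ a4 p3 p4 (fun n hn => by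
      have := χ₀.primitiveCharacter_apply_of_isCoprime (a := (n : ℤ))
        (Nat.isCoprime_iff_coprime.2 hn)
      rw [Int.cast_natCast, Int.cast_natCast] at this
      exact this.symm) a6 (a7.trans (m2 M₀))
    have p6 : Real.log X ^ A ≤ χ₀.conductor :=
      (pow_le_pow_left₀ (Real.log_natCast_nonneg X) (Real.log_le_log
        (Nat.cast_pos.2 (by omega)) (Nat.cast_le.2 a1)) A).trans p5
    refine ⟨_, χ₀.primitiveCharacter, p2, p3,
      fun M N h1 h2 h4 h5 h6 e e' he he' h => ⟨p6, ?_⟩⟩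
    obtain ⟨χ, σ, b1, -, b3, b4, b5⟩ := key M N h1 h4 h5 h6 e e' he he' h
    have : NeZero M := ⟨by omega⟩
    rw [← b3]
    rcases le_total M₀ M with hle | hle
    · exact G6X.page_eq (hR M₀ M χ₀ χ σ₀ σ (by omega) hle
        (h2.trans (Nat.pow_le_pow_left a1 2)) a3 h4 a4 b1 a6 b4 (a7.trans (m1 M₀))
        (b5.trans (m1 M)))
    · exact G6X.page_eq (hR M M₀ χ χ₀ σ σ₀ (by omega) hle
        (a2.trans (Nat.pow_le_pow_left h1 2)) h4 a3 b1 a4 b4 a6 (b5.trans (m1 M))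
        (a7.trans (m1 M₀))).symm
  · obtain ⟨χ₀, a4, a5⟩ := G6X.page_ex
    obtain ⟨-, p2, p3⟩ := G6X.page_prim a4 a5
    refine ⟨_, χ₀.primitiveCharacter, p2, p3, fun M N h1 h2 h4 h5 h6 e e' he he' h => ?_⟩
    obtain ⟨χ, σ, b1, b2, -, b4, b5⟩ := key M N h1 h4 h5 h6 e e' he he' h
    exact absurd ⟨M, χ, σ, h1, h2, h4, b1, b2, b4, b5⟩ hex

end Pool.Agent.G42
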