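import Pool.Agent.MP_b5e119_nt.G27.Main
import Pool.Agent.MP_b5e119_nt.G94.DYP
import Pool.Agent.MP_b5e119_nt.G94.RG
import Pool.Agent.MP_b5e119_nt.G74.SMC
import Pool.Agent.MP_b5e119_nt.G42X.CHC
import Pool.Agent.MP_b5e119_nt.G42X.CHD
import Pool.Agent.MP_b5e119_nt.G42X.CNU
import Pool.Agent.MP_b5e119_nt.G42X.CONX
import Pool.Agent.MP_b5e119_nt.G42X.ENDX
import Pool.Agent.MP_b5e119_nt.G42X.FEWX
import Pool.Agent.MP_b5e119_nt.G42X.KEYX
import Pool.Agent.MP_b5e119_nt.G42X.ODX
import Pool.Agent.MP_b5e119_nt.G42X.STRX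
import Pool.Agent.MP_b5e119_nt.G42X.SVL
import Pool.Agent.MP_b5e119_nt.G42X.SVR
import Pool.Agent.MP_b5e119_nt.G42X.SVV
import Pool.Agent.MP_b5e119_nt.G42X.TOPL
import Pool.Agent.MP_b5e119_nt.G42X.TYPX

/-! Assembly of the form for moduli with many units. -/

namespace Pool.Agent.G42

open Pool.Agent.G60

theorem cnu : CNU_s := cnu_row dya_row

theorem keyx : KEYX_s := keyx_row svr_row (svv_row svr_row dya_row) svl_row chc_row chd_row cnu G27.pv

theorem endx : ENDX_s :=
  endx_row keyx (typx_row G27.parg_row (G27.locg_row G27.pv) G27.uni_row G27.tau_row G94.rg_row cnu)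
    G27.mug

theorem strx [Sg] : STRX_s := strx_row (conx_row fewx endx G27.mug lrx blk_row)

theorem odx [Sg] : ODX_s :=
  odx_row (lio_row sq_row hyp_row lio1_row) mon_row G27.odg_row
    (G27.dirg_row G27.pull_row G27.trg_row G27.far_row)

theorem topl : TOPL_s :=
  topl_row (G6X.repn_row G94.dyp_row G27.tau_row G27.uni_row G27.burgg) mon_row
    (inv_row (fun i => @odx i) fun i => @strx i)
    (smc_row G94.dyp_row G94.rg_row G27.tau_row G27.uni_row)

end Pool.Agent.G42
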