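import Pool.Agent.MP_b5e119_nt.G42X.Defs

/-! Row PAIRX of campaign h42x: counting products of a prime and a cofactor prime to `N`. -/

namespace Pool.Agent.G42

open Finset

theorem pairx_omega (u p a b : ℕ) (hu : 0 < u) (hp : u ≤ p) :
    a * ∑ j ∈ Ico a b, #{q ∈ PB j | q ∣ u} ≤ Nat.log 2 p := by
  have hd : ((Ico a b : Finset ℕ) : Set ℕ).PairwiseDisjoint (fun j => {q ∈ PB j | q ∣ u}) := by
    intro i _ j _ hij
    rw [Function.onFun, Finset.disjoint_left]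
    intro q hi hj
    simp only [PB, mem_filter, mem_Ico] at hi hj
    have h1 : i < j + 1 := (Nat.pow_lt_pow_iff_right (by norm_num : 1 < 2)).1
      (lt_of_le_of_lt hi.1.1.1 hj.1.1.2)
    have h2 : j < i + 1 := (Nat.pow_lt_pow_iff_right (by norm_num : 1 < 2)).1
      (lt_of_le_of_lt hj.1.1.1 hi.1.1.2)
    omega
  rw [← Finset.card_biUnion hd]
  generalize hS : (Ico a b).biUnion (fun j => {q ∈ PB j | q ∣ u}) = S
  have hq : ∀ q ∈ S, q ∈ u.primeFactors ∧ 2 ^ a ≤ q := by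
    intro q hq
    rw [← hS, Finset.mem_biUnion] at hq
    obtain ⟨j, hj, hq⟩ := hq
    simp only [PB, mem_filter, mem_Ico] at hj hq
    exact ⟨Nat.mem_primeFactors.2 ⟨hq.1.2, hq.2, hu.ne'⟩,
      le_trans (Nat.pow_le_pow_right (by norm_num) hj.1) hq.1.1.1⟩
  have h1 : (2 ^ a) ^ #S ≤ ∏ q ∈ S, q := Finset.pow_card_le_prod S _ _ fun q h => (hq q h).2
  have h2 : ∏ q ∈ S, q ∣ u :=
    (Finset.prod_dvd_prod_of_subset S u.primeFactors _ fun q h => (hq q h).1).trans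
      (Nat.prod_primeFactors_dvd u)
  rw [← pow_mul] at h1
  exact Nat.le_log_of_pow_le (by norm_num) (h1.trans ((Nat.le_of_dvd hu h2).trans hp))

theorem pairx_le (p k j q c : ℕ) (hq : q ∈ PB j) (hc : c ≤ YY p (k + j + 1)) : q * c ≤ YY p k := by
  simp only [PB, mem_filter, mem_Ico] at hq
  unfold YY at hc ⊢
  rw [Nat.le_div_iff_mul_le (by positivity)] at hc ⊢
  calc q * c * 2 ^ k ≤ 2 ^ (j + 1) * c * 2 ^ k :=
        Nat.mul_le_mul_right _ (Nat.mul_le_mul_right _ hq.1.2.le)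
    _ = c * 2 ^ (k + j + 1) := by ring
    _ ≤ p - 1 := hc

theorem pairx_inj (G : ℕ → ℤ) (N k j : ℕ) (τ : ℤ) (hG : CU G N) :
    #{z ∈ PN N j ×ˢ UY N (k + j + 1) | G z.1 * G z.2 ≠ τ} ≤
      ∑ u ∈ {u ∈ UY N k | G u ≠ τ}, #{q ∈ PB j | q ∣ u} := by
  rw [← Finset.card_sigma]
  refine Finset.card_le_card_of_injOn (fun z => (⟨z.1 * z.2, z.1⟩ : Σ _ : ℕ, ℕ)) ?_ ?_
  · intro z hz
    rw [Finset.mem_coe, Finset.mem_filter, Finset.mem_product] at hz
    have hq := Finset.mem_filter.1 hz.1.1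
    have hc := Finset.mem_filter.1 hz.1.2
    have hc' := Finset.mem_Icc.1 hc.1
    have hp : z.1.Prime := (Finset.mem_filter.1 hq.1).2
    have h0 : 0 < z.1 := hp.pos
    have h1 : z.1 * z.2 ≤ YY N k := pairx_le N k j z.1 z.2 hq.1 hc'.2
    have h2 : 0 < z.1 * z.2 := Nat.mul_pos h0 hc'.1
    have h3 : YY N k ≤ N - 1 := Nat.div_le_self _ _
    have h4 : G (z.1 * z.2) = G z.1 * G z.2 := hG.2 _ _ h0 hc'.1 (by omega)
    have h5 : (z.1 * z.2).Coprime N :=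
      Nat.Coprime.mul_left ((Nat.Prime.coprime_iff_not_dvd hp).2 hq.2) hc.2
    rw [Finset.mem_coe, Finset.mem_sigma]
    refine ⟨Finset.mem_filter.2 ⟨Finset.mem_filter.2 ⟨Finset.mem_Icc.2 ⟨h2, h1⟩, h5⟩, ?_⟩,
      Finset.mem_filter.2 ⟨hq.1, Dvd.intro _ rfl⟩⟩
    show G (z.1 * z.2) ≠ τ
    rw [h4]
    exact hz.2
  · intro z hz w _ h
    rw [Finset.mem_coe, Finset.mem_filter, Finset.mem_product] at hz
    have h0 : 0 < z.1 := (Finset.mem_filter.1 (Finset.mem_filter.1 hz.1.1).1).2.pos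
    have h1 : z.1 * z.2 = w.1 * w.2 := congrArg (fun x : Σ _ : ℕ, ℕ => x.1) h
    have h2 : z.1 = w.1 := congrArg (fun x : Σ _ : ℕ, ℕ => x.2) h
    rw [← h2] at h1
    exact Prod.ext h2 (Nat.eq_of_mul_eq_mul_left h0 h1)

theorem pairx_row : PAIRX_s := by
  intro G N a b k τ hG
  calc a * ∑ j ∈ Ico a b, #{z ∈ PN N j ×ˢ UY N (k + j + 1) | G z.1 * G z.2 ≠ τ}
      ≤ a * ∑ j ∈ Ico a b, ∑ u ∈ {u ∈ UY N k | G u ≠ τ}, #{q ∈ PB j | q ∣ u} :=
        Nat.mul_le_mul_left _ (Finset.sum_le_sum fun j _ => pairx_inj G N k j τ hG)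
    _ = ∑ u ∈ {u ∈ UY N k | G u ≠ τ}, a * ∑ j ∈ Ico a b, #{q ∈ PB j | q ∣ u} := by
        rw [Finset.sum_comm, Finset.mul_sum]
    _ ≤ ∑ _u ∈ {u ∈ UY N k | G u ≠ τ}, Nat.log 2 N := by
        refine Finset.sum_le_sum fun u hu => ?_
        have hu' := Finset.mem_Icc.1 (Finset.mem_filter.1 (Finset.mem_filter.1 hu).1).1
        have h3 : YY N k ≤ N - 1 := Nat.div_le_self _ _
        exact pairx_omega u N a b hu'.1 (by omega)
    _ = _ := by rw [Finset.sum_const, smul_eq_mul, Nat.mul_comm]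

end Pool.Agent.G42
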