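import Pool.Agent.MP_b5e119_nt.G42X.Defs

namespace Pool.Agent.G42

open Finset Filter Topology Pool.Agent.G60

theorem scax_fib (hM : MAJ_s) (G : ℕ → ℤ) (σ : ℤ) (hσ : σ = 1 ∨ σ = -1) (s t : Finset ℕ)
    (hs : ∀ n ∈ s, G n = 1 ∨ G n = -1) (ht : ∀ n ∈ t, G n = 1 ∨ G n = -1) :
    #s * #{n ∈ t | G n ≠ mj t G} ≤ #{z ∈ s ×ˢ t | G z.1 * G z.2 ≠ σ} ∧
      #t * #{n ∈ s | G n ≠ mj s G} ≤ #{z ∈ s ×ˢ t | G z.1 * G z.2 ≠ σ} := by
  have k : ∀ x y : ℤ, (x = 1 ∨ x = -1) → (y = 1 ∨ y = -1) → y ≠ σ * x → x * y ≠ σ := by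
    rintro x y (rfl | rfl) (rfl | rfl) <;> rcases hσ with rfl | rfl <;> simp
  constructor
  · rw [card_filter (fun z : ℕ × ℕ => G z.1 * G z.2 ≠ σ), sum_product, ← smul_eq_mul]
    refine card_nsmul_le_sum _ _ _ fun q hq => ?_
    rw [← card_filter]
    exact (((hM t G).2 ht).2 (σ * G q)).trans (card_le_card fun n hn => mem_filter.2
      ⟨(mem_filter.1 hn).1, k _ _ (hs q hq) (ht n (mem_filter.1 hn).1) (mem_filter.1 hn).2⟩)
  · rw [card_filter (fun z : ℕ × ℕ => G z.1 * G z.2 ≠ σ), sum_product_right, ← smul_eq_mul]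
    refine card_nsmul_le_sum _ _ _ fun q hq => ?_
    rw [← card_filter]
    exact (((hM s G).2 hs).2 (σ * G q)).trans (card_le_card fun n hn => mem_filter.2
      ⟨(mem_filter.1 hn).1, mul_comm (G q) (G n) ▸
        k _ _ (ht q hq) (hs n (mem_filter.1 hn).1) (mem_filter.1 hn).2⟩)

theorem scax_lev (hM : MAJ_s) (G : ℕ → ℤ) (p j l : ℕ) (σ : ℤ) (ε : ℝ) (hε : 0 < ε)
    (hσ : σ = 1 ∨ σ = -1) (hG : CU G p)
    (h1 : 2 ^ (j + 2) ≤ p) (h2 : 2 ^ j ≤ j * #(PB j)) (h3 : j ≤ l)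
    (h4 : ε / 2 * YY p (j + 1) ≤ #(UY p (j + 1))) (h5 : #(PB j) ≤ 2 * #(PN p j)) :
    eu G p (j + 1) ≤ (16 + 16 / ε) * l / p *
        #{z ∈ PN p j ×ˢ UY p (0 + j + 1) | G z.1 * G z.2 ≠ σ} ∧
      du G p j ≤ (16 + 16 / ε) * l / p *
        #{z ∈ PN p j ×ˢ UY p (0 + j + 1) | G z.1 * G z.2 ≠ σ} := by
  rw [zero_add]
  have p0 : 0 < 2 ^ j := by positivity
  have y1 : YY p (j + 1) ≤ p - 1 := Nat.div_le_self _ _
  have y2 : p - 1 < YY p (j + 1) * 2 ^ (j + 1) + 2 ^ (j + 1) := Nat.lt_div_mul_add (by positivity)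
  have e1 : 2 ^ (j + 1) = 2 * 2 ^ j := by ring
  have e2 : 2 ^ (j + 2) = 4 * 2 ^ j := by ring
  have y3 : 0 < YY p (j + 1) := Nat.div_pos (by omega) (by positivity)
  obtain ⟨f1, f2⟩ := scax_fib hM G σ hσ (PN p j) (UY p (j + 1)) (fun n hn => by
    have h := mem_filter.1 (mem_filter.1 hn).1
    have := mem_Ico.1 h.1
    exact hG.1 n (by omega) (by omega) (h.2.coprime_iff_not_dvd.2 (mem_filter.1 hn).2))
    fun n hn => by
    have := mem_Icc.1 (mem_filter.1 hn).1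
    exact hG.1 n (by omega) (by omega) (mem_filter.1 hn).2
  have n0 : 0 < #(PB j) := Nat.pos_of_mul_pos_left (p0.trans_le h2)
  have y4 : p ≤ 8 * l * (#(PB j) * YY p (j + 1)) := by
    have a1 : p ≤ 4 * YY p (j + 1) * 2 ^ j := by
      rw [e1] at y2
      have : p ≤ p - 1 + 1 := by omega
      nlinarith
    have a2 : 2 ^ j ≤ l * #(PB j) := h2.trans (Nat.mul_le_mul_right _ h3)
    calc p ≤ 4 * YY p (j + 1) * (l * #(PB j)) := a1.trans (Nat.mul_le_mul_left _ a2)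
      _ ≤ _ := by nlinarith [Nat.zero_le (l * (#(PB j) * YY p (j + 1)))]
  unfold eu du TU tu
  generalize #{z ∈ PN p j ×ˢ UY p (j + 1) | G z.1 * G z.2 ≠ σ} = B at f1 f2
  generalize #{n ∈ UY p (j + 1) | G n ≠ mj (UY p (j + 1)) G} = E at f1
  generalize #{n ∈ PN p j | G n ≠ mj (PN p j) G} = D at f2
  generalize #(UY p (j + 1)) = U at f2 h4
  generalize #(PN p j) = N at f1 h5
  generalize #(PB j) = M at n0 y4 h5
  generalize YY p (j + 1) = Y at y3 y4 h4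
  have q0 : 0 < p := by omega
  rw [div_mul_eq_mul_div, div_le_div_iff₀ (by positivity) (by positivity),
    div_le_div_iff₀ (by positivity) (by positivity)]
  have g1 : E * p ≤ 16 * l * B * Y :=
    calc E * p ≤ E * (8 * l * (M * Y)) := Nat.mul_le_mul_left _ y4
      _ ≤ E * (8 * l * (2 * N * Y)) := by gcongr
      _ = 16 * l * (N * E) * Y := by ring
      _ ≤ _ := by gcongr
  have g0 : (Y : ℝ) ≤ 2 / ε * U := by
    rw [div_mul_eq_mul_div, le_div_iff₀ hε]; linarith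
  have g3 : (p : ℝ) ≤ 8 * l * (M * Y) := by exact_mod_cast y4
  have g4 : (U : ℝ) * D ≤ B := by exact_mod_cast f2
  have g5 : 0 < 16 / ε := by positivity
  constructor
  · calc (E : ℝ) * p ≤ 16 * l * B * Y := by exact_mod_cast g1
      _ ≤ _ := by gcongr; linarith
  · calc (D : ℝ) * p ≤ D * (8 * l * (M * (2 / ε * U))) := by
          gcongr; exact g3.trans (by gcongr)
      _ = 16 / ε * l * (U * D) * M := by ring
      _ ≤ _ := by gcongr; linarith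

theorem scax_row (hD : DYA_s) (hM : MAJ_s) (hP : PAIRX_s) (hS : SIZ_s) : SCAX_s := by
  intro ε hε0
  obtain ⟨i₀, hD⟩ := hD
  obtain ⟨N₁, hS⟩ := hS ε hε0
  have k0 : 0 < 16 + 16 / ε := by positivity
  refine ⟨(16 + 16 / ε) * 320000, max N₁ (2 ^ (200 * (i₀ + 2))), by positivity,
    fun G p σ δ hp hφ hG hσ hε => ?_⟩
  obtain ⟨s1, s2⟩ := hS p ((le_max_left _ _).trans hp) hφ
  replace hp := (le_max_right _ _).trans hp
  have p0 : 0 < p := lt_of_lt_of_le (by positivity) hp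
  have l1 : 200 * (i₀ + 2) ≤ Nat.log 2 p := Nat.le_log_of_pow_le one_lt_two hp
  have l2 : 2 ^ Nat.log 2 p ≤ p := Nat.pow_log_le_self 2 p0.ne'
  obtain ⟨b, hb⟩ : ∃ b, aa p = b + 1 := ⟨aa p - 1, by unfold aa; omega⟩
  have b1 : i₀ + 1 ≤ b ∧ 200 * (b + 1) ≤ Nat.log 2 p ∧ Nat.log 2 p ≤ 400 * (b + 1) := by
    unfold aa at hb; omega
  have h1 := hP G p b (87 * (b + 1)) 0 σ hG
  have h2 := fun j (hj : j ∈ Ico b (87 * (b + 1))) => scax_lev hM G p j (Nat.log 2 p) σ ε hε0 hσ hG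
    ((Nat.pow_le_pow_right two_pos (by have := mem_Ico.1 hj; omega)).trans l2)
    (hD j (by have := mem_Ico.1 hj; omega)).1 (by have := mem_Ico.1 hj; omega)
    (s1 _ (by have := mem_Ico.1 hj; omega)) (s2 _ (by have := mem_Ico.1 hj; omega))
  rw [hb]
  generalize Nat.log 2 p = l at b1 h1 h2
  generalize 16 + 16 / ε = K at k0 h2
  have q0 : (0 : ℝ) < p := by exact_mod_cast p0
  have e0 : 0 ≤ δ := by
    by_contra h
    nlinarith [(Nat.cast_nonneg _ : (0 : ℝ) ≤ #{u ∈ UY p 0 | G u ≠ σ})]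
  have h3 : ∑ j ∈ Ico b (87 * (b + 1)), K * (l : ℝ) / p *
      #{z ∈ PN p j ×ˢ UY p (0 + j + 1) | G z.1 * G z.2 ≠ σ} ≤
        K * 320000 * δ * (b + 1 : ℕ) := by
    rw [← mul_sum, ← Nat.cast_sum]
    generalize ∑ j ∈ Ico b (87 * (b + 1)),
      #{z ∈ PN p j ×ˢ UY p (0 + j + 1) | G z.1 * G z.2 ≠ σ} = S at h1
    have c1 : (b : ℝ) * S ≤ l * (δ * p) :=
      le_trans (by exact_mod_cast h1) (mul_le_mul_of_nonneg_left hε (Nat.cast_nonneg l))
    have c2 : (l : ℝ) ≤ 400 * (b + 1) := by exact_mod_cast b1.2.2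
    have c3 : (1 : ℝ) ≤ b := by exact_mod_cast (by omega : 1 ≤ b)
    have c4 : (S : ℝ) ≤ 800 * (δ * p) := by
      refine le_of_mul_le_mul_left (c1.trans ?_) (by positivity : (0 : ℝ) < b)
      rw [← mul_assoc (b : ℝ)]
      exact mul_le_mul_of_nonneg_right (by linarith) (by positivity)
    rw [div_mul_eq_mul_div, div_le_iff₀ q0]
    push_cast
    calc K * (l : ℝ) * S ≤ K * (400 * (b + 1)) * (800 * (δ * p)) := by gcongr
      _ = _ := by ring
  refine ⟨le_trans ?_ ((sum_le_sum fun j hj => (h2 j hj).1).trans h3),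
    le_trans ?_ ((sum_le_sum fun j hj => (h2 j hj).2).trans h3)⟩
  · rw [sum_Ico_add' (fun k => eu G p k) b (87 * (b + 1)) 1]
    exact sum_le_sum_of_subset_of_nonneg (Ico_subset_Ico le_rfl (by omega)) fun _ _ _ => by
      unfold eu; positivity
  · exact sum_le_sum_of_subset_of_nonneg (Ico_subset_Ico (by omega) le_rfl) fun _ _ _ => by
      unfold du; positivity

end Pool.Agent.G42
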