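import Pool.Agent.MP_b5e119_nt.G42X.Defs

namespace Pool.Agent.G42

open Finset Filter Topology Pool.Agent.G60

theorem scbx_pos (p m : ℕ) (hp : 0 < p) (hm : m + 1 ≤ Nat.log 2 p) : 2 ^ m ≤ p - 1 := by
  have h1 : 2 ^ Nat.log 2 p ≤ p := Nat.pow_log_le_self 2 (by omega)
  have h2 : 2 ^ (m + 1) ≤ 2 ^ Nat.log 2 p := Nat.pow_le_pow_right (by norm_num) hm
  have h3 : 0 < 2 ^ m := by positivity
  rw [pow_succ] at h2
  omega

theorem scbx_sign (G : ℕ → ℤ) (p m : ℕ) (hG : CU G p) :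
    ∀ n ∈ UY p m, G n = 1 ∨ G n = -1 := by
  intro n hn
  obtain ⟨h0, h4⟩ := mem_filter.1 hn
  obtain ⟨h1, h2⟩ := mem_Icc.1 h0
  have h3 : YY p m ≤ p - 1 := Nat.div_le_self _ _
  exact hG.1 n h1 (by omega) h4

theorem scbx_row (hDYA : DYA_s) (hMAJ : MAJ_s) (hPAIR : PAIRX_s) (hSIZ : SIZ_s) : SCBX_s := by
  intro ε hε
  obtain ⟨i₀, hD⟩ := hDYA
  obtain ⟨N₁, hS⟩ := hSIZ ε hε
  refine ⟨10240000 / ε, max N₁ (2 ^ (200 * (i₀ + 1))), by positivity,
    fun G p k hp' he hG hk => ?_⟩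
  have hp : 2 ^ (200 * (i₀ + 1)) ≤ p := (le_max_right _ _).trans hp'
  obtain ⟨hS1, hS2⟩ := hS p ((le_max_left _ _).trans hp') he
  have hl : 200 * (i₀ + 1) ≤ Nat.log 2 p := Nat.le_log_of_pow_le (by norm_num) hp
  have hp0 : 0 < p := lt_of_lt_of_le (by positivity) hp
  have ha : aa p = Nat.log 2 p / 200 := rfl
  have hYpos : ∀ m, m + 1 ≤ Nat.log 2 p → 0 < YY p m := fun m hm =>
    Nat.div_pos (scbx_pos p m hp0 hm) (by positivity)
  have hYdiv : ∀ j, YY p (k + j) = YY p k / 2 ^ j := fun j => by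
    unfold YY; rw [Nat.div_div_eq_div_mul, pow_add]
  have hmaj : ∀ m, m ≤ 175 * aa p →
      ε * YY p m ≤ 4 * #{n ∈ UY p m | G n = TU G p m} := fun m hm => by
    have h1 : #(UY p m) ≤ 2 * #{n ∈ UY p m | G n = TU G p m} :=
      ((hMAJ (UY p m) G).2 (scbx_sign G p m hG)).1
    have h2 : (#(UY p m) : ℝ) ≤ 2 * #{n ∈ UY p m | G n = TU G p m} := by exact_mod_cast h1
    have h3 := hS1 m hm
    linarith
  have hY0 : 0 < YY p k := hYpos k (by omega)
  have hY0' : (0 : ℝ) < YY p k := by exact_mod_cast hY0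
  set E : ℕ := #{u ∈ UY p k | G u ≠ TU G p k} with hE
  have hee : eu G p k = (E : ℝ) / YY p k := rfl
  have hE0 : (0 : ℝ) ≤ E := Nat.cast_nonneg _
  constructor
  · intro hne
    have h1 := hmaj (k + 1) (by omega)
    have h2 : #{n ∈ UY p (k + 1) | G n = TU G p (k + 1)} ≤ E := by
      refine card_le_card fun n hn => ?_
      obtain ⟨a1, a2⟩ := mem_filter.1 hn
      obtain ⟨a0, a5⟩ := mem_filter.1 a1
      obtain ⟨a3, a4⟩ := mem_Icc.1 a0
      refine mem_filter.2 ⟨mem_filter.2 ⟨mem_Icc.2 ⟨a3, le_trans a4 ?_⟩, a5⟩,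
        by rw [a2]; exact hne⟩
      rw [hYdiv 1]
      exact Nat.div_le_self _ _
    have h3 := hYpos (k + 1) (by omega)
    have h4 := hYdiv 1
    have h5 : YY p k ≤ 3 * YY p (k + 1) := by omega
    have h6 : (YY p k : ℝ) ≤ 3 * YY p (k + 1) := by exact_mod_cast h5
    have h7 : (#{n ∈ UY p (k + 1) | G n = TU G p (k + 1)} : ℝ) ≤ E := by exact_mod_cast h2
    have h8 := mul_le_mul_of_nonneg_left h6 hε.le
    rw [hee, div_mul_div_comm, le_div_iff₀ (by positivity), one_mul]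
    linarith
  · have hP := hPAIR G p (aa p) (87 * aa p) k (TU G p k) hG
    rw [← hE] at hP
    have hfail : ∀ j ∈ {j ∈ Ico (aa p) (87 * aa p) | TU G p (k + j + 1) ≠ TU G p k * tu G p j},
        ε * YY p k ≤ 64 * (Nat.log 2 p : ℝ) *
          #{z ∈ PN p j ×ˢ UY p (k + j + 1) | G z.1 * G z.2 ≠ TU G p k} := by
      intro j hj
      obtain ⟨b1, hne⟩ := mem_filter.1 hj
      obtain ⟨b2, b3⟩ := mem_Ico.1 b1
      have c1 : 2 ^ j ≤ j * #(PB j) := (hD j (by omega)).1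
      have c0 := hS2 j (by omega)
      have c2 : #(PN p j) ≤ 2 * #{q ∈ PN p j | G q = tu G p j} := by
        refine ((hMAJ (PN p j) G).2 fun q hq => ?_).1
        obtain ⟨d0, d5⟩ := mem_filter.1 hq
        obtain ⟨d1, d2⟩ := mem_filter.1 d0
        have d3 := (mem_Ico.1 d1).2
        have d4 := scbx_pos p (j + 1) hp0 (by omega)
        exact hG.1 q d2.pos (by omega) ((Nat.Prime.coprime_iff_not_dvd d2).2 d5)
      have c3 := hmaj (k + j + 1) (by omega)
      have c4 : #{q ∈ PN p j | G q = tu G p j} *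
          #{n ∈ UY p (k + j + 1) | G n = TU G p (k + j + 1)} ≤
          #{z ∈ PN p j ×ˢ UY p (k + j + 1) | G z.1 * G z.2 ≠ TU G p k} := by
        rw [← card_product]
        refine card_le_card fun z hz => ?_
        obtain ⟨d1, d2⟩ := mem_product.1 hz
        obtain ⟨d3, d4⟩ := mem_filter.1 d1
        obtain ⟨d5, d6⟩ := mem_filter.1 d2
        refine mem_filter.2 ⟨mem_product.2 ⟨d3, d5⟩, fun h => hne ?_⟩
        rw [d4, d6] at h
        have d7 : tu G p j = 1 ∨ tu G p j = -1 := (hMAJ (PN p j) G).1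
        rw [← h]
        rcases d7 with d7 | d7 <;> rw [d7] <;> ring
      have c5 := hYpos (k + j + 1) (by omega)
      have c6 : YY p k < 2 ^ (j + 1) * (YY p (k + j + 1) + 1) := by
        rw [add_assoc, hYdiv (j + 1)]
        exact Nat.lt_mul_div_succ _ (by positivity)
      set Y' := YY p (k + j + 1)
      set n1 := #{q ∈ PN p j | G q = tu G p j}
      set n2 := #{n ∈ UY p (k + j + 1) | G n = TU G p (k + j + 1)}
      set bd := #{z ∈ PN p j ×ˢ UY p (k + j + 1) | G z.1 * G z.2 ≠ TU G p k}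
      have c7 : YY p k ≤ 16 * Nat.log 2 p * n1 * Y' := by
        calc YY p k ≤ 2 ^ (j + 1) * (Y' + 1) := c6.le
          _ ≤ 2 ^ (j + 1) * (2 * Y') := Nat.mul_le_mul_left _ (by omega)
          _ = 4 * (2 ^ j * Y') := by ring
          _ ≤ 4 * ((Nat.log 2 p * (4 * n1)) * Y') :=
            Nat.mul_le_mul_left _ (Nat.mul_le_mul_right _
              (le_trans c1 (Nat.mul_le_mul (by omega) (by omega))))
          _ = _ := by ring
      have c8 : (YY p k : ℝ) ≤ 16 * (Nat.log 2 p : ℝ) * n1 * Y' := by exact_mod_cast c7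
      have c9 : (n1 : ℝ) * n2 ≤ bd := by exact_mod_cast c4
      calc ε * YY p k ≤ ε * (16 * (Nat.log 2 p : ℝ) * n1 * Y') :=
            mul_le_mul_of_nonneg_left c8 hε.le
        _ = 16 * (Nat.log 2 p : ℝ) * n1 * (ε * Y') := by ring
        _ ≤ 16 * (Nat.log 2 p : ℝ) * n1 * (4 * n2) :=
            mul_le_mul_of_nonneg_left c3 (by positivity)
        _ = 64 * (Nat.log 2 p : ℝ) * (n1 * n2) := by ring
        _ ≤ _ := mul_le_mul_of_nonneg_left c9 (by positivity)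
    have h1 := card_nsmul_le_sum _ _ _ hfail
    rw [nsmul_eq_mul, ← mul_sum, ← Nat.cast_sum] at h1
    have h2 := sum_le_sum_of_subset (f := fun j =>
      #{z ∈ PN p j ×ˢ UY p (k + j + 1) | G z.1 * G z.2 ≠ TU G p k})
      (filter_subset (fun j => TU G p (k + j + 1) ≠ TU G p k * tu G p j) (Ico (aa p) (87 * aa p)))
    set F := #{j ∈ Ico (aa p) (87 * aa p) | TU G p (k + j + 1) ≠ TU G p k * tu G p j}
    set S := ∑ j ∈ Ico (aa p) (87 * aa p),
      #{z ∈ PN p j ×ˢ UY p (k + j + 1) | G z.1 * G z.2 ≠ TU G p k}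
    set S' := ∑ j ∈ Ico (aa p) (87 * aa p) with TU G p (k + j + 1) ≠ TU G p k * tu G p j,
      #{z ∈ PN p j ×ˢ UY p (k + j + 1) | G z.1 * G z.2 ≠ TU G p k}
    have h4 : Nat.log 2 p ≤ 400 * aa p := by omega
    have h5 : aa p * (64 * Nat.log 2 p * S') ≤ aa p * (10240000 * E * aa p) := by
      calc aa p * (64 * Nat.log 2 p * S') ≤ aa p * (64 * Nat.log 2 p * S) :=
            Nat.mul_le_mul_left _ (Nat.mul_le_mul_left _ h2)
        _ = 64 * Nat.log 2 p * (aa p * S) := by ring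
        _ ≤ 64 * Nat.log 2 p * (Nat.log 2 p * E) := Nat.mul_le_mul_left _ hP
        _ ≤ 64 * (400 * aa p) * ((400 * aa p) * E) :=
          Nat.mul_le_mul (Nat.mul_le_mul_left _ h4) (Nat.mul_le_mul_right _ h4)
        _ = _ := by ring
    have h6 : 64 * Nat.log 2 p * S' ≤ 10240000 * E * aa p :=
      Nat.le_of_mul_le_mul_left h5 (by omega)
    have h7 : 64 * (Nat.log 2 p : ℝ) * S' ≤ 10240000 * E * aa p := by exact_mod_cast h6
    rw [hee, div_mul_div_comm, div_mul_eq_mul_div, le_div_iff₀ (by positivity)]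
    exact h1.trans h7

end Pool.Agent.G42
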