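import Pool.Agent.MP_b5e119_nt.G42X.Defs

/-! Row SIZ of campaign h42x: sizes of the sets of units and of primes. -/

namespace Pool.Agent.G42

open Finset

theorem siz_pow (j : ℕ) (hj : 14 ≤ j) : 800 * j ≤ 2 ^ j := by
  induction j, hj using Nat.le_induction with
  | base => norm_num
  | succ n hn ih =>
    rw [pow_succ]
    omega

theorem siz_aa (N a₀ : ℕ) (h : 2 ^ (200 * a₀) ≤ N) :
    a₀ ≤ aa N ∧ 2 ^ (200 * aa N) ≤ N ∧ N < 2 ^ (200 * (aa N + 1)) := by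
  have h0 : N ≠ 0 := by
    have : 0 < 2 ^ (200 * a₀) := by positivity
    omega
  have h1 : 200 * a₀ ≤ Nat.log 2 N := Nat.le_log_of_pow_le (by norm_num) h
  have h2 : 2 ^ Nat.log 2 N ≤ N := Nat.pow_log_le_self 2 h0
  have h3 : N < 2 ^ (Nat.log 2 N + 1) := Nat.lt_pow_succ_log_self (by norm_num) N
  unfold aa
  refine ⟨by omega, le_trans (Nat.pow_le_pow_right (by norm_num) (by omega)) h2,
    lt_of_lt_of_le h3 (Nat.pow_le_pow_right (by norm_num) (by omega))⟩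

theorem siz_div (N j : ℕ) (hN : 0 < N) : (2 ^ j) ^ #{q ∈ PB j | q ∣ N} ≤ N := by
  generalize hS : {q ∈ PB j | q ∣ N} = S
  have hq : ∀ q ∈ S, q ∈ N.primeFactors ∧ 2 ^ j ≤ q := by
    intro q hq
    rw [← hS] at hq
    simp only [PB, mem_filter, mem_Ico] at hq
    exact ⟨Nat.mem_primeFactors.2 ⟨hq.1.2, hq.2, hN.ne'⟩, hq.1.1.1⟩
  have h1 : (2 ^ j) ^ #S ≤ ∏ q ∈ S, q := Finset.pow_card_le_prod S _ _ fun q h => (hq q h).2
  have h2 : ∏ q ∈ S, q ∣ N :=
    (Finset.prod_dvd_prod_of_subset S N.primeFactors _ fun q h => (hq q h).1).trans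
      (Nat.prod_primeFactors_dvd N)
  exact h1.trans (Nat.le_of_dvd hN h2)

theorem siz_row (hU : G27.UNI_s) (hT : G27.TAU_s) (hD : DYA_s) : SIZ_s := by
  intro ε hε
  obtain ⟨C, hC, hτ⟩ := hT.2 (1 / 200) (by norm_num)
  obtain ⟨i₀, hi⟩ := hD
  obtain ⟨a₁, ha₁⟩ := exists_nat_ge (4 * C / ε)
  refine ⟨2 ^ (200 * (a₁ + i₀ + 15)), fun N hN hφ => ?_⟩
  obtain ⟨h1, h2, h3⟩ := siz_aa N _ hN
  have hN0 : 0 < N := lt_of_lt_of_le (by positivity) hN
  have hN0' : (0 : ℝ) < N := by exact_mod_cast hN0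
  generalize aa N = a at h1 h2 h3 ⊢
  refine ⟨fun k hk => ?_, fun j hj => ?_⟩
  · have hY : 2 ^ (24 * a) ≤ YY N k := by
      unfold YY
      rw [Nat.le_div_iff_mul_le (by positivity), ← pow_add]
      have h4 : 2 ^ (24 * a + k) < 2 ^ (200 * a) := Nat.pow_lt_pow_right (by norm_num) (by omega)
      omega
    have h4 := (hU N hN0).2 (YY N k)
    have h5 : (G27.UN N (YY N k) : ℝ) = #(UY N k) := rfl
    rw [h5] at h4
    have h6 : (N : ℝ) ^ (1 / 200 : ℝ) ≤ 2 ^ (a + 1) := by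
      have h7 : (N : ℝ) ≤ ((2 : ℝ) ^ (a + 1)) ^ (200 : ℕ) := by
        rw [← pow_mul, Nat.mul_comm]
        exact_mod_cast h3.le
      calc (N : ℝ) ^ (1 / 200 : ℝ) ≤ (((2 : ℝ) ^ (a + 1)) ^ (200 : ℕ)) ^ (1 / 200 : ℝ) :=
            Real.rpow_le_rpow hN0'.le h7 (by norm_num)
        _ = 2 ^ (a + 1) := by
            rw [← Real.rpow_natCast _ 200, ← Real.rpow_mul (by positivity)]
            norm_num
    have h7 : a₁ * 2 ^ a ≤ YY N k := by
      have h8 : a₁ ≤ 2 ^ a := le_trans (by omega : a₁ ≤ a) (Nat.lt_two_pow_self).le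
      calc a₁ * 2 ^ a ≤ 2 ^ a * 2 ^ a := Nat.mul_le_mul_right _ h8
        _ = 2 ^ (a + a) := (pow_add _ _ _).symm
        _ ≤ 2 ^ (24 * a) := Nat.pow_le_pow_right (by norm_num) (by omega)
        _ ≤ _ := hY
    have h8 : (a₁ : ℝ) * 2 ^ a ≤ YY N k := by exact_mod_cast h7
    have h9 : 4 * C ≤ a₁ * ε := (div_le_iff₀ hε).1 ha₁
    have h10 : (#N.divisors : ℝ) ≤ C * 2 ^ (a + 1) :=
      (hτ N).trans (mul_le_mul_of_nonneg_left h6 hC.le)
    have h11 : ε * (YY N k : ℝ) ≤ (YY N k : ℝ) * N.totient / N := by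
      rw [le_div_iff₀ hN0']
      have h12 := mul_le_mul_of_nonneg_left hφ (Nat.cast_nonneg (YY N k) : (0 : ℝ) ≤ _)
      linarith
    have h12 : (0 : ℝ) < 2 ^ a := by positivity
    have h13 := mul_le_mul_of_nonneg_right h9 h12.le
    have h14 := mul_le_mul_of_nonneg_left h8 hε.le
    rw [pow_succ] at h10
    generalize (2 : ℝ) ^ a = t at h8 h10 h12 h13 h14
    generalize ((YY N k : ℕ) : ℝ) * N.totient / N = r at h4 h11
    clear hN h2 h3 hY h6 h7 hτ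
    linarith
  · have h4 : 2 ^ j ≤ j * #(PB j) := (hi j (by omega)).1
    have h5 := siz_pow j (by omega)
    have h6 : 800 ≤ #(PB j) :=
      Nat.le_of_mul_le_mul_left (by rw [Nat.mul_comm j 800]; exact h5.trans h4) (by omega : 0 < j)
    have h7 := siz_div N j hN0
    rw [← pow_mul] at h7
    have h8 : j * #{q ∈ PB j | q ∣ N} < 200 * (a + 1) :=
      (Nat.pow_lt_pow_iff_right (by norm_num : 1 < 2)).1 (lt_of_le_of_lt h7 h3)
    have h9 : #{q ∈ PB j | q ∣ N} < 400 := by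
      refine Nat.lt_of_mul_lt_mul_left (a := j) ?_
      omega
    have h10 : #{q ∈ PB j | q ∣ N} + #(PN N j) = #(PB j) :=
      Finset.card_filter_add_card_filter_not (fun q => q ∣ N)
    omega

end Pool.Agent.G42
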