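import Pool.Agent.MP_b5e119_nt.G42X.Defs

namespace Pool.Agent.G42

open Finset Filter Topology Pool.Agent.G60

theorem sptx_level (G : ℕ → ℤ) (N j : ℕ) (hj : 1 ≤ j) (h1 : 2 ^ j ≤ j * #(PB j))
    (h2 : j * #(PB j) ≤ 2 * 2 ^ j) :
    ∑ q ∈ PN N j with G q ≠ 1, Real.log q / q ≤
      4 * (du G N j + if tu G N j ≠ 1 then 1 else 0) := by
  have hN : 0 < #(PB j) := by
    rcases Nat.eq_zero_or_pos #(PB j) with h | h
    · rw [h] at h1
      have := Nat.two_pow_pos j
      omega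
    · exact h
  have hN' : (0 : ℝ) < #(PB j) := by exact_mod_cast hN
  have hj' : (1 : ℝ) ≤ j := by exact_mod_cast hj
  have h2' : (j : ℝ) * #(PB j) ≤ 2 * 2 ^ j := by exact_mod_cast h2
  have hd0 : 0 ≤ du G N j := by unfold du; positivity
  have hterm : ∀ q ∈ {q ∈ PN N j | G q ≠ 1}, Real.log q / q ≤ 2 * j / 2 ^ j := by
    intro q hq
    have hq' := mem_Ico.1 (mem_filter.1 (mem_filter.1 (mem_filter.1 hq).1).1).1
    have e1 : (2 : ℝ) ^ j ≤ q := by exact_mod_cast hq'.1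
    have e2 : (q : ℝ) ≤ 2 ^ (j + 1) := by exact_mod_cast hq'.2.le
    have hq0 : (0 : ℝ) < q := lt_of_lt_of_le (by positivity) e1
    have e3 : Real.log q ≤ 2 * j := by
      refine (Real.log_le_log hq0 e2).trans ?_
      rw [Real.log_pow]
      have := Real.log_two_lt_d9
      have h0 : 0 < Real.log 2 := Real.log_pos one_lt_two
      push_cast
      nlinarith
    exact div_le_div₀ (by positivity) e3 (by positivity) e1
  have hc : (#{q ∈ PN N j | G q ≠ 1} : ℝ) ≤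
      (du G N j + if tu G N j ≠ 1 then 1 else 0) * #(PB j) := by
    by_cases ht : tu G N j = 1
    · rw [if_neg (not_not.2 ht), add_zero]
      unfold du
      rw [ht, div_mul_cancel₀ _ hN'.ne']
    · rw [if_pos ht]
      have : (#{q ∈ PN N j | G q ≠ 1} : ℝ) ≤ #(PB j) := by
        exact_mod_cast (card_filter_le _ _).trans (card_filter_le _ _)
      nlinarith
  have hw : 0 ≤ du G N j + if tu G N j ≠ 1 then (1 : ℝ) else 0 := by
    split_ifs <;> linarith
  refine (sum_le_card_nsmul _ _ _ hterm).trans ?_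
  rw [nsmul_eq_mul]
  refine (mul_le_mul_of_nonneg_right hc (by positivity)).trans ?_
  rw [mul_assoc, mul_comm 4]
  refine mul_le_mul_of_nonneg_left ?_ hw
  rw [← mul_div_assoc, div_le_iff₀ (by positivity)]
  nlinarith

theorem sptx_split (G : ℕ → ℤ) (N a b : ℕ) :
    ∑ q ∈ Ico (2 ^ a : ℕ) (2 ^ b) with (q.Prime ∧ ¬q ∣ N ∧ G q ≠ 1), Real.log q / q ≤
      ∑ j ∈ Ico a b, ∑ q ∈ PN N j with G q ≠ 1, Real.log q / q := by
  have hmap : ∀ q ∈ {q ∈ Ico (2 ^ a : ℕ) (2 ^ b) | q.Prime ∧ ¬q ∣ N ∧ G q ≠ 1},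
      Nat.log 2 q ∈ Ico a b := by
    intro q hq
    have h := mem_filter.1 hq
    have h' := mem_Ico.1 h.1
    exact mem_Ico.2 ⟨Nat.le_log_of_pow_le (by norm_num) h'.1,
      Nat.log_lt_of_lt_pow h.2.1.ne_zero h'.2⟩
  rw [← sum_fiberwise_of_maps_to hmap]
  refine sum_le_sum fun j _ => sum_le_sum_of_subset_of_nonneg ?_ fun q _ _ =>
    div_nonneg (Real.log_natCast_nonneg q) (Nat.cast_nonneg q)
  intro q hq
  have h := mem_filter.1 hq
  have h' := (mem_filter.1 h.1).2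
  refine mem_filter.2 ⟨mem_filter.2 ⟨mem_filter.2 ⟨mem_Ico.2 ⟨?_, ?_⟩, h'.1⟩, h'.2.1⟩, h'.2.2⟩
  · rw [← h.2]; exact Nat.pow_log_le_self 2 h'.1.ne_zero
  · rw [← h.2]; exact Nat.lt_pow_succ_log_self (by norm_num) q

theorem sptx_row (hDYA : DYA_s) (hMAJ : MAJ_s) (hSCA : SCAX_s) (hSCB : SCBX_s) (hBLR : BLR_s) :
    SPTX_s := by
  intro ε₀ ε' hε₀ hε'
  obtain ⟨i₀, hD⟩ := hDYA
  obtain ⟨C₁, p₁, hC₁, hA⟩ := hSCA ε₀ hε₀
  obtain ⟨C₂, p₂, hC₂, hB⟩ := hSCB ε₀ hε₀
  have hK : 0 < C₁ * (2 * C₂ + 1) := by positivity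
  have hm : 0 < min ε' 1 := lt_min hε' one_pos
  obtain ⟨ε, hε, hεK⟩ : ∃ ε : ℝ, 0 < ε ∧ C₁ * (2 * C₂ + 1) * ε = min ε' 1 / 12 :=
    ⟨min ε' 1 / 12 / (C₁ * (2 * C₂ + 1)), by positivity, by field_simp⟩
  refine ⟨ε, hε, max (max p₁ p₂) (2 ^ (200 * (i₀ + 1))), fun G p σ hp hφ hG hσ hE => ?_⟩
  have hp1 : p₁ ≤ p := le_trans (le_trans (le_max_left _ _) (le_max_left _ _)) hp
  have hp2 : p₂ ≤ p := le_trans (le_trans (le_max_right _ _) (le_max_left _ _)) hp
  have hl : 200 * (i₀ + 1) ≤ Nat.log 2 p :=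
    Nat.le_log_of_pow_le (by norm_num) ((le_max_right _ _).trans hp)
  have ha : i₀ + 1 ≤ aa p := by unfold aa; omega
  obtain ⟨hS, hDd⟩ := hA G p σ ε hp1 hφ hG hσ hE
  have hB' := fun k => hB G p k hp2 hφ hG
  generalize aa p = a at ha hS hDd hB' ⊢
  have ha0 : (0 : ℝ) < a := by exact_mod_cast (by omega : 0 < a)
  have ha1 : (1 : ℝ) ≤ a := by exact_mod_cast (by omega : 1 ≤ a)
  have he0 : ∀ k, 0 ≤ eu G p k := fun k => by unfold eu; positivity
  have hd0 : ∀ j, 0 ≤ du G p j := fun j => by unfold du; positivity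
  have hx : 0 < C₁ * ε := by positivity
  have hx2 : 0 < C₂ * (C₁ * ε) := by positivity
  have hm1 : min ε' 1 ≤ 1 := min_le_right _ _
  have hm2 : min ε' 1 ≤ ε' := min_le_left _ _
  have h87 : 85 * a + 2 * a = 87 * a := by ring
  have hbl := hBLR (TU G p) (tu G p) a (85 * a) (C₂ * (C₁ * ε)) (fun k => (hMAJ _ _).1)
    (fun j => (hMAJ _ _).1) (by omega) (by positivity) (by nlinarith) (by
      rw [h87, card_filter, sum_product]
      push_cast
      have : ∀ k ∈ Ico a (87 * a), (∑ j ∈ Ico a (87 * a),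
          if TU G p (k + j + 1) ≠ TU G p k * tu G p j then (1 : ℝ) else 0) ≤
            C₂ * a * eu G p k := by
        intro k hk
        have h := (hB' k (mem_Ico.1 hk).2).2
        rw [card_filter] at h
        push_cast at h
        linarith
      refine (sum_le_sum this).trans ?_
      rw [← mul_sum]
      have h1 := mul_le_mul_of_nonneg_left hS (by positivity : 0 ≤ C₂ * (a : ℝ))
      nlinarith) (by
      rw [h87, card_filter]
      push_cast
      have : ∀ k ∈ Ico a (87 * a),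
          (if TU G p (k + 1) ≠ TU G p k then (1 : ℝ) else 0) ≤ C₂ * eu G p k := by
        intro k hk
        split_ifs with h
        · exact (hB' k (mem_Ico.1 hk).2).1 h
        · exact mul_nonneg hC₂.le (he0 k)
      refine (sum_le_sum this).trans ?_
      rw [← mul_sum]
      have h1 := mul_le_mul_of_nonneg_left hS hC₂.le
      nlinarith)
  refine (sptx_split G p a (85 * a)).trans ?_
  have hlev : ∀ j ∈ Ico a (85 * a), ∑ q ∈ PN p j with G q ≠ 1, Real.log q / q ≤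
      4 * (du G p j + if tu G p j ≠ 1 then 1 else 0) := by
    intro j hj
    have hj' := (mem_Ico.1 hj).1
    have h := hD j (by omega)
    exact sptx_level G p j (by omega) h.1 h.2
  refine (sum_le_sum hlev).trans ?_
  rw [← mul_sum, sum_add_distrib]
  rw [card_filter] at hbl
  push_cast at hbl
  have hd : ∑ j ∈ Ico a (85 * a), du G p j ≤ C₁ * ε * a :=
    le_trans (sum_le_sum_of_subset_of_nonneg (Ico_subset_Ico_right (by omega))
      fun j _ _ => hd0 j) hDd
  have h3 : C₁ * (2 * C₂ + 1) * ε * a ≤ ε' / 12 * a :=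
    mul_le_mul_of_nonneg_right (by rw [hεK]; linarith) ha0.le
  have h4 : 0 ≤ ε' * a := by positivity
  nlinarith

end Pool.Agent.G42
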