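import Pool.Agent.MP_b5e119_nt.G42.ZDefs
import Pool.Agent.MP_b5e119_nt.G27.Defs

/-! Statements of the rows of campaign h42x: positive proportion for moduli with `φ(N) ≥ ε N`. -/

namespace Pool.Agent.G42

open Finset Filter Topology Pool.Agent.G60
open Pool.Agent.G27 (cu nu re EX WW UN)
open Pool.Agent.G94 (Rough)

noncomputable section

def AX (N x : ℕ) (χ : Ch N) : ℂ :=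
  (∑ a ∈ Icc 1 x, (lam a : ℂ) * (starRingEnd ℂ) (χ (a : ZMod N))) / (N.totient : ℂ)

def Gx [Sg] (N : ℕ) [NeZero N] (y : ℕ) (β : ℝ) : Prop :=
  (od N : ℝ) ≤ β * N ∧ ∀ m, 0 < m → m ≤ y → (bad N m : ℝ) ≤ β * N

open Classical in
def WN (N w i : ℕ) : Finset ℕ := {d ∈ Ioc (2 ^ i) (2 ^ (i + 3)) | Rough (2 ^ w) d ∧ d.Coprime N}

open Classical in
def SN (N w i : ℕ) : Finset ℕ := {d ∈ Ioc (2 ^ i) (2 ^ (i + 1)) | Rough (2 ^ w) d ∧ d.Coprime N}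

def VZ (w : ℕ) : ℝ := ∏ q ∈ range (2 ^ w) with q.Prime, (1 - 1 / (q : ℝ))

def PN (N j : ℕ) : Finset ℕ := {q ∈ PB j | ¬q ∣ N}

def EN (N w : ℕ) (ψ c : ℕ → ℂ) (i : ℕ) : ℝ := (∑ d ∈ WN N w i, ‖ψ d - c i‖ ^ 2) / 2 ^ i

/-- The scales on which characters are compared. -/
def II (N k : ℕ) : Finset ℕ :=
  Ico (Nat.log 2 N / 4) (Nat.log 2 N / 2 - 2 * (Nat.log 2 N / k))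

def hh {N : ℕ} (χ : Ch N) (d : ℕ) : ℂ := (lam d : ℂ) * χ (d : ZMod N)

/-! ### The climb -/

def ODX_s [Sg] : Prop := ∀ (y : ℕ) (β : ℝ), 0 < β → ∃ c : ℝ, 0 < c ∧ ∃ N₀ : ℕ,
  ∀ (N : ℕ) [NeZero N], N₀ ≤ N → ∀ e : ℤ, (e = 1 ∨ e = -1) →
    (cnt N e (-Sg.s * e) : ℝ) ≤ c * N → Gx N y β

def LRX_s : Prop := ∀ ε : ℝ, 0 < ε → ∃ b₀ : ℕ, ∀ b N : ℕ, b₀ ≤ b → 0 < N → ε * N ≤ N.totient →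
  ∃ v ∈ BV b, v ≤ 4 * b ^ 5 * #{q ∈ BF b v | ¬q ∣ N}

def DECX_s : Prop := ∀ (N : ℕ) [NeZero N] (b : ℕ) (T : Finset (Ch N)), 4 ≤ b → 2 ^ b ^ 4 < N →
  0 < LR b → ∑ χ ∈ T, nu N χ ≤ 40 * (1 / LR b + 1 / b) * (N / N.totient) + 2 * #(BV b) / LR b ^ 2 *
    ∑ v ∈ BV b, ∑ χ ∈ T, ‖QQ N b v χ‖ ^ 2 * ‖AX N (XV N b v) χ‖ ^ 2

def MOMX_s : Prop := ∀ (N : ℕ) [NeZero N] (S : Finset ℕ) (P k x : ℕ),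
  (∀ q ∈ S, q.Prime ∧ P ≤ q ∧ q < 2 * P) → (2 * P) ^ k * x < N →
    ∑ χ : Ch N, ‖∑ q ∈ S, χ (q : ZMod N)‖ ^ (2 * k) * ‖AX N x χ‖ ^ 2 ≤
      x * (P : ℝ) ^ k * ((k : ℝ) + 1) ^ k / N.totient

open Classical in
def STEPX_s : Prop := ∃ c₀ : ℕ, ∀ (N : ℕ) [NeZero N] (c : ℕ) (α α' : ℝ), c₀ ≤ c →
  2 ^ (2 ^ c) ^ 4 < N → 0 ≤ α → α + 3 / c ≤ α' →
    ∑ χ ∈ Sm N (2 ^ c) α' \ Sm N c α, nu N χ ≤ 100 / c * (N / N.totient)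

open Classical in
def CNTX_s : Prop := ∀ (N : ℕ) [NeZero N] (b : ℕ) (α : ℝ), 4 ≤ b → 0 < α → α ≤ 1 / 2 →
  (b : ℝ) ^ 4 ≤ α * Nat.log 2 N → (Nat.log 2 (Nat.log 2 N) : ℝ) + 3 ≤ α * (b : ℝ) ^ 2 →
    (#((Sm N b α)ᶜ) : ℝ) ≤ (N : ℝ) ^ (5 * α)

def BASEX_s [Sg] : Prop := ∀ ε α : ℝ, 0 < ε → 0 < α → ∃ b₀ : ℕ, ∀ (N : ℕ) [NeZero N] (b : ℕ) (β : ℝ),
  b₀ ≤ b → 2 ^ b ^ 4 < N → ε * N ≤ N.totient → Gx N (2 ^ b ^ 4) β →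
    ∑ χ ∈ Sm N b α, nu N χ ≤ 4 * β / ε

def INDX_s [Sg] : Prop := ∀ ε α e : ℝ, 0 < ε → 0 < α → 0 < e → ∀ B : ℕ, ∃ b : ℕ, B ≤ b ∧
  ∃ β : ℝ, 0 < β ∧ ∀ (N : ℕ) [NeZero N], ε * N ≤ N.totient → Gx N (2 ^ b ^ 4) β →
    ∀ j : ℕ, 2 ^ tw b j ^ 4 < N → ∑ χ ∈ Sm N (tw b j) α, nu N χ ≤ e

open Classical in
def FEWX_s [Sg] : Prop := ∀ ε γ e : ℝ, 0 < ε → 0 < γ → 0 < e → ∃ (y : ℕ) (β : ℝ), 0 < β ∧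
  ∃ N₀ : ℕ, ∀ (N : ℕ) [NeZero N], N₀ ≤ N → ε * N ≤ N.totient → Gx N y β →
    ∃ Λ : Finset (Ch N), (#Λ : ℝ) ≤ (N : ℝ) ^ γ ∧ ∑ χ ∈ Λᶜ, nu N χ ≤ e

/-! ### The end game -/

open Classical in
def SVR_s : Prop := ∃ (s : ℕ) (C : ℝ), 0 < C ∧ ∀ w j₁ j₂ m : ℕ, 1 ≤ w → w ≤ j₁ → j₁ ≤ j₂ →
  s * j₂ ≤ m → (#{d ∈ Ioc (2 ^ m) (2 ^ (m + 1)) | Rough (2 ^ w) d ∧
      ∀ q : ℕ, q.Prime → 2 ^ j₁ ≤ q → q < 2 ^ j₂ → ¬q ∣ d} : ℝ) ≤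
    C * 2 ^ m * VZ w * Real.exp (-∑ q ∈ Ico (2 ^ j₁ : ℕ) (2 ^ j₂) with q.Prime, 1 / ((q : ℕ) : ℝ))

def SVV_s : Prop := ∃ (s : ℕ) (c C : ℝ), 0 < c ∧ 0 < C ∧ ∀ w : ℕ, 1 ≤ w → c / w ≤ VZ w ∧
  ∀ N i : ℕ, s * w ≤ i → (#(WN N w i) : ℝ) ≤ C * 2 ^ i / w

open Classical in
def SVL_s : Prop := ∃ s : ℕ, ∀ (N : ℕ) (ψ : Ch N) (Θ : ℂ) (w m : ℕ) (B : ℝ), ‖Θ‖ = 1 → 1 ≤ w →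
  (∀ Y : ℕ, ‖∑ n ∈ Icc 1 Y, ψ (n : ZMod N)‖ ≤ B) → (1 + 2 * B) * 2 ^ (s * w) ≤ 2 ^ m →
    2 ^ m * VZ w / 2 ≤ ∑ d ∈ Ioc (2 ^ m) (2 ^ (m + 1)) with Rough (2 ^ w) d,
      (1 - (ψ (d : ZMod N) * (starRingEnd ℂ) Θ).re)

def CHC_s : Prop := ∀ (N w m j₁ j₂ D : ℕ) (A : ℝ) (ψ c : ℕ → ℂ), (∀ a b, ψ (a * b) = ψ a * ψ b) →
  (∀ d, d.Coprime N → ‖ψ d‖ = 1) → w ≤ j₁ → 0 < j₁ → 2 * j₂ + 2 ≤ m → m + 2 ≤ D * j₁ → 0 ≤ A →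
  (∀ i, m ≤ i + 2 * j₂ → i ≤ m → (2 : ℝ) ^ i ≤ A * #(SN N w i)) →
    ∑ j ∈ Ico j₁ j₂, ∑ q ∈ PN N j, ∑ j' ∈ Ico j₁ j₂, ∑ q' ∈ PN N j',
        ‖ψ q * c (m - j - 2) - ψ q' * c (m - j' - 2)‖ ^ 2 / ((q : ℝ) * q') ≤
      2 * A * D * ∑ j ∈ Ico j₁ j₂, (∑ q ∈ PN N j, 1 / (q : ℝ)) * EN N w ψ c (m - j - 2)

open Classical in
def CHD_s : Prop := ∀ (N w m j₁ j₂ : ℕ) (ψ c : ℕ → ℂ) (Θ : ℂ), (∀ a b, ψ (a * b) = ψ a * ψ b) →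
  (∀ d, d.Coprime N → ‖ψ d‖ = 1) → j₂ + 2 ≤ m →
    ∑ d ∈ SN N w m with (∃ q : ℕ, q.Prime ∧ 2 ^ j₁ ≤ q ∧ q < 2 ^ j₂ ∧ q ∣ d), ‖ψ d - Θ‖ ^ 2 ≤
      2 * ∑ j ∈ Ico j₁ j₂, ∑ q ∈ PN N j, (2 ^ (m - j - 2) * EN N w ψ c (m - j - 2) +
        #(WN N w (m - j - 2)) * ‖ψ q * c (m - j - 2) - Θ‖ ^ 2)

/-- Counting facts used by the key row. -/
def CNU_s : Prop := ∀ k : ℕ, 1 ≤ k → ∃ N₀ : ℕ, ∀ N : ℕ, N₀ ≤ N →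
  (∀ i, Nat.log 2 N ≤ 8 * i → i ≤ Nat.log 2 N →
    2 ^ i ≤ 2 * Nat.log 2 N * #(SN N (Nat.log 2 N / k / 8) i) ∧
      (8 ≤ k → 2 ^ i ≤ 2 * Nat.log 2 N * #(SN N (Nat.log 2 N / k) i))) ∧
  (∀ j₁ j₂, Nat.log 2 N / k ≤ j₁ → j₁ ≤ j₂ →
    Real.log ((j₂ : ℝ) / j₁) / 2 ≤ ∑ q ∈ Ico (2 ^ j₁ : ℕ) (2 ^ j₂) with q.Prime, 1 / ((q : ℕ) : ℝ) ∧
    Real.log ((j₂ : ℝ) / j₁) / 2 - 1 ≤ ∑ j ∈ Ico j₁ j₂, ∑ q ∈ PN N j, 1 / (q : ℝ)) ∧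
  ∀ j, Nat.log 2 N / k ≤ j → ∑ q ∈ PN N j, 1 / (q : ℝ) ≤ 2 / j ∧ j * #(PN N j) ≤ 2 * 2 ^ j

def KEYX_s : Prop := ∃ (k : ℕ) (ρ : ℝ), 16 ≤ k ∧ 0 < ρ ∧ ∃ N₀ : ℕ, ∀ (N : ℕ) [NeZero N], N₀ ≤ N →
  ∀ (ψ : Ch N) (c : ℕ → ℂ), (∀ i ∈ II N k, ‖c i‖ = 1) →
    ∑ i ∈ II N k, EN N (Nat.log 2 N / k) (fun d => ψ (d : ZMod N)) c i ≤ ρ → ψ = 1

open Classical in
def TYPX_s : Prop := ∀ (k : ℕ) (ε : ℝ), 16 ≤ k → 0 < ε → ∃ N₀ : ℕ, ∀ (N : ℕ) [NeZero N], N₀ ≤ N →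
  ε * N ≤ N.totient → ∀ U : Finset (Ch N), (#U : ℝ) ≤ (N : ℝ) ^ (1 / (2 * (k : ℝ))) →
    ∃ d : ℕ → ℕ, (∀ i ∈ II N k, d i ∈ WN N (Nat.log 2 N / k) i) ∧
      ∑ χ ∈ U, nu N χ * ∑ i ∈ II N k, EN N (Nat.log 2 N / k) (hh χ) (fun i => hh χ (d i)) i ≤
        768 * 4 ^ k / ε * ∑ χ ∈ Uᶜ, nu N χ

open Classical in
def ENDX_s : Prop := ∀ ε : ℝ, 0 < ε → ∃ K γ : ℝ, 0 < K ∧ 0 < γ ∧ ∃ N₀ : ℕ,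
  ∀ (N : ℕ) [NeZero N], N₀ ≤ N → ε * N ≤ N.totient → ∀ U : Finset (Ch N),
    (#U : ℝ) ≤ (N : ℝ) ^ γ → K * ∑ χ ∈ Uᶜ, nu N χ < 1 →
      ∃ χ : Ch N, χ ^ 2 = 1 ∧ 1 - nu N χ ≤ K * ∑ χ ∈ Uᶜ, nu N χ

def CONX_s [Sg] : Prop := ∀ ε η : ℝ, 0 < ε → 0 < η → ∃ (y : ℕ) (β : ℝ), 0 < β ∧ ∃ N₀ : ℕ,
  ∀ (N : ℕ) [NeZero N], N₀ ≤ N → ε * N ≤ N.totient → Gx N y β →
    ∃ χ : Ch N, χ ^ 2 = 1 ∧ χ ≠ 1 ∧ 1 - nu N χ ≤ η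

def STRX_s [Sg] : Prop := ∀ ε η : ℝ, 0 < ε → 0 < η → ∃ (y : ℕ) (β : ℝ), 0 < β ∧ ∃ N₀ : ℕ,
  ∀ (N : ℕ) [NeZero N], N₀ ≤ N → ε * N ≤ N.totient → Gx N y β →
    ∃ (χ : Ch N) (σ : ℤ), χ ^ 2 = 1 ∧ χ ≠ 1 ∧ (σ = 1 ∨ σ = -1) ∧ (EX χ σ : ℝ) ≤ η * N ∧
      re χ (N - 1) = Sg.s

/-! ### The real zero -/

/-- A sign function on the integers below `N` that are prime to `N`. -/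
def CU (G : ℕ → ℤ) (N : ℕ) : Prop := (∀ n, 0 < n → n < N → n.Coprime N → G n = 1 ∨ G n = -1) ∧
  ∀ a b, 0 < a → 0 < b → a * b < N → G (a * b) = G a * G b

def UY (N k : ℕ) : Finset ℕ := {u ∈ Icc 1 (YY N k) | u.Coprime N}

def TU (G : ℕ → ℤ) (N k : ℕ) : ℤ := mj (UY N k) G

def tu (G : ℕ → ℤ) (N j : ℕ) : ℤ := mj (PN N j) G

def eu (G : ℕ → ℤ) (N k : ℕ) : ℝ := (#{u ∈ UY N k | G u ≠ TU G N k} : ℝ) / YY N k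

def du (G : ℕ → ℤ) (N j : ℕ) : ℝ := (#{q ∈ PN N j | G q ≠ tu G N j} : ℝ) / #(PB j)

def rx {N : ℕ} (χ : Ch N) (n : ℕ) : ℝ := ∑ d ∈ n.divisors, (re χ d : ℝ)

def ZX {N : ℕ} (χ : Ch N) (x : ℕ) : ℝ := ∑ n ∈ Icc 1 x, rx χ n / n

def Lx {N : ℕ} (χ : Ch N) (e : ℕ) : ℝ := ArithmeticFunction.vonMangoldt e * (1 + (re χ e : ℝ))

def PAIRX_s : Prop := ∀ (G : ℕ → ℤ) (N a b k : ℕ) (τ : ℤ), CU G N →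
  a * ∑ j ∈ Ico a b, #{z ∈ PN N j ×ˢ UY N (k + j + 1) | G z.1 * G z.2 ≠ τ} ≤
    Nat.log 2 N * #{u ∈ UY N k | G u ≠ τ}

/-- Sizes of the sets of units and of primes. -/
def SIZ_s : Prop := ∀ ε : ℝ, 0 < ε → ∃ N₀ : ℕ, ∀ N : ℕ, N₀ ≤ N → ε * N ≤ N.totient →
  (∀ k, k ≤ 175 * aa N → ε / 2 * YY N k ≤ #(UY N k)) ∧
    ∀ j, aa N ≤ j + 1 → #(PB j) ≤ 2 * #(PN N j)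

def SCAX_s : Prop := ∀ ε : ℝ, 0 < ε → ∃ (C : ℝ) (N₀ : ℕ), 0 < C ∧
  ∀ (G : ℕ → ℤ) (N : ℕ) (σ : ℤ) (δ : ℝ), N₀ ≤ N → ε * N ≤ N.totient → CU G N → (σ = 1 ∨ σ = -1) →
    (#{u ∈ UY N 0 | G u ≠ σ} : ℝ) ≤ δ * N →
      ∑ k ∈ Ico (aa N) (87 * aa N), eu G N k ≤ C * δ * aa N ∧
        ∑ j ∈ Ico (aa N) (87 * aa N), du G N j ≤ C * δ * aa N

def SCBX_s : Prop := ∀ ε : ℝ, 0 < ε → ∃ (C : ℝ) (N₀ : ℕ), 0 < C ∧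
  ∀ (G : ℕ → ℤ) (N k : ℕ), N₀ ≤ N → ε * N ≤ N.totient → CU G N → k < 87 * aa N →
    (TU G N (k + 1) ≠ TU G N k → 1 ≤ C * eu G N k) ∧
      (#{j ∈ Ico (aa N) (87 * aa N) | TU G N (k + j + 1) ≠ TU G N k * tu G N j} : ℝ) ≤
        C * eu G N k * aa N

def SPTX_s : Prop := ∀ ε ε' : ℝ, 0 < ε → 0 < ε' → ∃ δ : ℝ, 0 < δ ∧ ∃ N₀ : ℕ,
  ∀ (G : ℕ → ℤ) (N : ℕ) (σ : ℤ), N₀ ≤ N → ε * N ≤ N.totient → CU G N → (σ = 1 ∨ σ = -1) →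
    (#{u ∈ UY N 0 | G u ≠ σ} : ℝ) ≤ δ * N →
      ∑ q ∈ Ico (2 ^ aa N) (2 ^ (85 * aa N)) with (q.Prime ∧ ¬q ∣ N ∧ G q ≠ 1),
        Real.log q / q ≤ ε' * aa N

def LIDX_s : Prop := ∀ (N : ℕ) [NeZero N] (χ : Ch N), χ ^ 2 = 1 → (∀ n, 0 ≤ rx χ n) ∧ rx χ 1 = 1 ∧
  ∀ z x₀ x₁ : ℕ, 0 < z → z ≤ x₀ → x₀ ≤ x₁ → Real.log x₀ * (ZX χ x₁ - ZX χ x₀) ≤
    (∑ e ∈ Ico 1 z, Lx χ e / e) * (ZX χ x₁ - ZX χ (x₀ / z)) + (∑ e ∈ Icc z x₁, Lx χ e / e) * ZX χ x₁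

def MERX_s : Prop := ∃ C : ℝ, 0 < C ∧ ∀ (N : ℕ) [NeZero N] (χ : Ch N) (z : ℕ), χ ^ 2 = 1 → 2 ≤ z →
  N < z ^ 400 → ∑ e ∈ Ico 1 z, Lx χ e / e ≤ 2 * Real.log z + C ∧ ∀ x : ℕ,
    ∑ e ∈ Icc z x, Lx χ e / e ≤
      C + 2 * ∑ q ∈ Icc z x with (q.Prime ∧ re χ q = 1), Real.log q / q

def RAAX_s : Prop := ∃ κ : ℝ, 0 < κ ∧ ∃ N₀ : ℕ, ∀ (N : ℕ) [NeZero N], N₀ ≤ N → ∀ χ : Ch N,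
  χ ^ 2 = 1 → χ ≠ 1 → ∀ L : ℝ,
  Tendsto (fun M : ℕ => ∑ n ∈ Icc 1 M, (re χ n : ℝ) / n) atTop (𝓝 L) → ∀ y : ℕ,
    (N : ℝ) ^ (0.33 : ℝ) ≤ y → y ≤ N → |∑ n ∈ Icc 1 y, rx χ n - y * L| ≤ y * (N : ℝ) ^ (-κ)

def RASX_s : Prop := ∃ κ : ℝ, 0 < κ ∧ ∃ N₀ : ℕ, ∀ (N : ℕ) [NeZero N], N₀ ≤ N → ∀ χ : Ch N,
  χ ^ 2 = 1 → χ ≠ 1 → ∀ L : ℝ,
  Tendsto (fun M : ℕ => ∑ n ∈ Icc 1 M, (re χ n : ℝ) / n) atTop (𝓝 L) → ∀ y y' : ℕ,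
    (N : ℝ) ^ (0.33 : ℝ) ≤ y → y ≤ y' → y' ≤ N →
      |ZX χ y' - ZX χ y - L * Real.log ((y' : ℝ) / y)| ≤ (N : ℝ) ^ (-κ)

def TLBX_s : Prop := ∀ (N : ℕ) [NeZero N] (χ : Ch N) (β : ℝ) (U V : ℕ), χ ^ 2 = 1 → χ ≠ 1 → 0 < β →
  0 < U → U ≤ V →
  |∑ n ∈ Icc 1 V, (re χ n : ℝ) * (n : ℝ) ^ (-β) - ∑ n ∈ Icc 1 U, (re χ n : ℝ) * (n : ℝ) ^ (-β)| ≤
    2 * N * (U : ℝ) ^ (-β)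

def HECX_s : Prop := ∀ η : ℝ, 0 < η → ∃ C : ℝ, 0 < C ∧ ∃ N₀ : ℕ, ∀ (N : ℕ) [NeZero N], N₀ ≤ N →
  ∀ χ : Ch N, χ ^ 2 = 1 → χ ≠ 1 → ∀ L L' : ℝ,
    Tendsto (fun M : ℕ => ∑ n ∈ Icc 1 M, (re χ n : ℝ) / n) atTop (𝓝 L) →
    Tendsto (fun M : ℕ => ∑ n ∈ Icc 1 M, (re χ n : ℝ) * (n : ℝ) ^ (-(1 - η / Real.log N)))
      atTop (𝓝 L') → 0 ≤ L' → ZX χ N ≤ C * L * Real.log N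

def LFNX_s : Prop := ∀ (N : ℕ) [NeZero N] (χ : Ch N) (σ : ℝ), χ ^ 2 = 1 → χ ≠ 1 → 1 / 2 ≤ σ →
  σ ≤ 2 → ∃ L : ℝ, DirichletCharacter.LFunction χ σ = L ∧
    Tendsto (fun M : ℕ => ∑ n ∈ Icc 1 M, (re χ n : ℝ) * (n : ℝ) ^ (-σ)) atTop (𝓝 L)

def POLX_s : Prop := ∀ (N : ℕ) [NeZero N] (χ : Ch N) (β : ℝ), χ ^ 2 = 1 → χ ≠ 1 → 1 / 2 ≤ β →
  β < 1 → (∀ σ : ℝ, β ≤ σ → σ < 1 → DirichletCharacter.LFunction χ σ ≠ 0) →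
    0 ≤ (DirichletCharacter.LFunction χ β).re

def ZNDX_s : Prop := ∀ ε η : ℝ, 0 < ε → 0 < η → ∃ δ : ℝ, 0 < δ ∧ ∃ N₀ : ℕ, ∀ (N : ℕ) [NeZero N],
  N₀ ≤ N → ε * N ≤ N.totient → ∀ (χ : Ch N) (s : ℤ), χ ^ 2 = 1 → χ ≠ 1 → (s = 1 ∨ s = -1) →
    (EX χ s : ℝ) ≤ δ * N →
      ∃ σ : ℝ, 1 - η / Real.log N ≤ σ ∧ σ < 1 ∧ DirichletCharacter.LFunction χ σ = 0

def TOPX_s : Prop := ∀ ε η : ℝ, 0 < ε → 0 < η → ∃ c : ℝ, 0 < c ∧ ∃ N₀ : ℕ, ∀ (N : ℕ) [NeZero N],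
  N₀ ≤ N → ε * N ≤ N.totient → ∀ e e' : ℤ, (e = 1 ∨ e = -1) → (e' = 1 ∨ e' = -1) →
    (∀ χ : DirichletCharacter ℂ N, χ ≠ 1 → χ ^ 2 = 1 → χ (-1) = -(e * e' : ℤ) →
      ∀ σ : ℝ, 1 - η / Real.log N ≤ σ → σ < 1 → DirichletCharacter.LFunction χ σ ≠ 0) →
    c * N ≤ cnt N e e'

end

end Pool.Agent.G42
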