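import Pool.Agent.MP_b5e119_nt.G42X.YDefs

/-! Row RQA: the mean value of `1 * ψ` with the trivial bound for character sums. -/

namespace Pool.Agent.G42

open Finset Filter Topology Pool.Agent.G60
open Pool.Agent.G27 (re)

theorem rqa_abs {q : ℕ} (ψ : Ch q) (n : ℕ) : |(re ψ n : ℝ)| ≤ 1 := by
  exact_mod_cast G27.abs_re_le ψ n

theorem rqa_per {q : ℕ} [NeZero q] {ψ : Ch q} (h2 : ψ ^ 2 = 1) (h1 : ψ ≠ 1) (n : ℕ) :
    ∑ m ∈ Icc 1 (n + q), (re ψ m : ℝ) = ∑ m ∈ Icc 1 n, (re ψ m : ℝ) := by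
  induction n with
  | zero =>
    have h : ∑ m ∈ range q, ((re ψ m : ℤ) : ℂ) = ∑ a : ZMod q, ψ a := by
      refine sum_nbij' (fun m => (m : ZMod q)) (fun a => a.val) (fun _ _ => mem_univ _)
        (fun a _ => mem_range.2 (ZMod.val_lt a)) (fun m hm => ZMod.val_cast_of_lt (mem_range.1 hm))
        (fun a _ => ZMod.natCast_zmod_val a) fun m _ => G27.re_coe h2 m
    rw [MulChar.sum_eq_zero_of_ne_one h1] at h
    have h3 : ∑ m ∈ range q, (re ψ m : ℝ) = 0 := by exact_mod_cast h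
    have h4 : ∑ m ∈ range (q + 1), (re ψ m : ℝ) = re ψ 0 + ∑ m ∈ Icc 1 q, (re ψ m : ℝ) := by
      rw [range_eq_Ico, sum_eq_sum_Ico_succ_bot (by omega)]
      rfl
    have h5 : re ψ q = re ψ 0 := G27.re_congr ψ (by simp)
    rw [sum_range_succ, h3, h5] at h4
    rw [zero_add, Icc_eq_empty (by omega : ¬ 1 ≤ 0), sum_empty]
    linarith
  | succ n ih =>
    rw [show n + 1 + q = n + q + 1 by ring, sum_Icc_succ_top (by omega),
      sum_Icc_succ_top (by omega), ih, G27.re_congr ψ (m := n + q + 1) (n := n + 1) (by simp)]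

theorem rqa_le {q : ℕ} [NeZero q] {ψ : Ch q} (h2 : ψ ^ 2 = 1) (h1 : ψ ≠ 1) (n : ℕ) :
    |∑ m ∈ Icc 1 n, (re ψ m : ℝ)| ≤ q := by
  induction n using Nat.strong_induction_on with
  | _ n ih =>
    rcases lt_or_ge n q with h | h
    · refine (abs_sum_le_sum_abs _ _).trans
        ((sum_le_card_nsmul _ _ 1 fun m _ => rqa_abs ψ m).trans ?_)
      rw [Nat.card_Icc, Nat.add_sub_cancel, nsmul_one]
      exact_mod_cast h.le
    · obtain ⟨k, rfl⟩ := Nat.exists_eq_add_of_le' h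
      rw [rqa_per h2 h1]
      exact ih k (by have := NeZero.pos q; omega)

theorem rqa_tail (a : ℕ → ℝ) (Q L : ℝ) (hA : ∀ N, |∑ n ∈ Icc 1 N, a n| ≤ Q) (U : ℕ) (hU : 0 < U)
    (hL : Tendsto (fun M : ℕ => ∑ n ∈ Icc 1 M, a n / n) atTop (𝓝 L)) :
    |L - ∑ n ∈ Icc 1 U, a n / n| ≤ 2 * Q / U := by
  have k : ∀ V, U ≤ V → |(∑ n ∈ Icc 1 V, a n / n - (∑ n ∈ Icc 1 V, a n) / V) -
      (∑ n ∈ Icc 1 U, a n / n - (∑ n ∈ Icc 1 U, a n) / U)| ≤ Q / U - Q / V := by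
    intro V hV
    induction V, hV using Nat.le_induction with
    | base => simp
    | succ V hV ih =>
      have hV0 : (0 : ℝ) < V := by exact_mod_cast hU.trans_le hV
      rw [sum_Icc_succ_top (by omega), sum_Icc_succ_top (by omega)]
      push_cast
      have e1 : (0 : ℝ) ≤ 1 / V - 1 / (V + 1) :=
        sub_nonneg.2 (one_div_le_one_div_of_le hV0 (by linarith))
      have e2 : |(∑ n ∈ Icc 1 V, a n) * (1 / V - 1 / (V + 1))| ≤ Q * (1 / V - 1 / (V + 1)) := by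
        rw [abs_mul, abs_of_nonneg e1]
        exact mul_le_mul_of_nonneg_right (hA V) e1
      have e3 : ∑ n ∈ Icc 1 V, a n / n + a (V + 1) / (V + 1) -
          (∑ n ∈ Icc 1 V, a n + a (V + 1)) / (V + 1) =
          ∑ n ∈ Icc 1 V, a n / n - (∑ n ∈ Icc 1 V, a n) / V +
            (∑ n ∈ Icc 1 V, a n) * (1 / V - 1 / (V + 1)) := by ring
      have e4 : Q * (1 / V - 1 / (V + 1)) = Q / V - Q / (V + 1) := by ring
      rw [e3]
      rw [abs_le] at ih e2 ⊢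
      constructor <;> linarith [ih.1, ih.2, e2.1, e2.2]
  have dv : ∀ V : ℕ, |(∑ n ∈ Icc 1 V, a n) / V| ≤ Q / V := fun V => by
    rw [abs_div, Nat.abs_cast]
    exact div_le_div_of_nonneg_right (hA V) (Nat.cast_nonneg V)
  refine le_of_tendsto (hL.sub_const _).abs (eventually_atTop.2 ⟨U, fun V hV => ?_⟩)
  have h1 := abs_le.1 (k V hV)
  have h2 := abs_le.1 (dv V)
  have h3 := abs_le.1 (dv U)
  have e : 2 * Q / U = Q / U + Q / U := by ring
  rw [abs_le, e]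
  constructor <;> linarith [h1.1, h1.2, h2.1, h2.2, h3.1, h3.2]

theorem rqa_hyp (hH : HYP_s) (a : ℕ → ℝ) (x U : ℕ) (Q : ℝ) (hU : 0 < U) (hUx : U ≤ x)
    (ha : ∀ n, |a n| ≤ 1) (hS : ∀ N, |∑ n ∈ Icc 1 N, a n| ≤ Q) :
    |∑ n ∈ Icc 1 x, ∑ d ∈ n.divisors, a d - x * ∑ n ∈ Icc 1 U, a n / n| ≤
      U + x / U * (2 * Q) := by
  have h := hH a (fun _ => 1) x U hU hUx
  have e0 : ∀ n : ℕ, ∑ y ∈ n.divisorsAntidiagonal, a y.1 * (1 : ℝ) = ∑ d ∈ n.divisors, a d := by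
    intro n
    rw [Nat.sum_divisorsAntidiagonal (fun i _ => a i * (1 : ℝ))]
    simp
  simp only [e0] at h
  simp only [sum_const, Nat.card_Icc, Nat.add_sub_cancel, nsmul_eq_mul, mul_one, one_mul] at h
  have hQ : 0 ≤ Q := (abs_nonneg _).trans (hS 0)
  have h2 : |∑ m ∈ Icc 1 (x / U), (∑ d ∈ Icc 1 (x / m), a d - ∑ d ∈ Icc 1 U, a d)| ≤
      x / U * (2 * Q) := by
    refine (abs_sum_le_sum_abs _ _).trans ((sum_le_card_nsmul _ _ (2 * Q) fun m _ => ?_).trans ?_)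
    · have h7 := abs_sub (∑ d ∈ Icc 1 (x / m), a d) (∑ d ∈ Icc 1 U, a d)
      linarith [hS (x / m), hS U]
    · rw [Nat.card_Icc, Nat.add_sub_cancel, nsmul_eq_mul]
      exact mul_le_mul_of_nonneg_right Nat.cast_div_le (by linarith)
  have h1 : |x * ∑ n ∈ Icc 1 U, a n / n - ∑ d ∈ Icc 1 U, a d * ((x / d : ℕ) : ℝ)| ≤ U := by
    rw [mul_sum, ← sum_sub_distrib]
    refine (abs_sum_le_sum_abs _ _).trans ?_
    have hb : ∀ d ∈ Icc 1 U, |x * (a d / d) - a d * ((x / d : ℕ) : ℝ)| ≤ 1 := by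
      intro d hd
      rw [mem_Icc] at hd
      have hd0 : (0 : ℝ) < d := by exact_mod_cast hd.1
      have h5 : ((x / d : ℕ) : ℝ) ≤ x / d := Nat.cast_div_le
      have h6 : (x : ℝ) / d ≤ ((x / d : ℕ) : ℝ) + 1 := by
        rw [div_le_iff₀ hd0]
        have := (Nat.lt_div_mul_add (a := x) hd.1).le
        have h7 : (x : ℝ) ≤ ((x / d * d + d : ℕ) : ℝ) := by exact_mod_cast this
        push_cast at h7
        linarith
      have e : x * (a d / d) - a d * ((x / d : ℕ) : ℝ) = a d * (x / d - ((x / d : ℕ) : ℝ)) := by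
        ring
      rw [e, abs_mul]
      have h8 : |(x : ℝ) / d - ((x / d : ℕ) : ℝ)| ≤ 1 := abs_le.2 ⟨by linarith, by linarith⟩
      exact mul_le_one₀ (ha d) (abs_nonneg _) h8
    refine (sum_le_sum hb).trans ?_
    simp
  rw [abs_le] at h1 h2 ⊢
  constructor <;> linarith [h1.1, h1.2, h2.1, h2.2]

theorem rqa_row (hH : HYP_s) : RQA_s := by
  intro q _ ψ L h2 h1 hL y
  rcases Nat.eq_zero_or_pos y with rfl | hy
  · simp
  have hy1 : (1 : ℝ) ≤ y := by exact_mod_cast hy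
  have hq1 : (1 : ℝ) ≤ q := by exact_mod_cast NeZero.pos q
  have hs1 : 1 ≤ √(y : ℝ) := Real.one_le_sqrt.2 hy1
  have hss : √(y : ℝ) * √(y : ℝ) = y := Real.mul_self_sqrt (by linarith)
  obtain ⟨U, hU⟩ : ∃ U : ℕ, U = ⌈√(y : ℝ)⌉₊ := ⟨_, rfl⟩
  have hU1 : √(y : ℝ) ≤ U := by rw [hU]; exact Nat.le_ceil _
  have hU2 : (U : ℝ) < √(y : ℝ) + 1 := by rw [hU]; exact Nat.ceil_lt_add_one (by linarith)
  have hUy : U ≤ y := by rw [hU]; exact Nat.ceil_le.2 (by nlinarith)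
  have hU0' : (0 : ℝ) < U := by linarith
  have hU0 : 0 < U := by exact_mod_cast hU0'
  have hh := rqa_hyp hH (fun n => (re ψ n : ℝ)) y U q hU0 hUy (rqa_abs ψ) (rqa_le h2 h1)
  have ht := rqa_tail (fun n => (re ψ n : ℝ)) q L (rqa_le h2 h1) U hU0 hL
  obtain ⟨T, hT⟩ : ∃ T : ℝ, T = ∑ n ∈ Icc 1 U, (re ψ n : ℝ) / n := ⟨_, rfl⟩
  simp only [← hT] at hh ht
  have d0 : (y : ℝ) / U ≤ √(y : ℝ) := by
    rw [div_le_iff₀ hU0']
    nlinarith
  have d1 : (y : ℝ) / U * (2 * q) ≤ √(y : ℝ) * (2 * q) :=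
    mul_le_mul_of_nonneg_right d0 (by linarith)
  have d2 : |y * T - y * L| ≤ y / U * (2 * q) := by
    rw [← mul_sub, abs_mul, abs_of_pos (by linarith : (0 : ℝ) < y), abs_sub_comm]
    refine (mul_le_mul_of_nonneg_left ht (by linarith)).trans (le_of_eq ?_)
    ring
  have d3 := abs_sub_le (∑ n ∈ Icc 1 y, ∑ d ∈ n.divisors, (re ψ d : ℝ)) (y * T) (y * L)
  have d4 : √(y : ℝ) ≤ q * √(y : ℝ) := by nlinarith
  unfold rx
  nlinarith

end Pool.Agent.G42
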