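import Pool.Agent.MP_b5e119_nt.G42X.Defs
import Pool.Agent.MP_b5e119_nt.G27.STRG

namespace Pool.Agent.G42

open Finset Filter Topology Pool.Agent.G60

theorem strx_core [Sg] (N : ℕ) [NeZero N] (χ : Ch N) (t : ℝ) (hN1 : 1 < N) (h2 : χ ^ 2 = 1)
    (hc : 1 - G27.nu N χ ≤ t) (hod : t * N.totient + od N < N.totient) :
    ∃ σ : ℤ, (σ = 1 ∨ σ = -1) ∧ 2 * (G27.EX χ σ : ℝ) ≤ t * N.totient ∧
      G27.re χ (N - 1) = Sg.s := by
  have hφ0 : 0 < N.totient := Nat.totient_pos.2 (by omega)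
  rw [G27.strg_nu N χ h2] at hc
  set S : ℤ := ∑ a : ZMod N, ff N a * G27.re χ a.val with hS
  obtain ⟨σ, hσ, hσS⟩ : ∃ σ : ℤ, (σ = 1 ∨ σ = -1) ∧ 0 ≤ σ * S := by
    rcases le_total 0 S with h | h
    · exact ⟨1, Or.inl rfl, by linarith⟩
    · exact ⟨-1, Or.inr rfl, by linarith⟩
  have hsum := G27.strg_sum N hN1 χ h2 σ hσ
  rw [← hS] at hsum
  have hp1 : (0 : ℝ) < (N.totient : ℝ) := by exact_mod_cast hφ0
  have hEx : 2 * (G27.EX χ σ : ℝ) ≤ t * N.totient := by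
    set u : ℝ := ((σ * S : ℤ) : ℝ) / (N.totient : ℝ) with hu
    have ht2 : ((S : ℝ) / (N.totient : ℝ)) ^ 2 = u ^ 2 := by
      rw [hu]
      rcases hσ with h | h <;> rw [h] <;> push_cast <;> ring
    have ht0 : 0 ≤ u := div_nonneg (by exact_mod_cast hσS) hp1.le
    have hte : (2 * G27.EX χ σ : ℝ) = (N.totient : ℝ) * (1 - u) := by
      rw [hu, hsum]; push_cast; field_simp; ring
    have ht1 : 0 ≤ 1 - u := by
      have : 0 ≤ (N.totient : ℝ) * (1 - u) := by rw [← hte]; positivity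
      exact nonneg_of_mul_nonneg_right this hp1
    rw [ht2] at hc
    have a1 : 1 - u ≤ t := by nlinarith
    rw [hte, mul_comm]
    exact mul_le_mul_of_nonneg_right a1 hp1.le
  refine ⟨σ, hσ, hEx, ?_⟩
  by_contra hne
  have hcop : (N - 1).Coprime N := by
    obtain ⟨k, rfl⟩ : ∃ k, N = k + 1 := ⟨N - 1, by omega⟩
    simp
  have h : G27.re χ (N - 1) = -Sg.s := by
    rcases G27.re_unit h2 hcop with h | h <;>
      rcases Sg.hs with h5 | h5 <;> rw [h, h5] at hne <;> rw [h, h5] <;> simp at hne ⊢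
  have h6 := G27.strg_even N hN1 χ h2 σ hσ h
  rw [← hS, hsum] at h6
  have h7 : (N.totient : ℝ) - 2 * G27.EX χ σ ≤ od N := by exact_mod_cast h6
  linarith

theorem strx_row [Sg] (hC : CONX_s) : STRX_s := by
  intro ε η hε hη
  obtain ⟨y, β, hβ, N₀, h⟩ := hC ε (min η (1 / 4)) hε (by positivity)
  refine ⟨y, min β (ε / 4), by positivity, N₀ + 2, fun N _ hN hφ hG => ?_⟩
  have hN0 : (0 : ℝ) < N := by exact_mod_cast NeZero.pos N
  have b1 : min β (ε / 4) * N ≤ β * N := mul_le_mul_of_nonneg_right (min_le_left _ _) hN0.le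
  have b2 : min β (ε / 4) * N ≤ ε / 4 * N := mul_le_mul_of_nonneg_right (min_le_right _ _) hN0.le
  obtain ⟨χ, a1, a2, a3⟩ := h N (by omega) hφ
    ⟨hG.1.trans b1, fun m h0 hm => (hG.2 m h0 hm).trans b1⟩
  have hp : (0 : ℝ) < N.totient := lt_of_lt_of_le (by positivity) hφ
  have hq : (N.totient : ℝ) ≤ N := by exact_mod_cast Nat.totient_le N
  have b3 : min η (1 / 4) * N.totient ≤ 1 / 4 * N.totient :=
    mul_le_mul_of_nonneg_right (min_le_right _ _) hp.le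
  have b4 : min η (1 / 4) * N.totient ≤ η * N :=
    mul_le_mul (min_le_left _ _) hq hp.le hη.le
  obtain ⟨σ, c1, c2, c3⟩ := strx_core N χ _ (by omega) a1 a3 (by linarith [hG.1])
  have b5 : (0 : ℝ) ≤ G27.EX χ σ := Nat.cast_nonneg _
  exact ⟨χ, σ, a1, a2, c1, by linarith, c3⟩

end Pool.Agent.G42
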