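import Pool.Agent.MP_b5e119_nt.G42X.Defs

/-! Statements of the last rows of campaign h42x: the exceptional conductor is large. -/

namespace Pool.Agent.G42

open Finset Filter Topology Pool.Agent.G60
open Pool.Agent.G27 (re EX)

def RQA_s : Prop := ∀ (q : ℕ) [NeZero q] (ψ : Ch q) (L : ℝ), ψ ^ 2 = 1 → ψ ≠ 1 →
  Tendsto (fun M : ℕ => ∑ n ∈ Icc 1 M, (re ψ n : ℝ) / n) atTop (𝓝 L) →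
    ∀ y : ℕ, |∑ n ∈ Icc 1 y, rx ψ n - y * L| ≤ 6 * q * √y

def RQB_s : Prop := ∀ (q : ℕ) [NeZero q] (ψ : Ch q) (L : ℝ), ψ ^ 2 = 1 → ψ ≠ 1 →
  Tendsto (fun M : ℕ => ∑ n ∈ Icc 1 M, (re ψ n : ℝ) / n) atTop (𝓝 L) → 0 ≤ L ∧
    ∀ y y' : ℕ, 1 ≤ y → y ≤ y' →
      |ZX ψ y' - ZX ψ y - L * Real.log ((y' : ℝ) / y)| ≤ 40 * q / √y

def ZQ_s : Prop := ∀ (q : ℕ) (ψ : Ch q) (x : ℕ), ZX ψ x ≤ (1 + Real.log x) ^ 2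

def SMC_s : Prop := ∀ ε : ℝ, 0 < ε → ∃ δ : ℝ, 0 < δ ∧ ∀ A : ℕ, ∃ N₀ : ℕ, ∀ (N : ℕ) [NeZero N],
  N₀ ≤ N → ε * N ≤ N.totient → ∀ (χ : Ch N) (q : ℕ) [NeZero q] (ψ : Ch q) (s : ℤ), χ ^ 2 = 1 →
    ψ ^ 2 = 1 → ψ ≠ 1 → (∀ n : ℕ, n.Coprime N → χ (n : ZMod N) = ψ (n : ZMod q)) →
    (s = 1 ∨ s = -1) → (EX χ s : ℝ) ≤ δ * N → Real.log N ^ A ≤ q

/-- Two moduli of comparable size with few exceptions carry the same character. -/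
def REPX_s : Prop := ∀ ε : ℝ, 0 < ε → ∃ δ : ℝ, 0 < δ ∧ ∃ N₀ : ℕ,
  ∀ (M M' : ℕ) [NeZero M] [NeZero M'], N₀ ≤ M → M ≤ M' → M' ≤ M ^ 2 → ε * M ≤ M.totient →
    ε * M' ≤ M'.totient → ∀ (χ : Ch M) (χ' : Ch M') (s s' : ℤ), χ ^ 2 = 1 → χ' ^ 2 = 1 →
    (s = 1 ∨ s = -1) → (s' = 1 ∨ s' = -1) → (EX χ s : ℝ) ≤ δ * M → (EX χ' s' : ℝ) ≤ δ * M' →
      ∀ n : ℕ, n.Coprime (M * M') → χ (n : ZMod M) = χ' (n : ZMod M')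

def TOPL_s : Prop := ∀ ε : ℝ, 0 < ε → ∃ c : ℝ, 0 < c ∧ ∀ A : ℕ, ∃ X₀ : ℕ, ∀ X : ℕ, X₀ ≤ X →
  ∃ (q : ℕ) (ψ : DirichletCharacter ℂ q), ψ.IsPrimitive ∧ ψ ^ 2 = 1 ∧
    ∀ M N : ℕ, X ≤ M → M ≤ X ^ 2 → ε * M ≤ M.totient → 0 < N → M ∣ N →
      ∀ e e' : ℤ, (e = 1 ∨ e = -1) → (e' = 1 ∨ e' = -1) → (cnt N e e' : ℝ) < c * M →
        Real.log X ^ A ≤ q ∧ q ∣ M ∧ ψ (-1) = -(e * e' : ℤ)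

end Pool.Agent.G42
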